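import Pool.Agent.GSR.Defs

/-!
# The free algebra: homogeneous components, filtration, homogeneous ideals
-/

set_option autoImplicit false

namespace GSR

open MonoidAlgebra

variable {K : Type*} [Field K] {d : ℕ}

theorem mem_Hom {n : ℕ} {f : FA K d} :
    f ∈ Hom K d n ↔ ∀ w, f.coeff w ≠ 0 → FreeMonoid.length w = n := Iff.rfl

theorem mem_Fil {n : ℕ} {f : FA K d} :
    f ∈ Fil K d n ↔ ∀ w, f.coeff w ≠ 0 → n ≤ FreeMonoid.length w := Iff.rfl

theorem single_mem_Hom (w : FreeMonoid (Fin d)) (r : K) :
    (single w r : FA K d) ∈ Hom K d (FreeMonoid.length w) := by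
  classical
  intro v hv
  rw [coeff_single, Finsupp.single_apply] at hv
  split_ifs at hv with h
  · rw [h]
  · exact absurd rfl hv

theorem single_mem_Fil {w : FreeMonoid (Fin d)} {n : ℕ} (h : n ≤ FreeMonoid.length w) (r : K) :
    (single w r : FA K d) ∈ Fil K d n := by
  intro v hv
  rw [single_mem_Hom w r v hv]
  exact h

/-- An element is in a submodule as soon as the words of its support are. -/
theorem mem_of_words {P : Submodule K (FA K d)} {f : FA K d}
    (h : ∀ w, f.coeff w ≠ 0 → (single w 1 : FA K d) ∈ P) : f ∈ P := by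
  rw [← sum_coeff_single f]
  refine Submodule.sum_mem _ ?_
  intro w hw
  have h1 := P.smul_mem (f.coeff w) (h w (Finsupp.mem_support_iff.1 hw))
  rwa [smul_single, smul_eq_mul, mul_one] at h1

theorem mul_mem_of_words {P : Submodule K (FA K d)} {f g : FA K d}
    (h : ∀ u, f.coeff u ≠ 0 → ∀ v, g.coeff v ≠ 0 → (single (u * v) 1 : FA K d) ∈ P) :
    f * g ∈ P := by
  classical
  rw [mul_def]
  refine Submodule.sum_mem _ ?_
  intro u hu
  refine Submodule.sum_mem _ ?_
  intro v hv
  have h1 := P.smul_mem (f.coeff u * g.coeff v)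
    (h u (Finsupp.mem_support_iff.1 hu) v (Finsupp.mem_support_iff.1 hv))
  rwa [smul_single, smul_eq_mul, mul_one] at h1

theorem mul_mem_Hom {m n : ℕ} {f g : FA K d} (hf : f ∈ Hom K d m) (hg : g ∈ Hom K d n) :
    f * g ∈ Hom K d (m + n) := by
  apply mul_mem_of_words
  intro u hu v hv
  have h := single_mem_Hom (K := K) (u * v) 1
  rwa [FreeMonoid.length_mul, hf u hu, hg v hv] at h

theorem mul_mem_Fil {m n : ℕ} {f g : FA K d} (hf : f ∈ Fil K d m) (hg : g ∈ Fil K d n) :
    f * g ∈ Fil K d (m + n) := by
  apply mul_mem_of_words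
  intro u hu v hv
  apply single_mem_Fil
  rw [FreeMonoid.length_mul]
  exact add_le_add (hf u hu) (hg v hv)

theorem Fil_anti {m n : ℕ} (h : m ≤ n) : Fil K d n ≤ Fil K d m :=
  fun _ hf w hw => h.trans (hf w hw)

theorem Fil_zero : Fil K d 0 = ⊤ := by
  rw [eq_top_iff]
  intro f _ w _
  exact Nat.zero_le _

theorem mul_left_mem_Fil {n : ℕ} {f g : FA K d} (hg : g ∈ Fil K d n) : f * g ∈ Fil K d n := by
  have h := mul_mem_Fil (m := 0) (f := f) (by rw [Fil_zero]; trivial) hg
  rwa [zero_add] at h

theorem mul_right_mem_Fil {n : ℕ} {f g : FA K d} (hf : f ∈ Fil K d n) : f * g ∈ Fil K d n := by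
  have h := mul_mem_Fil (n := 0) (g := g) hf (by rw [Fil_zero]; trivial)
  rwa [add_zero] at h

theorem Hom_le_Fil (n : ℕ) : Hom K d n ≤ Fil K d n := fun _ hf w hw => (hf w hw).ge

/-- The homogeneous component of degree `n`. -/
noncomputable def comp (n : ℕ) : FA K d →ₗ[K] FA K d where
  toFun f := ofCoeff (f.coeff.filter (fun w => FreeMonoid.length w = n))
  map_add' f g := by
    rw [coeff_add, Finsupp.filter_add, ofCoeff_add]
  map_smul' c f := by
    rw [coeff_smul, Finsupp.filter_smul, ofCoeff_smul]
    rfl

theorem comp_coeff (n : ℕ) (f : FA K d) (w : FreeMonoid (Fin d)) :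
    (comp n f).coeff w = if FreeMonoid.length w = n then f.coeff w else 0 := by
  classical
  show (f.coeff.filter (fun w => FreeMonoid.length w = n)) w = _
  rw [Finsupp.filter_apply]

theorem comp_mem_Hom (n : ℕ) (f : FA K d) : comp n f ∈ Hom K d n := by
  intro w hw
  rw [comp_coeff] at hw
  by_contra h
  rw [if_neg h] at hw
  exact hw rfl

theorem comp_of_mem {n : ℕ} {f : FA K d} (hf : f ∈ Hom K d n) : comp n f = f := by
  apply coeff_injective
  ext w
  rw [comp_coeff]
  split_ifs with h
  · rfl
  · by_contra h'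
    exact h (hf w (fun h0 => h' h0.symm))

theorem comp_of_mem_ne {m n : ℕ} {f : FA K d} (hf : f ∈ Hom K d m) (hmn : m ≠ n) :
    comp n f = 0 := by
  apply coeff_injective
  ext w
  rw [comp_coeff]
  split_ifs with h
  · by_contra h'
    have := hf w h'
    omega
  · rfl

theorem mem_Fil_iff_comp {n : ℕ} {f : FA K d} :
    f ∈ Fil K d n ↔ ∀ m, m < n → comp m f = 0 := by
  constructor
  · intro hf m hm
    apply coeff_injective
    ext w
    rw [comp_coeff]
    split_ifs with h
    · by_contra h'
      have := hf w h'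
      omega
    · rfl
  · intro h w hw
    by_contra hlt
    push Not at hlt
    have h1 := congrArg (fun g => g.coeff w) (h _ hlt)
    simp only [comp_coeff, if_true] at h1
    exact hw h1

/-- An element is the sum of finitely many of its homogeneous components. -/
theorem exists_sum_comp (f : FA K d) : ∃ N, f = ∑ n ∈ Finset.range N, comp n f := by
  classical
  refine ⟨f.coeff.support.sup FreeMonoid.length + 1, ?_⟩
  apply coeff_injective
  ext w
  rw [coeff_sum, Finsupp.finsetSum_apply]
  simp only [comp_coeff]
  rw [Finset.sum_ite_eq]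
  split_ifs with h
  · rfl
  · by_contra h'
    apply h
    rw [Finset.mem_range, Nat.lt_succ_iff]
    exact Finset.le_sup (f := FreeMonoid.length) (Finsupp.mem_support_iff.2 h')

/-! ### The ideal generated by homogeneous relations -/

section Ideal

variable {ι : Type*} (ρ : ι → FA K d)

theorem gen_mem (i : ι) : ρ i ∈ relSpan ρ := by
  apply Submodule.subset_span
  refine ⟨i, 1, 1, ?_⟩
  rw [map_one, one_mul, mul_one]

theorem relSpan_mul_left {f g : FA K d} (hg : g ∈ relSpan ρ) : f * g ∈ relSpan ρ := by
  induction hg using Submodule.span_induction with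
  | mem x hx =>
    obtain ⟨i, u, v, rfl⟩ := hx
    induction f using MonoidAlgebra.induction_linear with
    | zero => rw [zero_mul]; exact Submodule.zero_mem _
    | add x y hx hy => rw [add_mul]; exact Submodule.add_mem _ hx hy
    | single m r =>
      have h1 : (single m r : FA K d) * (of K _ u * ρ i * of K _ v)
          = r • (of K _ (m * u) * ρ i * of K _ v) := by
        have h2 : (single m r : FA K d) = r • of K _ m := by
          rw [of_apply, smul_single, smul_eq_mul, mul_one]
        rw [h2, map_mul, smul_mul_assoc]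
        simp only [mul_assoc]
      rw [h1]
      exact Submodule.smul_mem _ _ (Submodule.subset_span ⟨i, m * u, v, rfl⟩)
  | zero => rw [mul_zero]; exact Submodule.zero_mem _
  | add x y _ _ hx hy => rw [mul_add]; exact Submodule.add_mem _ hx hy
  | smul a x _ hx => rw [mul_smul_comm]; exact Submodule.smul_mem _ _ hx

theorem relSpan_mul_right {f g : FA K d} (hg : g ∈ relSpan ρ) : g * f ∈ relSpan ρ := by
  induction hg using Submodule.span_induction with
  | mem x hx =>
    obtain ⟨i, u, v, rfl⟩ := hx
    induction f using MonoidAlgebra.induction_linear with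
    | zero => rw [mul_zero]; exact Submodule.zero_mem _
    | add x y hx hy => rw [mul_add]; exact Submodule.add_mem _ hx hy
    | single m r =>
      have h1 : (of K _ u * ρ i * of K _ v) * (single m r : FA K d)
          = r • (of K _ u * ρ i * of K _ (v * m)) := by
        have h2 : (single m r : FA K d) = r • of K _ m := by
          rw [of_apply, smul_single, smul_eq_mul, mul_one]
        rw [h2, map_mul, mul_smul_comm]
        simp only [mul_assoc]
      rw [h1]
      exact Submodule.smul_mem _ _ (Submodule.subset_span ⟨i, u, v * m, rfl⟩)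
  | zero => rw [zero_mul]; exact Submodule.zero_mem _
  | add x y _ _ hx hy => rw [add_mul]; exact Submodule.add_mem _ hx hy
  | smul a x _ hx => rw [smul_mul_assoc]; exact Submodule.smul_mem _ _ hx

/-- The ideal generated by the relations. -/
noncomputable def relIdeal : Ideal (FA K d) where
  carrier := relSpan ρ
  add_mem' := fun h1 h2 => (relSpan ρ).add_mem h1 h2
  zero_mem' := (relSpan ρ).zero_mem
  smul_mem' := fun _ _ hx => relSpan_mul_left ρ hx

theorem mem_relIdeal {f : FA K d} : f ∈ relIdeal ρ ↔ f ∈ relSpan ρ := Iff.rfl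

instance : (relIdeal ρ).IsTwoSided where
  mul_mem_of_left _ ha := relSpan_mul_right ρ ha

theorem comp_mem_relSpan {deg : ι → ℕ} (hρ : ∀ i, ρ i ∈ Hom K d (deg i)) (n : ℕ) {f : FA K d}
    (hf : f ∈ relSpan ρ) : comp n f ∈ relSpan ρ := by
  induction hf using Submodule.span_induction with
  | mem x hx =>
    obtain ⟨i, u, v, rfl⟩ := hx
    have h1 : of K _ u * ρ i * of K _ v
        ∈ Hom K d (FreeMonoid.length u + deg i + FreeMonoid.length v) :=
      mul_mem_Hom (mul_mem_Hom (single_mem_Hom u 1) (hρ i)) (single_mem_Hom v 1)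
    by_cases h : FreeMonoid.length u + deg i + FreeMonoid.length v = n
    · rw [h] at h1
      rw [comp_of_mem h1]
      exact Submodule.subset_span ⟨i, u, v, rfl⟩
    · rw [comp_of_mem_ne h1 h]
      exact Submodule.zero_mem _
  | zero => rw [map_zero]; exact Submodule.zero_mem _
  | add x y _ _ hx hy => rw [map_add]; exact Submodule.add_mem _ hx hy
  | smul a x _ hx => rw [map_smul]; exact Submodule.smul_mem _ _ hx

end Ideal

end GSR
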