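import Pool.Agent.GSR.Defs

set_option autoImplicit false

/-!
# Module A1: the angle between two averaging projections of a Heisenberg pair of prime order
-/

namespace GSR

section Angle

variable {G : Type*} [Group G] {H : Type*} [NormedAddCommGroup H] [InnerProductSpace ℝ H]

theorem Angle_inner (ρ : G →* (H →ₗ[ℝ] H)) (hρ : ∀ g v, ‖ρ g v‖ = ‖v‖) (g : G) (x y : H) :
    inner ℝ (ρ g x) (ρ g y) = inner ℝ x y :=
  LinearIsometry.inner_map_map (⟨ρ g, hρ g⟩ : H →ₗᵢ[ℝ] H) x y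

theorem Angle_mul (ρ : G →* (H →ₗ[ℝ] H)) (g h : G) (x : H) : ρ (g * h) x = ρ g (ρ h x) := by
  rw [map_mul]; rfl

theorem Angle_one (ρ : G →* (H →ₗ[ℝ] H)) (x : H) : ρ 1 x = x := by
  rw [map_one]; rfl

theorem Angle_inv (ρ : G →* (H →ₗ[ℝ] H)) (g : G) (x : H) : ρ g (ρ g⁻¹ x) = x := by
  rw [← Angle_mul, mul_inv_cancel, Angle_one]

theorem Angle_inv' (ρ : G →* (H →ₗ[ℝ] H)) (g : G) (x : H) : ρ g⁻¹ (ρ g x) = x := by
  rw [← Angle_mul, inv_mul_cancel, Angle_one]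

theorem Angle_adj (ρ : G →* (H →ₗ[ℝ] H)) (hρ : ∀ g v, ‖ρ g v‖ = ‖v‖) (g : G) (x y : H) :
    inner ℝ (ρ g x) y = inner ℝ x (ρ g⁻¹ y) := by
  rw [← Angle_inner ρ hρ g x (ρ g⁻¹ y), Angle_inv]

theorem Angle_pow (ρ : G →* (H →ₗ[ℝ] H)) (g : G) (x : H) (hx : ρ g x = x) (a : ℕ) :
    ρ (g ^ a) x = x := by
  induction a with
  | zero => rw [pow_zero, Angle_one]
  | succ a ih => rw [pow_succ, Angle_mul, hx, ih]

theorem Angle_inv_fix (ρ : G →* (H →ₗ[ℝ] H)) (g : G) (x : H) (hx : ρ g x = x) :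
    ρ g⁻¹ x = x := by
  conv_lhs => rw [← hx]
  rw [Angle_inv']

theorem Angle_avg (ρ : G →* (H →ₗ[ℝ] H)) (p : ℕ) (g : G) (x : H) :
    avg ρ p g x = (p : ℝ)⁻¹ • ∑ a ∈ Finset.range p, ρ (g ^ a) x := by
  simp [avg]

theorem Angle_avg_fix (ρ : G →* (H →ₗ[ℝ] H)) {p : ℕ} (hp : p ≠ 0) (g : G) (x : H)
    (hx : ρ g x = x) : avg ρ p g x = x := by
  rw [Angle_avg, Finset.sum_congr rfl (fun a _ => Angle_pow ρ g x hx a)]
  simp only [Finset.sum_const, Finset.card_range]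
  rw [← Nat.cast_smul_eq_nsmul ℝ, smul_smul, inv_mul_cancel₀ (by exact_mod_cast hp), one_smul]

theorem Angle_fix_avg (ρ : G →* (H →ₗ[ℝ] H)) {p : ℕ} (g : G) (hg : g ^ p = 1) (x : H) :
    ρ g (avg ρ p g x) = avg ρ p g x := by
  rw [Angle_avg, map_smul, map_sum]
  congr 1
  have h1 : ∀ a ∈ Finset.range p, ρ g (ρ (g ^ a) x) = ρ (g ^ (a + 1)) x := by
    intro a _
    rw [pow_succ', Angle_mul]
  rw [Finset.sum_congr rfl h1]
  have h2 := Finset.sum_range_succ' (fun a => ρ (g ^ a) x) p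
  have h3 := Finset.sum_range_succ (fun a => ρ (g ^ a) x) p
  rw [h3] at h2
  simp only [hg, pow_zero] at h2
  exact (add_right_cancel h2).symm

theorem Angle_inner_fix (ρ : G →* (H →ₗ[ℝ] H)) (hρ : ∀ g v, ‖ρ g v‖ = ‖v‖) {p : ℕ} (hp : p ≠ 0)
    (g : G) (x w : H) (hw : ρ g w = w) : inner ℝ (avg ρ p g x) w = inner ℝ x w := by
  rw [Angle_avg, inner_smul_left, sum_inner]
  have h1 : ∀ a ∈ Finset.range p, inner ℝ (ρ (g ^ a) x) w = inner ℝ x w := by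
    intro a _
    rw [Angle_adj ρ hρ, Angle_inv_fix ρ _ w (Angle_pow ρ g w hw a)]
  rw [Finset.sum_congr rfl h1]
  simp only [Finset.sum_const, Finset.card_range, nsmul_eq_mul]
  have : (p : ℝ) ≠ 0 := by exact_mod_cast hp
  simp only [map_inv₀, conj_trivial]
  field_simp

theorem Angle_sym (ρ : G →* (H →ₗ[ℝ] H)) (hρ : ∀ g v, ‖ρ g v‖ = ‖v‖) {p : ℕ} (hp : p ≠ 0)
    (g : G) (hg : g ^ p = 1) (x y : H) :
    inner ℝ (avg ρ p g x) y = inner ℝ x (avg ρ p g y) := by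
  rw [← Angle_inner_fix ρ hρ hp g x _ (Angle_fix_avg ρ g hg y), real_inner_comm,
    ← Angle_inner_fix ρ hρ hp g y _ (Angle_fix_avg ρ g hg x), real_inner_comm]

theorem Angle_comm_avg (ρ : G →* (H →ₗ[ℝ] H)) {p : ℕ} (g z : G) (hzg : Commute z g) (x : H) :
    ρ z (avg ρ p g x) = avg ρ p g (ρ z x) := by
  rw [Angle_avg, Angle_avg, map_smul, map_sum]
  congr 1
  refine Finset.sum_congr rfl (fun a _ => ?_)
  rw [← Angle_mul, ← Angle_mul, (hzg.pow_right a).eq]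

theorem Angle_comm_avg' (ρ : G →* (H →ₗ[ℝ] H)) {p : ℕ} (g z : G) (hzg : Commute z g) (x : H) :
    avg ρ p z (avg ρ p g x) = avg ρ p g (avg ρ p z x) := by
  rw [Angle_avg ρ p z, Angle_avg ρ p z, map_smul, map_sum]
  congr 1
  refine Finset.sum_congr rfl (fun a _ => ?_)
  rw [Angle_comm_avg ρ g _ (hzg.pow_left a)]

theorem Angle_grp {z g h : G} (hz : z = g * h * g⁻¹ * h⁻¹) (hzg : Commute z g) (hzh : Commute z h)
    (a b : ℕ) : g ^ a * h ^ b = h ^ b * g ^ a * z ^ (a * b) := by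
  have h0 : g * h = h * g * z := by
    have : g * h = z * (h * g) := by rw [hz]; group
    rw [this, (hzh.mul_right hzg).eq]
  have h1 : ∀ b : ℕ, g * h ^ b = h ^ b * g * z ^ b := by
    intro b
    induction b with
    | zero => simp
    | succ b ih =>
      have e : z ^ b * h = h * z ^ b := (hzh.pow_left b).eq
      calc g * h ^ (b + 1) = g * h ^ b * h := by rw [pow_succ, mul_assoc]
        _ = h ^ b * g * (z ^ b * h) := by rw [ih, mul_assoc]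
        _ = h ^ b * (g * h) * z ^ b := by rw [e]; simp only [mul_assoc]
        _ = h ^ b * (h * g * z) * z ^ b := by rw [h0]
        _ = h ^ (b + 1) * g * z ^ (b + 1) := by
          rw [pow_succ h, pow_succ' z]; simp only [mul_assoc]
  induction a with
  | zero => simp
  | succ a ih =>
    have e : z ^ b * g ^ a = g ^ a * z ^ b := (hzg.pow_pow b a).eq
    calc g ^ (a + 1) * h ^ b = g * (g ^ a * h ^ b) := by rw [pow_succ', mul_assoc]
      _ = g * h ^ b * g ^ a * z ^ (a * b) := by rw [ih]; simp only [mul_assoc]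
      _ = h ^ b * g * (z ^ b * g ^ a) * z ^ (a * b) := by rw [h1]; simp only [mul_assoc]
      _ = h ^ b * g ^ (a + 1) * (z ^ b * z ^ (a * b)) := by
        rw [e, pow_succ']; simp only [mul_assoc]
      _ = h ^ b * g ^ (a + 1) * z ^ ((a + 1) * b) := by
        rw [← pow_add]; congr 2; ring

/-- On the vectors fixed by the central `z` the two averages commute. -/
theorem Angle_comm_fixed (ρ : G →* (H →ₗ[ℝ] H)) {p : ℕ} {z g h : G}
    (hz : z = g * h * g⁻¹ * h⁻¹) (hzg : Commute z g) (hzh : Commute z h) (x : H)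
    (hx : ρ z x = x) : avg ρ p g (avg ρ p h x) = avg ρ p h (avg ρ p g x) := by
  have e : ∀ a b : ℕ, ρ (g ^ a) (ρ (h ^ b) x) = ρ (h ^ b) (ρ (g ^ a) x) := by
    intro a b
    rw [← Angle_mul, ← Angle_mul, Angle_grp hz hzg hzh a b, Angle_mul, Angle_pow ρ z x hx]
  rw [Angle_avg ρ p g, Angle_avg ρ p h, Angle_avg ρ p g x, Angle_avg ρ p h, ]
  simp only [map_smul, map_sum, Finset.smul_sum]
  rw [Finset.sum_comm]
  refine Finset.sum_congr rfl (fun a _ => Finset.sum_congr rfl (fun b _ => ?_))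
  rw [e]

/-- The averages over `z` and over `z ^ a` have the same kernel, `0 < a < p`. -/
theorem Angle_pow_sum (ρ : G →* (H →ₗ[ℝ] H)) {p : ℕ} (hp : p.Prime) {z : G} (hz : z ^ p = 1)
    (x : H) (hx : avg ρ p z x = 0) {a : ℕ} (ha : 0 < a) (hap : a < p) :
    avg ρ p (z ^ a) x = 0 := by
  have hza : (z ^ a) ^ p = 1 := by rw [← pow_mul, mul_comm, pow_mul, hz, one_pow]
  have h1 := Angle_fix_avg ρ (z ^ a) hza x
  have hcop : Nat.Coprime a p := by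
    rw [Nat.coprime_comm]
    exact (Nat.Prime.coprime_iff_not_dvd hp).2 (Nat.not_dvd_of_pos_of_lt ha hap)
  obtain ⟨m, -, hm⟩ := Nat.exists_mul_mod_eq_one_of_coprime hcop hp.one_lt
  have h2 : (z ^ a) ^ m = z := by
    rw [← pow_mul, pow_eq_pow_mod (a * m) hz, hm, pow_one]
  have h3 : ρ z (avg ρ p (z ^ a) x) = avg ρ p (z ^ a) x := by
    have := Angle_pow ρ (z ^ a) _ h1 m
    rwa [h2] at this
  rw [← Angle_avg_fix ρ hp.ne_zero z _ h3,
    Angle_comm_avg' ρ (z ^ a) z ((Commute.refl z).pow_right a), hx, map_zero]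

/-- If `P_z y = 0` and `h y = y` then `|P_g y| ^ 2 = |y| ^ 2 / p`. -/
theorem Angle_norm (ρ : G →* (H →ₗ[ℝ] H)) (hρ : ∀ g v, ‖ρ g v‖ = ‖v‖) {p : ℕ} (hp : p.Prime)
    {z g h : G} (hz : z = g * h * g⁻¹ * h⁻¹) (hzg : Commute z g) (hzh : Commute z h)
    (hg : g ^ p = 1) (hz1 : z ^ p = 1) (y : H) (hy : avg ρ p z y = 0) (hhy : ρ h y = y) :
    ‖avg ρ p g y‖ ^ 2 = (p : ℝ)⁻¹ * ‖y‖ ^ 2 := by
  have key : ∀ a : ℕ, 0 < a → a < p → inner ℝ (ρ (g ^ a) y) y = 0 := by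
    intro a ha hap
    have h1 : ∀ k : ℕ, inner ℝ (ρ (g ^ a) (ρ ((z ^ a) ^ k) y)) y = inner ℝ (ρ (g ^ a) y) y := by
      intro k
      have e1 : ρ (g ^ a) y = ρ (h ^ k) (ρ (g ^ a) (ρ ((z ^ a) ^ k) y)) := by
        have e2 : ρ (g ^ a) y = ρ (g ^ a) (ρ (h ^ k) y) := by rw [Angle_pow ρ h y hhy k]
        rw [e2, ← Angle_mul, Angle_grp hz hzg hzh a k, pow_mul z a k, Angle_mul, Angle_mul]
      rw [e1, Angle_adj ρ hρ (h ^ k), Angle_inv_fix ρ _ y (Angle_pow ρ h y hhy k)]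
    have h2 : inner ℝ (ρ (g ^ a) (avg ρ p (z ^ a) y)) y = inner ℝ (ρ (g ^ a) y) y := by
      rw [Angle_avg, map_smul, map_sum, inner_smul_left, sum_inner,
        Finset.sum_congr rfl (fun k _ => h1 k)]
      have : (p : ℝ) ≠ 0 := by exact_mod_cast hp.ne_zero
      simp only [Finset.sum_const, Finset.card_range, nsmul_eq_mul, map_inv₀, conj_trivial]
      field_simp
    rw [← h2, Angle_pow_sum ρ hp hz1 y hy ha hap, map_zero, inner_zero_left]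
  rw [← real_inner_self_eq_norm_sq, Angle_sym ρ hρ hp.ne_zero g hg,
    Angle_avg_fix ρ hp.ne_zero g _ (Angle_fix_avg ρ g hg y), real_inner_comm, Angle_avg,
    inner_smul_left, sum_inner, Finset.sum_eq_single 0]
  · rw [pow_zero, Angle_one, real_inner_self_eq_norm_sq]
    simp
  · intro a ha ha0
    exact key a (Nat.pos_of_ne_zero ha0) (Finset.mem_range.1 ha)
  · intro h0
    exact absurd (Finset.mem_range.2 hp.pos) h0

/-- The part fixed by `z`: the two complementary projections commute, so their products are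
nonnegative. -/
theorem Angle_pos (P Q : H →ₗ[ℝ] H) (hP : ∀ x y, inner ℝ (P x) y = inner ℝ x (P y))
    (hQ : ∀ x y, inner ℝ (Q x) y = inner ℝ x (Q y)) (hPP : ∀ x, P (P x) = P x)
    (hQQ : ∀ x, Q (Q x) = Q x) (v : H) (hc : P (Q v) = Q (P v)) :
    0 ≤ inner ℝ (v - P v) (v - Q v) := by
  have h1 : 0 ≤ inner ℝ ((v - Q v) - P (v - Q v)) ((v - Q v) - P (v - Q v)) :=
    real_inner_self_nonneg
  have h2 : inner ℝ ((v - Q v) - P (v - Q v)) ((v - Q v) - P (v - Q v)) =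
      inner ℝ (v - P v) (v - Q v) := by
    have e1 : inner ℝ ((v - Q v) - P (v - Q v)) (P (v - Q v)) = 0 := by
      rw [← hP, map_sub, hPP, sub_self, inner_zero_left]
    have e2 : (v - Q v) - P (v - Q v) = (v - P v) - Q (v - P v) := by
      rw [map_sub, map_sub, hc]; abel
    have e3 : inner ℝ ((v - P v) - Q (v - P v)) (Q v) = 0 := by
      rw [← hQ, map_sub, hQQ, sub_self, inner_zero_left]
    rw [inner_sub_right _ (v - Q v) (P (v - Q v)), e1, sub_zero, e2, inner_sub_right, e3, sub_zero,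
      inner_sub_left, inner_sub_right, hQ]
  rw [← h2]
  exact h1

/-- The real inequality behind the part killed by `P_z`. -/
theorem Angle_real {N s c e : ℝ} (hN : 0 ≤ N) (hs : 0 ≤ s) (he : 0 ≤ e) (he1 : e ≤ 1)
    (hc : 2 * c ≤ e * s) (hsN : s ^ 2 ≤ N * (s + 2 * c)) (h0 : N = 0 → s = 0 ∧ c = 0) :
    0 ≤ 2 * (N - s + c) + e * (2 * N - s) := by
  rcases eq_or_lt_of_le hN with h | h
  · obtain ⟨h1, h2⟩ := h0 h.symm
    rw [← h, h1, h2]; simp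
  · have h1 : s ≤ (1 + e) * N := by
      rcases eq_or_lt_of_le hs with h2 | h2
      · rw [← h2]; positivity
      · have h3 : s ^ 2 ≤ N * ((1 + e) * s) := by nlinarith
        have h4 : s * s ≤ s * ((1 + e) * N) := by nlinarith
        exact le_of_mul_le_mul_left h4 h2
    have h2 : 0 ≤ (2 * N - s) * ((1 + e) * N - s) := by
      apply mul_nonneg <;> nlinarith
    have h3 : 0 ≤ N * (2 * (N - s + c) + e * (2 * N - s)) := by nlinarith
    exact nonneg_of_mul_nonneg_right h3 h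

/-- The part killed by `P_z`. -/
theorem Angle_zero (ρ : G →* (H →ₗ[ℝ] H)) (hρ : ∀ g v, ‖ρ g v‖ = ‖v‖) {p : ℕ} (hp : p.Prime)
    {z g h : G} (hz : z = g * h * g⁻¹ * h⁻¹) (hzg : Commute z g) (hzh : Commute z h)
    (hg : g ^ p = 1) (hh : h ^ p = 1) (hz1 : z ^ p = 1) (v : H) (hv : avg ρ p z v = 0) :
    0 ≤ 2 * inner ℝ (v - avg ρ p g v) (v - avg ρ p h v)
      + (Real.sqrt p)⁻¹ * (‖v - avg ρ p g v‖ ^ 2 + ‖v - avg ρ p h v‖ ^ 2) := by
  have hp0 := hp.ne_zero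
  set P := avg ρ p g with hPdef
  set Q := avg ρ p h with hQdef
  have hP : ∀ x y, inner ℝ (P x) y = inner ℝ x (P y) := Angle_sym ρ hρ hp0 g hg
  have hQ : ∀ x y, inner ℝ (Q x) y = inner ℝ x (Q y) := Angle_sym ρ hρ hp0 h hh
  have hPP : ∀ x, P (P x) = P x := fun x => Angle_avg_fix ρ hp0 g _ (Angle_fix_avg ρ g hg x)
  have hQQ : ∀ x, Q (Q x) = Q x := fun x => Angle_avg_fix ρ hp0 h _ (Angle_fix_avg ρ h hh x)
  have huu : inner ℝ (P v) (P v) = inner ℝ (P v) v := by rw [hP v, hPP, ← hP]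
  have hww : inner ℝ (Q v) (Q v) = inner ℝ (Q v) v := by rw [hQ v, hQQ, ← hQ]
  have hPw : ‖P (Q v)‖ ^ 2 = (p : ℝ)⁻¹ * ‖Q v‖ ^ 2 := by
    refine Angle_norm ρ hρ hp hz hzg hzh hg hz1 (Q v) ?_ (Angle_fix_avg ρ h hh v)
    rw [hQdef, Angle_comm_avg' ρ h z hzh, hv, map_zero]
  have hsq : (0 : ℝ) ≤ Real.sqrt p := Real.sqrt_nonneg _
  have he1 : (Real.sqrt p)⁻¹ ≤ 1 := by
    apply inv_le_one_of_one_le₀
    rw [Real.one_le_sqrt]
    exact_mod_cast hp.one_lt.le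
  have hPw' : ‖P (Q v)‖ = (Real.sqrt p)⁻¹ * ‖Q v‖ := by
    have h1 : ‖P (Q v)‖ ^ 2 = ((Real.sqrt p)⁻¹ * ‖Q v‖) ^ 2 := by
      rw [hPw, mul_pow, inv_pow, Real.sq_sqrt (by positivity)]
    exact (pow_left_inj₀ (norm_nonneg _) (by positivity) two_ne_zero).1 h1
  have hc : inner ℝ (P v) (Q v) ≤ (Real.sqrt p)⁻¹ * (‖P v‖ * ‖Q v‖) := by
    have h1 : inner ℝ (P v) (Q v) = inner ℝ (P v) (P (Q v)) := by rw [← hP, hPP]
    rw [h1]
    calc inner ℝ (P v) (P (Q v)) ≤ ‖P v‖ * ‖P (Q v)‖ := real_inner_le_norm _ _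
      _ = (Real.sqrt p)⁻¹ * (‖P v‖ * ‖Q v‖) := by rw [hPw']; ring
  have hsum : (‖P v‖ ^ 2 + ‖Q v‖ ^ 2) ^ 2 ≤
      ‖v‖ ^ 2 * ((‖P v‖ ^ 2 + ‖Q v‖ ^ 2) + 2 * inner ℝ (P v) (Q v)) := by
    have h1 : ‖P v‖ ^ 2 + ‖Q v‖ ^ 2 = inner ℝ (P v + Q v) v := by
      rw [← real_inner_self_eq_norm_sq, ← real_inner_self_eq_norm_sq, huu, hww, inner_add_left]
    have h2 : (‖P v‖ ^ 2 + ‖Q v‖ ^ 2) + 2 * inner ℝ (P v) (Q v) = ‖P v + Q v‖ ^ 2 := by
      rw [norm_add_sq_real]; ring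
    rw [h2, h1]
    have h3 := abs_real_inner_le_norm (P v + Q v) v
    calc (inner ℝ (P v + Q v) v) ^ 2 = |inner ℝ (P v + Q v) v| ^ 2 := (sq_abs _).symm
      _ ≤ (‖P v + Q v‖ * ‖v‖) ^ 2 := pow_le_pow_left₀ (abs_nonneg _) h3 2
      _ = ‖v‖ ^ 2 * ‖P v + Q v‖ ^ 2 := by ring
  have hmain := Angle_real (N := ‖v‖ ^ 2) (s := ‖P v‖ ^ 2 + ‖Q v‖ ^ 2)
    (c := inner ℝ (P v) (Q v)) (e := (Real.sqrt p)⁻¹) (by positivity) (by positivity)
    (by positivity) he1 (by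
      have h1 : 2 * (‖P v‖ * ‖Q v‖) ≤ ‖P v‖ ^ 2 + ‖Q v‖ ^ 2 := by
        nlinarith [sq_nonneg (‖P v‖ - ‖Q v‖)]
      have h2 : (0 : ℝ) ≤ (Real.sqrt p)⁻¹ := by positivity
      nlinarith [mul_le_mul_of_nonneg_left h1 h2]) hsum (by
      intro h0
      have : v = 0 := by
        have := pow_eq_zero_iff (two_ne_zero) |>.1 h0
        exact norm_eq_zero.1 this
      subst this
      simp)
  have e1 : inner ℝ (v - P v) (v - Q v) =
      ‖v‖ ^ 2 - (‖P v‖ ^ 2 + ‖Q v‖ ^ 2) + inner ℝ (P v) (Q v) := by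
    rw [inner_sub_left, inner_sub_right, inner_sub_right, ← real_inner_self_eq_norm_sq v,
      ← real_inner_self_eq_norm_sq (P v), ← real_inner_self_eq_norm_sq (Q v), huu, hww,
      real_inner_comm (Q v) v]
    ring
  have e2 : ‖v - P v‖ ^ 2 = ‖v‖ ^ 2 - ‖P v‖ ^ 2 := by
    rw [← real_inner_self_eq_norm_sq, inner_sub_left, inner_sub_right, inner_sub_right,
      ← real_inner_self_eq_norm_sq v, ← real_inner_self_eq_norm_sq (P v), huu,
      real_inner_comm (P v) v]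
    ring
  have e3 : ‖v - Q v‖ ^ 2 = ‖v‖ ^ 2 - ‖Q v‖ ^ 2 := by
    rw [← real_inner_self_eq_norm_sq, inner_sub_left, inner_sub_right, inner_sub_right,
      ← real_inner_self_eq_norm_sq v, ← real_inner_self_eq_norm_sq (Q v), hww,
      real_inner_comm (Q v) v]
    ring
  rw [e1, e2, e3]
  nlinarith [hmain]

theorem angle {G : Type*} [Group G] {H : Type*} [NormedAddCommGroup H] [InnerProductSpace ℝ H]
    (ρ : G →* (H →ₗ[ℝ] H)) (hρ : ∀ g v, ‖ρ g v‖ = ‖v‖) {p : ℕ} (hp : p.Prime) {g h : G}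
    (hg : g ^ p = 1) (hh : h ^ p = 1) (hz : (g * h * g⁻¹ * h⁻¹) ^ p = 1)
    (hzg : Commute (g * h * g⁻¹ * h⁻¹) g) (hzh : Commute (g * h * g⁻¹ * h⁻¹) h) (v : H) :
    0 ≤ 2 * inner ℝ (v - avg ρ p g v) (v - avg ρ p h v)
      + (Real.sqrt p)⁻¹ * (‖v - avg ρ p g v‖ ^ 2 + ‖v - avg ρ p h v‖ ^ 2) := by
  have hp0 := hp.ne_zero
  obtain ⟨z, hzd⟩ : ∃ z, z = g * h * g⁻¹ * h⁻¹ := ⟨_, rfl⟩
  rw [← hzd] at hz hzg hzh
  have hZ : ∀ x y, inner ℝ (avg ρ p z x) y = inner ℝ x (avg ρ p z y) :=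
    Angle_sym ρ hρ hp0 z hz
  have hZZ : ∀ x, avg ρ p z (avg ρ p z x) = avg ρ p z x :=
    fun x => Angle_avg_fix ρ hp0 z _ (Angle_fix_avg ρ z hz x)
  have hP : ∀ x y, inner ℝ (avg ρ p g x) y = inner ℝ x (avg ρ p g y) := Angle_sym ρ hρ hp0 g hg
  have hQ : ∀ x y, inner ℝ (avg ρ p h x) y = inner ℝ x (avg ρ p h y) := Angle_sym ρ hρ hp0 h hh
  have hPP : ∀ x, avg ρ p g (avg ρ p g x) = avg ρ p g x :=
    fun x => Angle_avg_fix ρ hp0 g _ (Angle_fix_avg ρ g hg x)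
  have hQQ : ∀ x, avg ρ p h (avg ρ p h x) = avg ρ p h x :=
    fun x => Angle_avg_fix ρ hp0 h _ (Angle_fix_avg ρ h hh x)
  obtain ⟨a, ha⟩ : ∃ a, a = avg ρ p z v := ⟨_, rfl⟩
  obtain ⟨b, hb⟩ : ∃ b, b = v - avg ρ p z v := ⟨_, rfl⟩
  have hv : v = a + b := by rw [ha, hb]; abel
  have haz : avg ρ p z a = a := by rw [ha, hZZ]
  have hbz : avg ρ p z b = 0 := by rw [hb, map_sub, hZZ, sub_self]
  have h1 : 0 ≤ inner ℝ (a - avg ρ p g a) (a - avg ρ p h a) := by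
    refine Angle_pos _ _ hP hQ hPP hQQ a (Angle_comm_fixed ρ hzd hzg hzh a ?_)
    rw [ha, Angle_fix_avg ρ z hz]
  have h2 := Angle_zero ρ hρ hp hzd hzg hzh hg hh hz b hbz
  have orth : ∀ x y, avg ρ p z x = x → avg ρ p z y = 0 → inner ℝ x y = 0 := by
    intro x y hx hy
    rw [← hx, hZ, hy, inner_zero_right]
  have zg : ∀ x, avg ρ p z (avg ρ p g x) = avg ρ p g (avg ρ p z x) := Angle_comm_avg' ρ g z hzg
  have zh : ∀ x, avg ρ p z (avg ρ p h x) = avg ρ p h (avg ρ p z x) := Angle_comm_avg' ρ h z hzh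
  have ag : avg ρ p z (a - avg ρ p g a) = a - avg ρ p g a := by rw [map_sub, zg, haz]
  have ah : avg ρ p z (a - avg ρ p h a) = a - avg ρ p h a := by rw [map_sub, zh, haz]
  have bg : avg ρ p z (b - avg ρ p g b) = 0 := by rw [map_sub, zg, hbz, map_zero, sub_zero]
  have bh : avg ρ p z (b - avg ρ p h b) = 0 := by rw [map_sub, zh, hbz, map_zero, sub_zero]
  have sg : v - avg ρ p g v = (a - avg ρ p g a) + (b - avg ρ p g b) := by
    rw [hv, map_add]; abel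
  have sh : v - avg ρ p h v = (a - avg ρ p h a) + (b - avg ρ p h b) := by
    rw [hv, map_add]; abel
  have e1 : inner ℝ (v - avg ρ p g v) (v - avg ρ p h v) =
      inner ℝ (a - avg ρ p g a) (a - avg ρ p h a) + inner ℝ (b - avg ρ p g b) (b - avg ρ p h b) := by
    rw [sg, sh, inner_add_left, inner_add_right, inner_add_right, orth _ _ ag bh,
      real_inner_comm (a - avg ρ p h a) (b - avg ρ p g b), orth _ _ ah bg]
    ring
  have e2 : ‖v - avg ρ p g v‖ ^ 2 = ‖a - avg ρ p g a‖ ^ 2 + ‖b - avg ρ p g b‖ ^ 2 := by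
    rw [sg, norm_add_sq_real, orth _ _ ag bg]; ring
  have e3 : ‖v - avg ρ p h v‖ ^ 2 = ‖a - avg ρ p h a‖ ^ 2 + ‖b - avg ρ p h b‖ ^ 2 := by
    rw [sh, norm_add_sq_real, orth _ _ ah bh]; ring
  rw [e1, e2, e3]
  have h3 : (0 : ℝ) ≤ (Real.sqrt p)⁻¹ * (‖a - avg ρ p g a‖ ^ 2 + ‖a - avg ρ p h a‖ ^ 2) := by
    positivity
  nlinarith

end Angle

end GSR
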