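import Pool.Agent.GSR.Defs

/-!
# Module F: a finite version of measurable recurrence (compactness of invariant measures)
-/

set_option autoImplicit false

namespace GSR

open scoped ENNReal Topology
open MeasureTheory Helper96.Recurrence Filter

namespace CompactAux

/-- right shift on the Bernoulli space. -/
def sh {G : Type} [Group G] (g : G) (ξ : G → Bool) : G → Bool := fun h => ξ (h * g)

theorem continuous_sh {G : Type} [Group G] (g : G) : Continuous (sh g) :=
  continuous_pi fun h => continuous_apply (A := fun _ : G => Bool) (h * g)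

theorem measurable_sh {G : Type} [Group G] (g : G) : Measurable (sh g) :=
  measurable_pi_lambda _ fun h => measurable_pi_apply (h * g)

/-- the set of configurations with value `true` at `g`. -/
def cyl {G : Type} (g : G) : Set (G → Bool) := {ξ | ξ g = true}

theorem isClopen_cyl {G : Type} (g : G) : IsClopen (cyl g) :=
  (isClopen_discrete {true}).preimage (continuous_apply (A := fun _ : G => Bool) g)

theorem measurableSet_cyl {G : Type} (g : G) : MeasurableSet (cyl g) :=
  (measurable_pi_apply g : Measurable fun ξ : G → Bool => ξ g) (measurableSet_singleton true)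

/-- passing to the Bernoulli space. -/
theorem exists_shift_measure.{v} {G : Type} [Group G] (R' : Set G) (n : ℕ)
    (h : ¬ RecAt.{0, v} G R' n) :
    ∃ ν : ProbabilityMeasure (G → Bool), (∀ g : G, (ν : Measure (G → Bool)).map (sh g) = ν) ∧
      (n : ℝ≥0∞)⁻¹ ≤ (ν : Measure (G → Bool)) (cyl 1) ∧
      ∀ g ∈ R', g ≠ 1 → (ν : Measure (G → Bool)) (cyl 1 ∩ cyl g) = 0 := by
  classical
  unfold RecAt at h
  push Not at h
  obtain ⟨X, _, μ, _, _, hmp, A, hA, hμA, hR⟩ := h
  set φ : X → G → Bool := fun x h => decide (h • x ∈ A) with hφ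
  have hφm : Measurable φ := by
    refine measurable_pi_lambda _ fun h => ?_
    refine measurable_to_bool ?_
    have h1 : (fun x : X => φ x h) ⁻¹' {true} = (fun x : X => h • x) ⁻¹' A := by
      ext x
      simp [hφ]
    rw [h1]
    exact (hmp h).measurable hA
  have hequiv : ∀ (g : G) (x : X), sh g (φ x) = φ (g • x) := by
    intro g x
    funext h
    simp [sh, hφ, mul_smul]
  have hpre : ∀ g : G, φ ⁻¹' cyl g = (fun x : X => g • x) ⁻¹' A := by
    intro g
    ext x
    simp [cyl, hφ]
  refine ⟨⟨μ.map φ, Measure.isProbabilityMeasure_map hφm.aemeasurable⟩, ?_, ?_, ?_⟩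
  · intro g
    show (μ.map φ).map (sh g) = μ.map φ
    rw [Measure.map_map (measurable_sh g) hφm]
    have h1 : sh g ∘ φ = φ ∘ (fun x : X => g • x) := by
      funext x
      exact hequiv g x
    rw [h1, ← Measure.map_map hφm (hmp g).measurable, (hmp g).map_eq]
  · show (n : ℝ≥0∞)⁻¹ ≤ μ.map φ (cyl 1)
    rw [Measure.map_apply hφm (measurableSet_cyl 1), hpre]
    simpa using hμA
  · intro g hg hg1
    show μ.map φ (cyl 1 ∩ cyl g) = 0
    rw [Measure.map_apply hφm ((measurableSet_cyl 1).inter (measurableSet_cyl g)),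
      Set.preimage_inter, hpre, hpre]
    have h1 := hR g hg hg1
    simpa using h1

end CompactAux

open CompactAux in
theorem exists_finite_recAt.{v} {G : Type} [Group G] [Countable G] (R : Set G)
    (hR : IsMeasurablyRecurrent.{0, v} G R) {n : ℕ} (hn : 0 < n) :
    ∃ R' : Finset G, (R' : Set G) ⊆ R ∧ RecAt.{0, v} G (R' : Set G) n := by
  classical
  by_contra hcon
  push Not at hcon
  have h1 : ∀ F : Finset G, ∃ ν : ProbabilityMeasure (G → Bool),
      (∀ g : G, (ν : Measure (G → Bool)).map (sh g) = ν) ∧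
      (n : ℝ≥0∞)⁻¹ ≤ (ν : Measure (G → Bool)) (cyl 1) ∧
      ∀ g ∈ F, g ∈ R → g ≠ 1 → (ν : Measure (G → Bool)) (cyl 1 ∩ cyl g) = 0 := by
    intro F
    obtain ⟨ν, h2, h3, h4⟩ := exists_shift_measure ((F.filter (· ∈ R) : Finset G) : Set G) n
      (hcon (F.filter (· ∈ R)) (by intro g hg; simpa using (Finset.mem_filter.1 hg).2))
    refine ⟨ν, h2, h3, fun g hg hgR hg1 => h4 g ?_ hg1⟩
    simp [hg, hgR]
  choose N hN1 hN2 hN3 using h1
  -- an ultrafilter on the directed set of finite subsets
  let U : Ultrafilter (Finset G) := Ultrafilter.of atTop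
  have hU : (U : Filter (Finset G)) ≤ atTop := Ultrafilter.of_le atTop
  obtain ⟨ν, -, hν⟩ := (isCompact_univ (X := ProbabilityMeasure (G → Bool))).ultrafilter_le_nhds
    (U.map N) (by simp)
  have hlim : Tendsto N (U : Filter (Finset G)) (𝓝 ν) := hν
  have hclopen : ∀ E : Set (G → Bool), IsClopen E →
      Tendsto (fun F => (N F : Measure (G → Bool)) E) (U : Filter (Finset G))
        (𝓝 ((ν : Measure (G → Bool)) E)) := by
    intro E hE
    refine ProbabilityMeasure.tendsto_measure_of_null_frontier_of_tendsto' hlim ?_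
    rw [hE.frontier_eq]
    simp
  have hpos : 0 < (ν : Measure (G → Bool)) (cyl 1) := by
    have h2 : (n : ℝ≥0∞)⁻¹ ≤ (ν : Measure (G → Bool)) (cyl 1) :=
      ge_of_tendsto' (hclopen _ (isClopen_cyl 1)) hN2
    refine lt_of_lt_of_le ?_ h2
    simp
  have hzero : ∀ g ∈ R, g ≠ 1 → (ν : Measure (G → Bool)) (cyl 1 ∩ cyl g) = 0 := by
    intro g hg hg1
    have h2 := hclopen _ ((isClopen_cyl 1).inter (isClopen_cyl g))
    have h3 : ∀ᶠ F in (U : Filter (Finset G)),
        (N F : Measure (G → Bool)) (cyl 1 ∩ cyl g) = 0 := by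
      have h4 : ∀ᶠ F in (atTop : Filter (Finset G)), g ∈ F := by
        filter_upwards [eventually_ge_atTop ({g} : Finset G)] with F hF
        exact hF (Finset.mem_singleton_self g)
      filter_upwards [hU h4] with F hF
      exact hN3 F g hF hg hg1
    exact tendsto_nhds_unique h2 ((tendsto_congr' h3).2 tendsto_const_nhds)
  have hinv : ∀ g : G, (ν : Measure (G → Bool)).map (sh g) = ν := by
    intro g
    have h2 := ProbabilityMeasure.tendsto_map_of_tendsto_of_continuous N ν hlim (continuous_sh g)
    have h3 : (fun F => (N F).map (continuous_sh g).measurable.aemeasurable) = N := by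
      funext F
      apply ProbabilityMeasure.toMeasure_injective
      exact hN1 F g
    rw [h3] at h2
    have h4 := tendsto_nhds_unique h2 hlim
    have h5 := congrArg ProbabilityMeasure.toMeasure h4
    exact h5
  -- transport to the universe of the hypothesis
  let act : MulAction G (ULift.{v} (G → Bool)) :=
    { smul := fun g x => ⟨sh g x.down⟩
      one_smul := by
        rintro ⟨x⟩
        show ULift.up (sh 1 x) = ULift.up x
        congr 1
        funext h
        simp [sh]
      mul_smul := by
        rintro g g' ⟨x⟩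
        show ULift.up (sh (g * g') x) = ULift.up (sh g (sh g' x))
        congr 1
        funext h
        simp [sh, mul_assoc] }
  have hup : Measurable (ULift.up : (G → Bool) → ULift.{v} (G → Bool)) :=
    MeasurableEquiv.ulift.symm.measurable
  have hdown : Measurable (ULift.down : ULift.{v} (G → Bool) → (G → Bool)) :=
    MeasurableEquiv.ulift.measurable
  have hprob : IsProbabilityMeasure ((ν : Measure (G → Bool)).map
      (ULift.up : (G → Bool) → ULift.{v} (G → Bool))) :=
    Measure.isProbabilityMeasure_map hup.aemeasurable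
  have hmeas : ∀ g : G, Measurable
      (fun x : ULift.{v} (G → Bool) => (⟨sh g x.down⟩ : ULift.{v} (G → Bool))) :=
    fun g => hup.comp ((measurable_sh g).comp hdown)
  obtain ⟨g, hgR, hg1, hgpos⟩ := @hR (ULift.{v} (G → Bool)) _
    ((ν : Measure (G → Bool)).map ULift.up) hprob act
    (fun g => ⟨hmeas g, by
      show Measure.map (fun x : ULift.{v} (G → Bool) =>
        (⟨sh g x.down⟩ : ULift.{v} (G → Bool))) _ = _
      rw [Measure.map_map (hmeas g) hup]
      have h2 : ((fun x : ULift.{v} (G → Bool) => (⟨sh g x.down⟩ : ULift.{v} (G → Bool))) ∘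
          ULift.up) = ULift.up ∘ sh g := rfl
      rw [h2, ← Measure.map_map hup (measurable_sh g), hinv g]⟩)
    (ULift.down ⁻¹' cyl 1) (hdown (measurableSet_cyl 1)) (by
      rw [Measure.map_apply hup (hdown (measurableSet_cyl 1))]
      exact hpos)
  have h2 : (ULift.down ⁻¹' cyl 1 ∩ (fun x : ULift.{v} (G → Bool) =>
      (⟨sh g x.down⟩ : ULift.{v} (G → Bool))) ⁻¹' (ULift.down ⁻¹' cyl 1)) =
      ULift.down ⁻¹' (cyl 1 ∩ cyl g) := by
    ext ⟨x⟩
    simp [cyl, sh]
  have h3 : 0 < ((ν : Measure (G → Bool)).map (ULift.up : (G → Bool) → ULift.{v} (G → Bool)))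
      (ULift.down ⁻¹' (cyl 1 ∩ cyl g)) := by
    rw [← h2]
    exact hgpos
  rw [Measure.map_apply hup
    (hdown ((measurableSet_cyl 1).inter (measurableSet_cyl g)))] at h3
  have h4 := hzero g hgR hg1
  have h5 : (ULift.up : (G → Bool) → ULift.{v} (G → Bool)) ⁻¹'
      (ULift.down ⁻¹' (cyl 1 ∩ cyl g)) = cyl 1 ∩ cyl g := rfl
  rw [h5, h4] at h3
  exact lt_irrefl _ h3

end GSR
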