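import Pool.Agent.GSR.Recur
import Pool.Agent.GSR.Compact

/-!
# Sparse, bounded and difference-rich recurrent sets are lightly recurrent
-/

set_option autoImplicit false

namespace GSR

open scoped Pointwise ENNReal
open MeasureTheory Helper96.Recurrence

universe u v w

variable {G : Type} [Group G] {D : ℕ → Subgroup G} {t : ℝ}

/-! ### Measurably recurrent sets inside finite index subgroups -/

theorem mr_inter {R : Set G} (hR : IsMeasurablyRecurrent.{0, v} G R) (H : Subgroup G)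
    [H.FiniteIndex] : IsMeasurablyRecurrent.{0, v} G {x | x ∈ R ∧ x ∈ H ∧ x ≠ 1} := by
  intro X _ μ _ _ hμ A hA hpos
  let Y := G ⧸ H
  have hYfin : Finite Y := Subgroup.finite_quotient_of_finiteIndex
  let _ : MeasurableSpace Y := ⊤
  have hdisc : DiscreteMeasurableSpace Y := ⟨fun _ => trivial⟩
  have hprob := unif_prob Y
  let y₀ : Y := ((1 : G) : G ⧸ H)
  have hy₀ : 0 < unif Y {y₀} := by
    rw [unif, Measure.smul_apply, Measure.count_singleton, smul_eq_mul, mul_one,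
      ENNReal.inv_pos]
    exact ENNReal.natCast_ne_top _
  have hpres : ∀ g : G, MeasurePreserving (fun x : X × Y => g • x) (μ.prod (unif Y))
      (μ.prod (unif Y)) := by
    intro g
    exact (hμ g).prod (unif_pres (X := Y) g)
  have hmeas : MeasurableSet (A ×ˢ ({y₀} : Set Y)) := hA.prod MeasurableSet.of_discrete
  have hpos' : 0 < (μ.prod (unif Y)) (A ×ˢ ({y₀} : Set Y)) := by
    rw [Measure.prod_prod]
    exact ENNReal.mul_pos hpos.ne' hy₀.ne'
  obtain ⟨g, hg, hg1, hgpos⟩ := hR (X × Y) (μ.prod (unif Y)) hpres _ hmeas hpos'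
  have hgH : g ∈ H := by
    have hne : ((A ×ˢ ({y₀} : Set Y))
        ∩ (fun x : X × Y => g • x) ⁻¹' (A ×ˢ ({y₀} : Set Y))).Nonempty := by
      by_contra hemp
      rw [Set.not_nonempty_iff_eq_empty] at hemp
      rw [hemp, measure_empty] at hgpos
      exact lt_irrefl _ hgpos
    obtain ⟨⟨x, y⟩, hx1, hx2⟩ := hne
    have h1 : y = y₀ := hx1.2
    have h2 : g • y = y₀ := hx2.2
    rw [h1] at h2
    have h3 : ((g * 1 : G) : G ⧸ H) = ((1 : G) : G ⧸ H) := h2
    rw [QuotientGroup.eq, mul_one, mul_one] at h3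
    exact (H.inv_mem_iff).1 h3
  refine ⟨g, ⟨hg, hgH, hg1⟩, hg1, ?_⟩
  have hsub : (A ×ˢ ({y₀} : Set Y)) ∩ (fun x : X × Y => g • x) ⁻¹' (A ×ˢ ({y₀} : Set Y))
      ⊆ (A ∩ (fun x => g • x) ⁻¹' A) ×ˢ (Set.univ : Set Y) := by
    rintro ⟨x, y⟩ ⟨hx1, hx2⟩
    exact ⟨⟨hx1.1, hx2.1⟩, trivial⟩
  have h1 := hgpos.trans_le (measure_mono hsub)
  rw [Measure.prod_prod, measure_univ, mul_one] at h1
  exact h1

/-- Measurably recurrent sets of finite weight are lightly recurrent. -/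
theorem LightFinite.of_summable [Countable G] (h : LightFinite G D t) {R : Set G}
    (hR : IsMeasurablyRecurrent.{0, v} G R) (s : G → ℕ) (hs : ∀ x ∈ R, x ∈ D (s x))
    (hsum : Summable fun x : R => t ^ s x) : LightlyRecurrent.{v} D t R := by
  classical
  intro n hn
  have hn' : (0 : ℝ) < n := by exact_mod_cast hn
  -- a finite set outside of which the weight is small
  have htend := hsum.tendsto_cofinite_zero
  obtain ⟨T, hT⟩ := (summable_iff_vanishing_norm.1 hsum) (1 / n) (by positivity)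
  obtain ⟨M, hM⟩ := h.exists_level (Q := Subtype.val '' (T : Set R)) (T.finite_toSet.image _)
  have := h.finiteIndex M
  obtain ⟨R', hR'sub, hR'⟩ := exists_finite_recAt _ (mr_inter hR (D M)) hn
  refine ⟨R', s, fun x hx => (hR'sub hx).1, fun x hx => hs x (hR'sub hx).1, ?_, hR'⟩
  -- estimate the weight
  let R'' : Finset R := R'.attach.map ⟨fun x => ⟨x.1, (hR'sub x.2).1⟩, by
    intro x y hxy
    apply Subtype.ext
    exact congrArg (fun z : R => (z : G)) hxy⟩
  have hdisj : Disjoint R'' T := by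
    rw [Finset.disjoint_left]
    intro x hx hxT
    rw [Finset.mem_map] at hx
    obtain ⟨y, _, rfl⟩ := hx
    have h1 := hR'sub y.2
    exact h1.2.2 (hM _ ⟨_, hxT, rfl⟩ h1.2.1)
  have h1 := hT R'' hdisj
  have h2 : ∑ x ∈ R'', t ^ s (x : G) = ∑ x ∈ R', t ^ s x := by
    rw [Finset.sum_map]
    exact Finset.sum_attach R' (fun x => t ^ s x)
  rw [h2, Real.norm_of_nonneg (Finset.sum_nonneg fun x _ => pow_nonneg h.pos.le _)] at h1
  rw [lt_div_iff₀ hn'] at h1
  linarith

/-- Bounded recurrence: for every `n ≥ 1` there is `k` such that inside every finite index subgroup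
`R` has a part of at most `k` elements which is recurrent at level `1 / n`. -/
def BoundedlyRecurrent (G : Type) [Group G] (R : Set G) : Prop :=
  ∀ n : ℕ, 0 < n → ∃ k : ℕ, ∀ H : Subgroup G, H.FiniteIndex →
    ∃ R' : Finset G, (∀ x ∈ R', x ∈ R ∧ x ∈ H) ∧ R'.card ≤ k ∧ RecAt.{0, v} G (R' : Set G) n

theorem LightFinite.of_bounded (h : LightFinite G D t) {R : Set G}
    (hR : BoundedlyRecurrent.{v} G R) : LightlyRecurrent.{v} D t R := by
  intro n hn
  obtain ⟨k, hk⟩ := hR n hn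
  have h1 : Filter.Tendsto (fun M : ℕ => (n : ℝ) * ((k : ℝ) * t ^ M)) Filter.atTop
      (nhds ((n : ℝ) * ((k : ℝ) * 0))) :=
    ((tendsto_pow_atTop_nhds_zero_of_lt_one h.pos.le h.lt_one).const_mul _).const_mul _
  rw [mul_zero, mul_zero] at h1
  obtain ⟨M, hM⟩ := (h1.eventually (gt_mem_nhds one_pos)).exists
  obtain ⟨R', hR', hcard, hrec⟩ := hk (D M) (h.finiteIndex M)
  refine ⟨R', fun _ => M, fun x hx => (hR' x hx).1, fun x hx => (hR' x hx).2, ?_, hrec⟩
  refine lt_of_le_of_lt ?_ hM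
  rw [Finset.sum_const, nsmul_eq_mul]
  have h2 : (R'.card : ℝ) ≤ k := by exact_mod_cast hcard
  have h3 : (0 : ℝ) ≤ t ^ M := pow_nonneg h.pos.le _
  have h4 : (0 : ℝ) ≤ n := Nat.cast_nonneg _
  gcongr

/-- The differences of `n + 1` elements are recurrent at level `1 / n`. -/
theorem recAt_differences (G : Type) [Group G] (E : Finset G) (R' : Set G) {n : ℕ} (hn : 0 < n)
    (hE : n < E.card) (hR' : ∀ a ∈ E, ∀ b ∈ E, a ≠ b → a⁻¹ * b ∈ R') :
    RecAt.{0, v} G R' n := by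
  intro X _ μ _ _ hμ A hA hnA
  by_contra hcon
  push Not at hcon
  have hmeas : ∀ e : G, MeasurableSet ((fun x : X => e⁻¹ • x) ⁻¹' A) :=
    fun e => (hμ e⁻¹).measurable hA
  have hval : ∀ e : G, μ ((fun x : X => e⁻¹ • x) ⁻¹' A) = μ A :=
    fun e => (hμ e⁻¹).measure_preimage hA.nullMeasurableSet
  have hdisj : (E : Set G).Pairwise (Function.onFun (AEDisjoint μ)
      fun e => (fun x : X => e⁻¹ • x) ⁻¹' A) := by
    intro a ha b hb hab
    show μ (((fun x : X => a⁻¹ • x) ⁻¹' A) ∩ ((fun x : X => b⁻¹ • x) ⁻¹' A)) = 0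
    have h1 := hcon (b⁻¹ * a) (hR' b hb a ha hab.symm) (by
      intro h
      apply hab
      exact (inv_mul_eq_one.1 h).symm)
    have h2 : ((fun x : X => a⁻¹ • x) ⁻¹' A) ∩ ((fun x : X => b⁻¹ • x) ⁻¹' A)
        = (fun x : X => a⁻¹ • x) ⁻¹' (A ∩ (fun x : X => (b⁻¹ * a) • x) ⁻¹' A) := by
      ext x
      simp only [Set.mem_inter_iff, Set.mem_preimage, smul_smul, mul_assoc, mul_inv_cancel,
        mul_one]
    rw [h2, (hμ a⁻¹).measure_preimage
      (hA.inter ((hμ (b⁻¹ * a)).measurable hA)).nullMeasurableSet]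
    exact le_antisymm h1 zero_le
  have hsum : ∑ e ∈ E, μ ((fun x : X => e⁻¹ • x) ⁻¹' A) ≤ 1 := by
    rw [← measure_biUnion_finset₀ hdisj (fun e _ => (hmeas e).nullMeasurableSet)]
    exact prob_le_one
  rw [Finset.sum_congr rfl fun e _ => hval e, Finset.sum_const, nsmul_eq_mul] at hsum
  have h1 : (E.card : ℝ≥0∞) * (n : ℝ≥0∞)⁻¹ ≤ 1 := (mul_le_mul_right hnA _).trans hsum
  have h2 : (E.card : ℝ≥0∞) ≤ n := by
    have h3 := mul_le_mul_left h1 (n : ℝ≥0∞)
    rwa [mul_assoc, ENNReal.inv_mul_cancel (by exact_mod_cast hn.ne') (ENNReal.natCast_ne_top _),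
      mul_one, one_mul] at h3
  have h3 : E.card ≤ n := by exact_mod_cast h2
  omega

/-- Sets containing the differences of arbitrarily large finite sets are boundedly recurrent. -/
theorem bounded_of_differences {R : Set G}
    (hR : ∀ k : ℕ, ∃ E : Finset G, k ≤ E.card ∧ ∀ a ∈ E, ∀ b ∈ E, a ≠ b → a⁻¹ * b ∈ R) :
    BoundedlyRecurrent.{v} G R := by
  classical
  intro n hn
  refine ⟨(n + 1) * (n + 1), ?_⟩
  intro H hH
  obtain ⟨E, hEcard, hE⟩ := hR (n * H.index + 1)
  have hfin : Finite (G ⧸ H) := Subgroup.finite_quotient_of_finiteIndex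
  have := Fintype.ofFinite (G ⧸ H)
  obtain ⟨q, _, hq⟩ := Finset.exists_lt_card_fiber_of_mul_lt_card_of_maps_to
    (s := E) (t := (Finset.univ : Finset (G ⧸ H))) (f := fun x => (x : G ⧸ H)) (n := n)
    (fun _ _ => Finset.mem_univ _) (by
      rw [Finset.card_univ, ← Nat.card_eq_fintype_card]
      have : Nat.card (G ⧸ H) = H.index := rfl
      rw [this, mul_comm]
      omega)
  obtain ⟨E', hE'sub, hE'card⟩ := Finset.exists_subset_card_eq (Nat.succ_le_of_lt hq)
  have hE'E : ∀ a ∈ E', a ∈ E := fun a ha => (Finset.mem_filter.1 (hE'sub ha)).1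
  have hE'q : ∀ a ∈ E', (a : G ⧸ H) = q := fun a ha => (Finset.mem_filter.1 (hE'sub ha)).2
  refine ⟨E'.offDiag.image fun p => p.1⁻¹ * p.2, ?_, ?_, ?_⟩
  · intro x hx
    obtain ⟨⟨a, b⟩, hab, rfl⟩ := Finset.mem_image.1 hx
    rw [Finset.mem_offDiag] at hab
    refine ⟨hE a (hE'E a hab.1) b (hE'E b hab.2.1) hab.2.2, ?_⟩
    exact QuotientGroup.eq.1 ((hE'q a hab.1).trans (hE'q b hab.2.1).symm)
  · refine Finset.card_image_le.trans ?_
    rw [Finset.offDiag_card, hE'card]
    exact Nat.sub_le _ _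
  · apply recAt_differences G E' _ hn
    · rw [hE'card]; exact Nat.lt_succ_self n
    · intro a ha b hb hab
      exact Finset.mem_coe.2 (Finset.mem_image.2
        ⟨(a, b), Finset.mem_offDiag.2 ⟨ha, hb, hab⟩, rfl⟩)

end GSR
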