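import Mathlib
import Pool.Agent.Helper96.RecurrenceDefs

/-!
# Recurrence in a Golod-Shafarevich group (MP_290264_an): common definitions
-/

set_option autoImplicit false

namespace GSR

open scoped Pointwise ENNReal
open MeasureTheory

universe u v

/-! ### Isometric representations and averaging projections (modules A1, A2, A3) -/

section Rep

variable {G : Type*} [Group G] {H : Type*} [NormedAddCommGroup H] [InnerProductSpace ℝ H]

/-- The average of `ρ (g ^ a)`, `0 ≤ a < p`; if `g ^ p = 1` and `ρ` is isometric, this is the
orthogonal projection onto the vectors fixed by `g`. -/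
noncomputable def avg (ρ : G →* (H →ₗ[ℝ] H)) (p : ℕ) (g : G) : H →ₗ[ℝ] H :=
  (p : ℝ)⁻¹ • ∑ a ∈ Finset.range p, ρ (g ^ a)

end Rep

/-! ### The free algebra, graded by word length (module C, D) -/

/-- The free associative algebra on `d` letters over `K`: the monoid algebra of the free monoid. -/
abbrev FA (K : Type*) [Field K] (d : ℕ) := MonoidAlgebra K (FreeMonoid (Fin d))

/-- The homogeneous elements of degree `n` (combinations of words of length `n`). -/
def Hom (K : Type*) [Field K] (d n : ℕ) : Submodule K (FA K d) where
  carrier := {f | ∀ w, f.coeff w ≠ 0 → FreeMonoid.length w = n}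
  add_mem' := by
    intro f g hf hg w hw
    by_cases h : f.coeff w = 0
    · refine hg w ?_
      intro h'
      apply hw
      simp [h, h']
    · exact hf w h
  zero_mem' := by
    intro w hw
    simp at hw
  smul_mem' := by
    intro c f hf w hw
    refine hf w ?_
    intro h
    apply hw
    simp [h]

/-- The combinations of words of length at least `n`. -/
def Fil (K : Type*) [Field K] (d n : ℕ) : Submodule K (FA K d) where
  carrier := {f | ∀ w, f.coeff w ≠ 0 → n ≤ FreeMonoid.length w}
  add_mem' := by
    intro f g hf hg w hw
    by_cases h : f.coeff w = 0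
    · refine hg w ?_
      intro h'
      apply hw
      simp [h, h']
    · exact hf w h
  zero_mem' := by
    intro w hw
    simp at hw
  smul_mem' := by
    intro c f hf w hw
    refine hf w ?_
    intro h
    apply hw
    simp [h]

/-- The two-sided ideal generated by the `ρ i`, as a subspace: the span of all `u * ρ i * v`,
`u`, `v` words. -/
noncomputable def relSpan {K : Type*} [Field K] {d : ℕ} {ι : Type*} (ρ : ι → FA K d) : Submodule K (FA K d) :=
  Submodule.span K {x | ∃ (i : ι) (u v : FreeMonoid (Fin d)),
    x = MonoidAlgebra.of K _ u * ρ i * MonoidAlgebra.of K _ v}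

/-! ### Recurrence at a given level (modules E, F) -/

/-- `R'` is recurrent at level `1/n`: for every measure-preserving action on a probability space
and every measurable `A` with `μ A ≥ 1/n`, some `g ∈ R'`, `g ≠ 1`, satisfies
`μ (A ∩ T_g⁻¹ A) > 0`. -/
def RecAt (G : Type u) [Group G] (R' : Set G) (n : ℕ) : Prop :=
  ∀ (X : Type v) [MeasurableSpace X] (μ : Measure X) [IsProbabilityMeasure μ] [MulAction G X],
    (∀ g : G, MeasurePreserving (fun x : X => g • x) μ μ) →
    ∀ A : Set X, MeasurableSet A → (n : ℝ≥0∞)⁻¹ ≤ μ A →
    ∃ g ∈ R', g ≠ 1 ∧ 0 < μ (A ∩ (fun x => g • x) ⁻¹' A)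

end GSR
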