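import Pool.Agent.GSR.Gap

/-!
# From a spectral gap to expansion (module A3 of MP_290264_an)
-/

set_option autoImplicit false

namespace GSR

open scoped Pointwise ENNReal

namespace Expand

variable {G : Type*} [Group G]

/-- The real Hilbert space of square summable functions on `G`. -/
abbrev HS (G : Type*) := lp (fun _ : G => ℝ) 2

theorem two_toReal_pos : 0 < (2 : ℝ≥0∞).toReal := by simp

theorem memlp_shift {f : G → ℝ} (hf : Memℓp f 2) (g : G) : Memℓp (fun x => f (g⁻¹ * x)) 2 := by
  rw [memℓp_gen_iff two_toReal_pos] at hf ⊢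
  exact (Equiv.mulLeft g⁻¹).summable_iff.mpr hf

/-- The left regular representation. -/
noncomputable def reg (G : Type*) [Group G] : G →* (HS G →ₗ[ℝ] HS G) where
  toFun g :=
    { toFun := fun f => ⟨fun x => f (g⁻¹ * x), memlp_shift (lp.memℓp f) g⟩
      map_add' := by
        intro f h
        ext x
        rfl
      map_smul' := by
        intro c f
        ext x
        rfl }
  map_one' := by
    ext f x
    simp
  map_mul' := by
    intro a b
    ext f x
    simp [mul_assoc]

@[simp] theorem reg_apply (g : G) (f : HS G) (x : G) : reg G g f x = f (g⁻¹ * x) := rfl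

omit [Group G] in
theorem norm_sq (f : HS G) : ‖f‖ ^ 2 = ∑' x, (f x) ^ 2 := by
  have := lp.norm_rpow_eq_tsum two_toReal_pos f
  simpa using this

omit [Group G] in
theorem summable_sq (f : HS G) : Summable fun x => (f x) ^ 2 := by
  have := (memℓp_gen_iff two_toReal_pos).mp (lp.memℓp f)
  simpa using this

theorem norm_reg (g : G) (f : HS G) : ‖reg G g f‖ = ‖f‖ := by
  have h : ‖reg G g f‖ ^ 2 = ‖f‖ ^ 2 := by
    rw [norm_sq, norm_sq]
    simp only [reg_apply]
    exact (Equiv.mulLeft g⁻¹).tsum_eq (fun x => (f x) ^ 2)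
  exact (pow_left_inj₀ (norm_nonneg _) (norm_nonneg _) two_ne_zero).mp h

open Classical in
omit [Group G] in
theorem memlp_ind (A : Finset G) : Memℓp (fun x : G => if x ∈ A then (1 : ℝ) else 0) 2 := by
  rw [memℓp_gen_iff two_toReal_pos]
  refine summable_of_hasFiniteSupport (A.finite_toSet.subset ?_)
  intro x hx
  by_contra hxA
  simp at hxA
  simp [hxA] at hx

open Classical in
/-- The indicator of a finite set. -/
noncomputable def ind (A : Finset G) : HS G :=
  ⟨fun x => if x ∈ A then 1 else 0, memlp_ind A⟩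

open Classical in
@[simp] theorem ind_apply (A : Finset G) (x : G) : ind A x = if x ∈ A then 1 else 0 := rfl

theorem norm_ind (A : Finset G) : ‖ind A‖ ^ 2 = A.card := by
  classical
  rw [norm_sq, tsum_eq_sum (s := A)]
  · simp
  · intro x hx
    simp [hx]

/-- If `A` and `g A` are contained in `U` then the indicator of `A` is moved little by `g`. -/
theorem norm_ind_sub_le (A U : Finset G) (g : G) (hA : A ⊆ U)
    (hgA : ∀ x ∈ A, g * x ∈ U) :
    ‖ind A - reg G g (ind A)‖ ^ 2 ≤ 2 * ((U.card : ℝ) - A.card) := by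
  classical
  set A' : Finset G := A.image (fun x => g * x) with hA'
  have hA'U : A' ⊆ U := by
    intro x hx
    rw [hA', Finset.mem_image] at hx
    obtain ⟨y, hy, rfl⟩ := hx
    exact hgA y hy
  have hcard : A'.card = A.card := Finset.card_image_of_injective _ (mul_right_injective g)
  have hmem : ∀ x, g⁻¹ * x ∈ A ↔ x ∈ A' := by
    intro x
    rw [hA', Finset.mem_image]
    constructor
    · intro h
      exact ⟨_, h, by simp⟩
    · rintro ⟨y, hy, rfl⟩
      simpa using hy
  rw [norm_sq, tsum_eq_sum (s := U)]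
  · calc ∑ x ∈ U, ((ind A - reg G g (ind A) : HS G) x) ^ 2
        ≤ ∑ x ∈ U, ((if x ∈ U \ A' then (1 : ℝ) else 0) + (if x ∈ U \ A then (1 : ℝ) else 0)) := by
          apply Finset.sum_le_sum
          intro x hx
          simp only [lp.coeFn_sub, Pi.sub_apply, ind_apply, reg_apply, hmem, Finset.mem_sdiff, hx,
            true_and]
          by_cases h1 : x ∈ A <;> by_cases h2 : x ∈ A' <;> simp [h1, h2]
      _ = ((U \ A').card : ℝ) + ((U \ A).card : ℝ) := by
          rw [Finset.sum_add_distrib, Finset.sum_ite_mem, Finset.sum_ite_mem,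
            Finset.inter_eq_right.mpr Finset.sdiff_subset,
            Finset.inter_eq_right.mpr Finset.sdiff_subset]
          simp
      _ = 2 * ((U.card : ℝ) - A.card) := by
          rw [Finset.cast_card_sdiff hA'U, Finset.cast_card_sdiff hA, hcard]
          ring
  · intro x hx
    have h1 : x ∉ A := fun h => hx (hA h)
    have h2 : x ∉ A' := fun h => hx (hA'U h)
    simp [h1, hmem, h2]

theorem norm_ind_sub_avg_le (A U : Finset G) (g : G) {p : ℕ} (hp : 0 < p) (hA : A ⊆ U)
    (hgA : ∀ a < p, ∀ x ∈ A, g ^ a * x ∈ U) :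
    ‖ind A - avg (reg G) p g (ind A)‖ ^ 2 ≤ 2 * ((U.card : ℝ) - A.card) := by
  have hp' : (p : ℝ) ≠ 0 := by positivity
  have hUA : (0 : ℝ) ≤ 2 * ((U.card : ℝ) - A.card) := by
    have : (A.card : ℝ) ≤ U.card := by exact_mod_cast Finset.card_le_card hA
    linarith
  have hstep : ∀ a ∈ Finset.range p,
      ‖ind A - reg G (g ^ a) (ind A)‖ ≤ Real.sqrt (2 * ((U.card : ℝ) - A.card)) := by
    intro a ha
    apply Real.le_sqrt_of_sq_le
    exact norm_ind_sub_le A U (g ^ a) hA (hgA a (Finset.mem_range.mp ha))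
  have heq : ind A - avg (reg G) p g (ind A)
      = (p : ℝ)⁻¹ • ∑ a ∈ Finset.range p, (ind A - reg G (g ^ a) (ind A)) := by
    rw [Finset.sum_sub_distrib, smul_sub]
    congr 1
    · simp [← Nat.cast_smul_eq_nsmul ℝ, smul_smul, hp']
    · simp [avg, LinearMap.sum_apply]
  have hle : ‖ind A - avg (reg G) p g (ind A)‖ ≤ Real.sqrt (2 * ((U.card : ℝ) - A.card)) := by
    rw [heq, norm_smul]
    calc ‖(p : ℝ)⁻¹‖ * ‖∑ a ∈ Finset.range p, (ind A - reg G (g ^ a) (ind A))‖
        ≤ ‖(p : ℝ)⁻¹‖ * ∑ a ∈ Finset.range p, ‖ind A - reg G (g ^ a) (ind A)‖ := by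
          gcongr
          exact norm_sum_le _ _
      _ ≤ ‖(p : ℝ)⁻¹‖ * ∑ _a ∈ Finset.range p, Real.sqrt (2 * ((U.card : ℝ) - A.card)) := by
          gcongr with a ha
          exact hstep a ha
      _ = Real.sqrt (2 * ((U.card : ℝ) - A.card)) := by
          simp [hp']
  calc ‖ind A - avg (reg G) p g (ind A)‖ ^ 2
      ≤ (Real.sqrt (2 * ((U.card : ℝ) - A.card))) ^ 2 := by gcongr
    _ = 2 * ((U.card : ℝ) - A.card) := Real.sq_sqrt hUA

/-- A vector fixed by a generating set is zero when the group is infinite. -/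
theorem eq_zero_of_fixed [Infinite G] {ι : Type*} (g : ι → G)
    (hgen : Subgroup.closure (Set.range g) = ⊤) (w : HS G) (hw : ∀ i, reg G (g i) w = w) :
    w = 0 := by
  have hall : ∀ x : G, reg G x w = w := by
    intro x
    have hx : x ∈ Subgroup.closure (Set.range g) := by rw [hgen]; trivial
    induction hx using Subgroup.closure_induction with
    | mem y hy =>
      obtain ⟨i, rfl⟩ := hy
      exact hw i
    | one => simp
    | mul a b _ _ ha hb =>
      rw [map_mul, Module.End.mul_apply, hb, ha]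
    | inv a _ ha =>
      calc reg G a⁻¹ w = reg G a⁻¹ (reg G a w) := by rw [ha]
        _ = reg G (a⁻¹ * a) w := by rw [map_mul, Module.End.mul_apply]
        _ = w := by simp
  have hconst : ∀ x : G, w x = w 1 := by
    intro x
    have h := congrArg (fun f : HS G => f x) (hall x)
    simpa using h.symm
  have hs := summable_sq w
  simp only [hconst] at hs
  have h0 : (w 1) ^ 2 = 0 := (summable_const_iff (β := G) _).mp hs
  ext x
  simpa [hconst x] using h0

end Expand

open Expand in
theorem expander {G : Type*} [Group G] [Infinite G] {p d : ℕ} (hp : p.Prime)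
    (hd : (d : ℝ) - 1 < Real.sqrt p) (g : Fin d → G)
    (hgen : Subgroup.closure (Set.range g) = ⊤) (hg : ∀ i, g i ^ p = 1)
    (hz : ∀ i j, (g i * g j * (g i)⁻¹ * (g j)⁻¹) ^ p = 1)
    (hzg : ∀ i j, Commute (g i * g j * (g i)⁻¹ * (g j)⁻¹) (g i)) :
    ∃ E : Finset G, ∀ A : Finset G, ∃ B : Finset G,
      (∀ x ∈ B, ∃ e ∈ E, ∃ a ∈ A, x = e * a) ∧ 2 * A.card ≤ B.card := by
  classical
  obtain ⟨C, hC0, hC⟩ := gap hp hd
  have hgap : ∀ v : HS G, ‖v‖ ^ 2 ≤ C * ∑ i, ‖v - avg (reg G) p (g i) v‖ ^ 2 := by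
    intro v
    obtain ⟨w, hw, hle⟩ := hC (reg G) norm_reg g hg hz hzg v
    rw [eq_zero_of_fixed g hgen w hw, sub_zero] at hle
    exact hle
  set η : ℝ := (4 * (C + 1) * ((d : ℝ) + 1))⁻¹ with hη
  have hηpos : 0 < η := by positivity
  set E0 : Finset G := insert 1
    ((Finset.univ ×ˢ Finset.range p).image (fun q : Fin d × ℕ => g q.1 ^ q.2)) with hE0
  have hone : (1 : G) ∈ E0 := Finset.mem_insert_self _ _
  have hpow : ∀ i, ∀ a < p, g i ^ a ∈ E0 := by
    intro i a ha
    apply Finset.mem_insert_of_mem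
    rw [Finset.mem_image]
    exact ⟨(i, a), by simp [ha], rfl⟩
  have hexp : ∀ A : Finset G, (1 + η) * (A.card : ℝ) ≤ ((E0 * A).card : ℝ) := by
    intro A
    by_contra hlt
    push Not at hlt
    have hAU : A ⊆ E0 * A := by
      intro x hx
      rw [Finset.mem_mul]
      exact ⟨1, hone, x, hx, by simp⟩
    have hApos : (0 : ℝ) < A.card := by
      rcases Finset.eq_empty_or_nonempty A with h | h
      · subst h
        simp at hlt
      · exact_mod_cast Finset.card_pos.mpr h
    have h1 := hgap (ind A)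
    rw [norm_ind] at h1
    have h2 : ∑ i, ‖ind A - avg (reg G) p (g i) (ind A)‖ ^ 2 ≤ ∑ _i : Fin d, 2 * (η * A.card) := by
      apply Finset.sum_le_sum
      intro i _
      refine (norm_ind_sub_avg_le A (E0 * A) (g i) hp.pos hAU ?_).trans ?_
      · intro a ha x hx
        exact Finset.mul_mem_mul (hpow i a ha) hx
      · nlinarith
    rw [Finset.sum_const, Finset.card_univ, Fintype.card_fin, nsmul_eq_mul] at h2
    have h3 : (A.card : ℝ) ≤ C * (d * (2 * (η * A.card))) :=
      h1.trans (mul_le_mul_of_nonneg_left h2 hC0)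
    have h4 : C * (d * (2 * (η * A.card))) ≤ (1 / 2) * A.card := by
      have h5 : C * d * η ≤ 1 / 4 := by
        rw [hη, ← div_eq_mul_inv, div_le_div_iff₀ (by positivity) (by norm_num)]
        have hd0 : (0 : ℝ) ≤ d := Nat.cast_nonneg d
        nlinarith [mul_nonneg hC0 hd0]
      nlinarith
    linarith
  have hiter : ∀ m : ℕ, ∀ A : Finset G,
      (1 + η) ^ m * (A.card : ℝ) ≤ ((E0 ^ m * A).card : ℝ) := by
    intro m
    induction m with
    | zero =>
      intro A
      simp
    | succ m ih =>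
      intro A
      have h1 := ih A
      have h2 := hexp (E0 ^ m * A)
      rw [pow_succ', pow_succ', mul_assoc, mul_assoc]
      exact (mul_le_mul_of_nonneg_left h1 (by positivity)).trans h2
  obtain ⟨m, hm⟩ := pow_unbounded_of_one_lt (2 : ℝ) (by linarith : (1 : ℝ) < 1 + η)
  refine ⟨E0 ^ m, fun A => ⟨E0 ^ m * A, ?_, ?_⟩⟩
  · intro x hx
    rw [Finset.mem_mul] at hx
    obtain ⟨e, he, a, ha, rfl⟩ := hx
    exact ⟨e, he, a, ha, rfl⟩
  · have h1 := hiter m A
    have h2 : (2 : ℝ) * A.card ≤ (1 + η) ^ m * (A.card : ℝ) := by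
      gcongr
    exact_mod_cast h2.trans h1

end GSR
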