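import Pool.Agent.GSR.Defs

/-!
The Golod-Shafarevich inequality for the free algebra (module C of GSR).
-/

set_option autoImplicit false

namespace GSR

open Module

section GSsec

variable {K : Type*} [Field K] {d : ℕ}

/-! ### the homogeneous components -/

private theorem hom_word {n : ℕ} {w : FreeMonoid (Fin d)} (hw : FreeMonoid.length w = n) :
    MonoidAlgebra.of K _ w ∈ Hom K d n := by
  intro w' hw'
  classical
  rw [MonoidAlgebra.of_apply, MonoidAlgebra.coeff_single, Finsupp.single_apply] at hw'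
  by_cases h : w = w'
  · rw [← h]; exact hw
  · simp [h] at hw'

private theorem hom_eq_sum (f : FA K d) :
    f = ∑ w ∈ f.coeff.support, f.coeff w • MonoidAlgebra.of K (FreeMonoid (Fin d)) w := by
  conv_lhs => rw [← MonoidAlgebra.sum_coeff_single f]
  rw [Finsupp.sum]
  refine Finset.sum_congr rfl (fun w _ => ?_)
  rw [MonoidAlgebra.of_apply, MonoidAlgebra.smul_single, smul_eq_mul, mul_one]

private theorem hom_eq_span (n : ℕ) : Hom K d n = Submodule.span K
    {x | ∃ w : FreeMonoid (Fin d), FreeMonoid.length w = n ∧ x = MonoidAlgebra.of K _ w} := by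
  apply le_antisymm
  · intro f hf
    rw [hom_eq_sum f]
    refine Submodule.sum_mem _ (fun w hw => Submodule.smul_mem _ _ (Submodule.subset_span ?_))
    exact ⟨w, hf w (Finsupp.mem_support_iff.mp hw), rfl⟩
  · rw [Submodule.span_le]
    rintro _ ⟨w, hw, rfl⟩
    exact hom_word hw

private theorem hom_mul {a b : ℕ} {f g : FA K d} (hf : f ∈ Hom K d a) (hg : g ∈ Hom K d b) :
    f * g ∈ Hom K d (a + b) := by
  have h1 : f * g ∈ Hom K d a * Hom K d b := Submodule.mul_mem_mul hf hg
  refine (?_ : Hom K d a * Hom K d b ≤ Hom K d (a + b)) h1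
  rw [hom_eq_span a, hom_eq_span b, Submodule.span_mul_span, Submodule.span_le]
  rintro _ ⟨_, ⟨u, hu, rfl⟩, _, ⟨v, hv, rfl⟩, rfl⟩
  change MonoidAlgebra.of K _ u * MonoidAlgebra.of K _ v ∈ Hom K d (a + b)
  rw [← map_mul]
  exact hom_word (by rw [FreeMonoid.length_mul, hu, hv])

/-- words of length `n` -/
private abbrev Wd (d n : ℕ) := {w : FreeMonoid (Fin d) // FreeMonoid.length w = n}

private def wdEquiv (d n : ℕ) : Wd d n ≃ List.Vector (Fin d) n where
  toFun w := ⟨FreeMonoid.toList w.1, w.2⟩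
  invFun v := ⟨FreeMonoid.ofList v.1, v.2⟩
  left_inv _ := rfl
  right_inv _ := rfl

private instance (d n : ℕ) : Fintype (Wd d n) := Fintype.ofEquiv _ (wdEquiv d n).symm

private theorem card_wd (d n : ℕ) : Fintype.card (Wd d n) = d ^ n := by
  rw [Fintype.card_congr (wdEquiv d n), card_vector, Fintype.card_fin]

private noncomputable def homEquiv (K : Type*) [Field K] (d n : ℕ) :
    Hom K d n ≃ₗ[K] (Wd d n → K) :=
  LinearEquiv.ofBijective
    { toFun := fun f w => f.1.coeff w.1
      map_add' := fun f g => by ext w; simp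
      map_smul' := fun c f => by ext w; simp }
    (by
      classical
      constructor
      · rw [← LinearMap.ker_eq_bot, LinearMap.ker_eq_bot']
        rintro ⟨f, hf⟩ h0
        apply Subtype.ext
        change f = 0
        rw [← MonoidAlgebra.coeff_eq_zero]
        ext w
        by_contra hw
        exact hw (congrFun h0 ⟨w, hf w hw⟩)
      · intro c
        refine ⟨⟨∑ w : Wd d n, c w • MonoidAlgebra.of K _ w.1,
          Submodule.sum_mem _ (fun w _ => Submodule.smul_mem _ _ (hom_word w.2))⟩, ?_⟩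
        ext w
        change (∑ w : Wd d n, c w • MonoidAlgebra.of K _ w.1 : FA K d).coeff w.1 = c w
        rw [MonoidAlgebra.coeff_sum, Finsupp.finsetSum_apply, Finset.sum_eq_single w]
        · rw [MonoidAlgebra.coeff_smul_apply, MonoidAlgebra.of_apply,
            MonoidAlgebra.coeff_single, Finsupp.single_apply]
          simp
        · intro w' _ hne
          rw [MonoidAlgebra.coeff_smul_apply, MonoidAlgebra.of_apply,
            MonoidAlgebra.coeff_single, Finsupp.single_apply, if_neg (fun h => hne (Subtype.ext h)), smul_zero]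
        · intro h
          exact absurd (Finset.mem_univ w) h)

private instance hom_fin (n : ℕ) : Module.Finite K (Hom K d n) :=
  Module.Finite.equiv (homEquiv K d n).symm

private theorem hom_finrank (n : ℕ) : finrank K (Hom K d n) = d ^ n := by
  rw [(homEquiv K d n).finrank_eq, finrank_fintype_fun_eq_card, card_wd]

/-- projection onto the degree `n` part -/
private noncomputable def prj (K : Type*) [Field K] (d n : ℕ) : FA K d →ₗ[K] FA K d := by
  classical
  exact
  { toFun := fun f => MonoidAlgebra.ofCoeff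
      (f.coeff.filter (fun w => FreeMonoid.length w = n))
    map_add' := fun f g => by
      rw [MonoidAlgebra.coeff_add, Finsupp.filter_add, MonoidAlgebra.ofCoeff_add]
    map_smul' := fun c f => by
      rw [MonoidAlgebra.coeff_smul, Finsupp.filter_smul, MonoidAlgebra.ofCoeff_smul]
      rfl }

private theorem prj_same {n : ℕ} {f : FA K d} (hf : f ∈ Hom K d n) : prj K d n f = f := by
  classical
  rw [← MonoidAlgebra.coeff_inj]
  ext w
  change (f.coeff.filter (fun w => FreeMonoid.length w = n)) w = f.coeff w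
  rw [Finsupp.filter_apply]
  split_ifs with h
  · rfl
  · by_contra h'
    exact h (hf w (fun h0 => h' h0.symm))

private theorem prj_ne {n m : ℕ} (hnm : m ≠ n) {f : FA K d} (hf : f ∈ Hom K d m) :
    prj K d n f = 0 := by
  classical
  rw [← MonoidAlgebra.coeff_inj]
  ext w
  change (f.coeff.filter (fun w => FreeMonoid.length w = n)) w = 0
  rw [Finsupp.filter_apply]
  split_ifs with h
  · by_contra h'
    exact hnm ((hf w h').symm.trans h)
  · rfl

/-! ### the homogeneous components of the ideal -/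

variable {ι : Type*}

private noncomputable def Jn (ρ : ι → FA K d) (deg : ι → ℕ) (n : ℕ) : Submodule K (FA K d) :=
  Submodule.span K {x | ∃ (i : ι) (u v : FreeMonoid (Fin d)),
    FreeMonoid.length u + deg i + FreeMonoid.length v = n ∧
    x = MonoidAlgebra.of K _ u * ρ i * MonoidAlgebra.of K _ v}

variable {ρ : ι → FA K d} {deg : ι → ℕ}

private theorem gen_hom (hρ : ∀ i, ρ i ∈ Hom K d (deg i)) (i : ι) (u v : FreeMonoid (Fin d)) :
    MonoidAlgebra.of K _ u * ρ i * MonoidAlgebra.of K _ v ∈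
      Hom K d (FreeMonoid.length u + deg i + FreeMonoid.length v) :=
  hom_mul (hom_mul (hom_word rfl) (hρ i)) (hom_word rfl)

private theorem jn_le (hρ : ∀ i, ρ i ∈ Hom K d (deg i)) (n : ℕ) : Jn ρ deg n ≤ Hom K d n := by
  rw [Jn, Submodule.span_le]
  rintro _ ⟨i, u, v, rfl, rfl⟩
  exact gen_hom hρ i u v

private theorem relSpan_inf (hρ : ∀ i, ρ i ∈ Hom K d (deg i)) {n : ℕ} {f : FA K d}
    (hf : f ∈ Hom K d n) (hr : f ∈ relSpan ρ) : f ∈ Jn ρ deg n := by
  have h1 : relSpan ρ ≤ (Jn ρ deg n).comap (prj K d n) := by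
    rw [relSpan, Submodule.span_le]
    rintro _ ⟨i, u, v, rfl⟩
    rw [SetLike.mem_coe, Submodule.mem_comap]
    by_cases h : FreeMonoid.length u + deg i + FreeMonoid.length v = n
    · rw [prj_same (h ▸ gen_hom hρ i u v)]
      exact Submodule.subset_span ⟨i, u, v, h, rfl⟩
    · rw [prj_ne h (gen_hom hρ i u v)]
      exact Submodule.zero_mem _
  have h2 := h1 hr
  rw [Submodule.mem_comap, prj_same hf] at h2
  exact h2

private theorem jn_mul_word {m : ℕ} {f : FA K d} (hf : f ∈ Jn ρ deg m) (w : FreeMonoid (Fin d)) :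
    f * MonoidAlgebra.of K _ w ∈ Jn ρ deg (m + FreeMonoid.length w) := by
  have h1 : Jn ρ deg m ≤ (Jn ρ deg (m + FreeMonoid.length w)).comap
      (LinearMap.mulRight K (MonoidAlgebra.of K _ w)) := by
    rw [Jn, Submodule.span_le]
    rintro _ ⟨i, u, v, h, rfl⟩
    rw [SetLike.mem_coe, Submodule.mem_comap, LinearMap.mulRight_apply]
    refine Submodule.subset_span ⟨i, u, v * w, ?_, ?_⟩
    · rw [FreeMonoid.length_mul]
      omega
    · simp only [map_mul, mul_assoc]
  exact h1 hf

/-- the part of `J (n+1)` obtained by right multiplication by letters -/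
private noncomputable def JX (ρ : ι → FA K d) (deg : ι → ℕ) (n : ℕ) : Submodule K (FA K d) :=
  Finset.univ.sup (fun x : Fin d => (Jn ρ deg n).map
    (LinearMap.mulRight K (MonoidAlgebra.of K _ (FreeMonoid.of x))))

private theorem mem_JX {n : ℕ} {f : FA K d} (hf : f ∈ Jn ρ deg n) (x : Fin d) :
    f * MonoidAlgebra.of K _ (FreeMonoid.of x) ∈ JX ρ deg n := by
  have h1 : (Jn ρ deg n).map (LinearMap.mulRight K (MonoidAlgebra.of K _ (FreeMonoid.of x))) ≤
      JX ρ deg n := Finset.le_sup (f := fun x : Fin d => (Jn ρ deg n).map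
    (LinearMap.mulRight K (MonoidAlgebra.of K _ (FreeMonoid.of x)))) (Finset.mem_univ x)
  exact h1 ⟨f, hf, rfl⟩

private theorem word_last {n : ℕ} (w : FreeMonoid (Fin d)) (hw : FreeMonoid.length w = n + 1) :
    ∃ (v : FreeMonoid (Fin d)) (x : Fin d), w = v * FreeMonoid.of x ∧
      FreeMonoid.length v = n := by
  have h0 : FreeMonoid.toList w ≠ [] := by
    intro h
    have : FreeMonoid.length w = 0 := by
      change (FreeMonoid.toList w).length = 0
      rw [h]; rfl
    omega
  refine ⟨FreeMonoid.ofList (FreeMonoid.toList w).dropLast, (FreeMonoid.toList w).getLast h0,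
    ?_, ?_⟩
  · apply FreeMonoid.toList.injective
    rw [FreeMonoid.toList_mul, FreeMonoid.toList_ofList, FreeMonoid.toList_of,
      List.dropLast_append_getLast]
  · change (FreeMonoid.toList w).dropLast.length = n
    rw [List.length_dropLast]
    change FreeMonoid.length w - 1 = n
    omega

private theorem mul_mem_JX {m e n : ℕ} {f g : FA K d} (hf : f ∈ Jn ρ deg m)
    (hg : g ∈ Hom K d (e + 1)) (hn : m + e = n) : f * g ∈ JX ρ deg n := by
  rw [hom_eq_span] at hg
  have h1 : Submodule.span K {x | ∃ w : FreeMonoid (Fin d), FreeMonoid.length w = e + 1 ∧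
      x = MonoidAlgebra.of K _ w} ≤ (JX ρ deg n).comap (LinearMap.mulLeft K f) := by
    rw [Submodule.span_le]
    rintro _ ⟨w, hw, rfl⟩
    obtain ⟨v, x, rfl, hv⟩ := word_last w hw
    rw [SetLike.mem_coe, Submodule.mem_comap, LinearMap.mulLeft_apply, map_mul, ← mul_assoc]
    apply mem_JX
    have := jn_mul_word hf v
    rwa [hv, hn] at this
  exact h1 hg

/-- complements -/
private theorem exists_compl (hρ : ∀ i, ρ i ∈ Hom K d (deg i)) (n : ℕ) :
    ∃ C : Submodule K (FA K d), C ≤ Hom K d n ∧ Jn ρ deg n ⊓ C = ⊥ ∧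
      Jn ρ deg n ⊔ C = Hom K d n := by
  obtain ⟨Q, hQ⟩ := Submodule.exists_isCompl (Jn ρ deg n)
  refine ⟨Q ⊓ Hom K d n, inf_le_right, ?_, ?_⟩
  · rw [eq_bot_iff, ← hQ.inf_eq_bot]
    exact inf_le_inf_left _ inf_le_left
  · rw [← sup_inf_assoc_of_le _ (jn_le hρ n), hQ.sup_eq_top, top_inf_eq]

private theorem jn_succ_le (hdeg : ∀ i, 1 ≤ deg i) (hρ : ∀ i, ρ i ∈ Hom K d (deg i))
    (C : ℕ → Submodule K (FA K d)) (hC : ∀ n, Jn ρ deg n ⊔ C n = Hom K d n) (n : ℕ)
    (s : Finset ι) (hs : ∀ i, deg i ≤ n + 1 → i ∈ s) :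
    Jn ρ deg (n + 1) ≤ JX ρ deg n ⊔
      s.sup (fun i => (C (n + 1 - deg i)).map (LinearMap.mulRight K (ρ i))) := by
  rw [Jn, Submodule.span_le]
  rintro _ ⟨i, u, v, h, rfl⟩
  rw [SetLike.mem_coe]
  rcases Nat.eq_zero_or_pos (FreeMonoid.length v) with hv | hv
  · have hv1 : v = 1 := FreeMonoid.length_eq_zero.mp hv
    rw [hv1, map_one, mul_one]
    have hi : deg i ≤ n + 1 := by omega
    have hu : MonoidAlgebra.of K _ u ∈ Hom K d (n + 1 - deg i) := hom_word (by omega)
    rw [← hC, Submodule.mem_sup] at hu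
    obtain ⟨j, hj, c, hc, hjc⟩ := hu
    rw [← hjc, add_mul]
    apply Submodule.add_mem
    · apply Submodule.mem_sup_left
      have h1 := hdeg i
      have h2 := hρ i
      obtain ⟨e, he⟩ : ∃ e, deg i = e + 1 := ⟨deg i - 1, by omega⟩
      rw [he] at h2
      exact mul_mem_JX hj h2 (by omega)
    · apply Submodule.mem_sup_right
      have h1 : (C (n + 1 - deg i)).map (LinearMap.mulRight K (ρ i)) ≤
          s.sup (fun i => (C (n + 1 - deg i)).map (LinearMap.mulRight K (ρ i))) :=
        Finset.le_sup (f := fun i => (C (n + 1 - deg i)).map (LinearMap.mulRight K (ρ i)))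
          (hs i hi)
      exact h1 ⟨c, hc, rfl⟩
  · obtain ⟨e, he⟩ : ∃ e, FreeMonoid.length v = e + 1 := ⟨FreeMonoid.length v - 1, by omega⟩
    obtain ⟨v', x, rfl, hv'⟩ := word_last v he
    apply Submodule.mem_sup_left
    rw [map_mul, ← mul_assoc]
    apply mem_JX
    refine Submodule.subset_span ⟨i, u, v', ?_, rfl⟩
    omega

private theorem finrank_sup_le {V : Type*} [AddCommGroup V] [Module K V] {κ : Type*}
    (s : Finset κ) (W : κ → Submodule K V) [∀ i, Module.Finite K (W i)] :
    finrank K (s.sup W : Submodule K V) ≤ ∑ i ∈ s, finrank K (W i) := by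
  classical
  induction s using Finset.induction_on with
  | empty => simp
  | insert a s ha ih =>
    rw [Finset.sup_insert, Finset.sum_insert ha]
    have h1 : FiniteDimensional K (s.sup W : Submodule K V) := inferInstance
    exact (Submodule.finrank_add_le_finrank_add_finrank _ _).trans (by omega)

/-- the numerical part -/
private theorem gs_num (b : ℕ → ℕ) (deg : ι → ℕ) (hdeg : ∀ i, 1 ≤ deg i) {t c : ℝ}
    (ht : 0 < t) (hc : ∀ s : Finset ι, ∑ i ∈ s, t ^ deg i ≤ c) (hneg : 1 - d * t + c < 0)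
    (S : ℕ → Finset ι) (hS : ∀ n i, i ∈ S n ↔ deg i ≤ n) (h0 : 1 ≤ b 0)
    (hb : ∀ n, d * b n ≤ b (n + 1) + ∑ i ∈ S (n + 1), b (n + 1 - deg i)) (N : ℕ) : b N ≠ 0 := by
  classical
  intro hN
  let f : ℕ → ℝ := fun n => t ^ n * b n
  have hf : ∀ n, 0 ≤ f n := fun n => by positivity
  set P : ℝ := ∑ n ∈ Finset.range N, f n with hP
  have hP0 : 0 ≤ P := Finset.sum_nonneg (fun n _ => hf n)
  have h1 : ∀ n ∈ Finset.range N, d * t * f n ≤ f (n + 1) +
      ∑ i ∈ S N, (if deg i ≤ n + 1 then t ^ deg i * f (n + 1 - deg i) else 0) := by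
    intro n hn
    have hn' := Finset.mem_range.mp hn
    have h2 : (d : ℝ) * b n ≤ b (n + 1) + ∑ i ∈ S (n + 1), (b (n + 1 - deg i) : ℝ) := by
      exact_mod_cast hb n
    have h3 : t ^ (n + 1) * ∑ i ∈ S (n + 1), (b (n + 1 - deg i) : ℝ) =
        ∑ i ∈ S N, (if deg i ≤ n + 1 then t ^ deg i * f (n + 1 - deg i) else 0) := by
      rw [Finset.mul_sum, ← Finset.sum_filter]
      have h4 : (S N).filter (fun i => deg i ≤ n + 1) = S (n + 1) := by
        ext i
        rw [Finset.mem_filter, hS, hS]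
        constructor
        · exact fun h => h.2
        · exact fun h => ⟨by omega, h⟩
      rw [h4]
      refine Finset.sum_congr rfl (fun i hi => ?_)
      rw [hS] at hi
      change _ = t ^ deg i * (t ^ (n + 1 - deg i) * _)
      rw [← mul_assoc, ← pow_add]
      congr 2
      omega
    rw [← h3]
    have h5 : 0 < t ^ (n + 1) := pow_pos ht _
    change d * t * (t ^ n * b n) ≤ t ^ (n + 1) * b (n + 1) + _
    calc d * t * (t ^ n * b n) = t ^ (n + 1) * (d * b n) := by ring
      _ ≤ t ^ (n + 1) * (b (n + 1) + ∑ i ∈ S (n + 1), (b (n + 1 - deg i) : ℝ)) :=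
          mul_le_mul_of_nonneg_left h2 h5.le
      _ = _ := by ring
  have h2 := Finset.sum_le_sum h1
  rw [← Finset.mul_sum, ← hP, Finset.sum_add_distrib, Finset.sum_comm] at h2
  have h3 : ∑ n ∈ Finset.range N, f (n + 1) = P - b 0 := by
    have h4 := Finset.sum_range_succ f N
    rw [Finset.sum_range_succ'] at h4
    have h5 : f 0 = b 0 := by simp [f]
    have h6 : f N = 0 := by simp [f, hN]
    rw [h5, h6, ← hP] at h4
    linarith
  have h4 : ∑ i ∈ S N, ∑ n ∈ Finset.range N,
      (if deg i ≤ n + 1 then t ^ deg i * f (n + 1 - deg i) else 0) ≤ c * P := by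
    have h5 : ∀ i ∈ S N, ∑ n ∈ Finset.range N,
        (if deg i ≤ n + 1 then t ^ deg i * f (n + 1 - deg i) else 0) ≤ t ^ deg i * P := by
      intro i _
      rw [← Finset.sum_filter, ← Finset.mul_sum]
      apply mul_le_mul_of_nonneg_left _ (pow_pos ht _).le
      have h6 : ∑ n ∈ (Finset.range N).filter (fun n => deg i ≤ n + 1), f (n + 1 - deg i) =
          ∑ m ∈ ((Finset.range N).filter (fun n => deg i ≤ n + 1)).image
            (fun n => n + 1 - deg i), f m := by
        rw [Finset.sum_image]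
        intro x hx y hy hxy
        have hx' := (Finset.mem_filter.mp hx).2
        have hy' := (Finset.mem_filter.mp hy).2
        simp only at hxy
        omega
      rw [h6, hP]
      apply Finset.sum_le_sum_of_subset_of_nonneg
      · intro m hm
        obtain ⟨n, hn, rfl⟩ := Finset.mem_image.mp hm
        have hn' := Finset.mem_filter.mp hn
        have := Finset.mem_range.mp hn'.1
        have := hdeg i
        exact Finset.mem_range.mpr (by omega)
      · intro m _ _
        exact hf m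
    calc _ ≤ ∑ i ∈ S N, t ^ deg i * P := Finset.sum_le_sum h5
      _ = (∑ i ∈ S N, t ^ deg i) * P := by rw [Finset.sum_mul]
      _ ≤ c * P := mul_le_mul_of_nonneg_right (hc _) hP0
  have h5 : (1 : ℝ) ≤ b 0 := by exact_mod_cast h0
  nlinarith [mul_nonneg hP0 (neg_nonneg.mpr hneg.le)]

private theorem deg_finite (deg : ι → ℕ) {t c : ℝ} (ht : 0 < t)
    (hc : ∀ s : Finset ι, ∑ i ∈ s, t ^ deg i ≤ c) (N : ℕ) : {i | deg i ≤ N}.Finite := by
  by_contra hinf
  have hinf' : {i | deg i ≤ N}.Infinite := hinf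
  set r : ℝ := min 1 t with hr
  have hr0 : 0 < r := lt_min one_pos ht
  have hr1 : r ≤ 1 := min_le_left _ _
  have hrt : r ≤ t := min_le_right _ _
  have hrN : 0 < r ^ N := pow_pos hr0 N
  obtain ⟨k, hk⟩ := exists_nat_gt (c / r ^ N)
  obtain ⟨s, hs, hsk⟩ := hinf'.exists_subset_card_eq k
  have h1 : ∑ i ∈ s, r ^ N ≤ ∑ i ∈ s, t ^ deg i := by
    apply Finset.sum_le_sum
    intro i hi
    have hi' : deg i ≤ N := hs hi
    calc r ^ N ≤ r ^ deg i := pow_le_pow_of_le_one hr0.le hr1 hi'
      _ ≤ t ^ deg i := pow_le_pow_left₀ hr0.le hrt _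
  rw [Finset.sum_const, nsmul_eq_mul, hsk] at h1
  have h2 := h1.trans (hc s)
  rw [div_lt_iff₀ hrN] at hk
  linarith

theorem golod_shafarevich {K : Type*} [Field K] {d : ℕ} {ι : Type*} (ρ : ι → FA K d)
    (deg : ι → ℕ) (hdeg : ∀ i, 1 ≤ deg i) (hρ : ∀ i, ρ i ∈ Hom K d (deg i)) {t c : ℝ}
    (ht : 0 < t) (hc : ∀ s : Finset ι, ∑ i ∈ s, t ^ deg i ≤ c) (hneg : 1 - d * t + c < 0)
    (n : ℕ) : ∃ u ∈ Hom K d n, u ∉ relSpan ρ := by
  classical
  choose C hCle hCinf hCsup using exists_compl hρ (K := K) (ρ := ρ)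
  have hJfin : ∀ m, Module.Finite K (Jn ρ deg m) := fun m =>
    Submodule.finiteDimensional_of_le (jn_le hρ m)
  have hCfin : ∀ m, Module.Finite K (C m) := fun m =>
    Submodule.finiteDimensional_of_le (hCle m)
  let b : ℕ → ℕ := fun m => finrank K (C m)
  have hdim : ∀ m, finrank K (Jn ρ deg m) + b m = d ^ m := by
    intro m
    have h1 := Submodule.finrank_sup_add_finrank_inf_eq (Jn ρ deg m) (C m)
    rw [hCsup, hCinf, finrank_bot, add_zero, hom_finrank] at h1
    exact h1.symm
  let S : ℕ → Finset ι := fun m => (deg_finite deg ht hc m).toFinset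
  have hS : ∀ m i, i ∈ S m ↔ deg i ≤ m := fun m i => by simp [S]
  have hb0 : 1 ≤ b 0 := by
    have h1 : Jn ρ deg 0 = ⊥ := by
      rw [Jn, Submodule.span_eq_bot]
      rintro _ ⟨i, u, v, h, rfl⟩
      have := hdeg i
      omega
    have h2 := hdim 0
    rw [h1, finrank_bot, pow_zero] at h2
    omega
  have hb : ∀ m, d * b m ≤ b (m + 1) + ∑ i ∈ S (m + 1), b (m + 1 - deg i) := by
    intro m
    have h1 := jn_succ_le hdeg hρ C hCsup m (S (m + 1)) (fun i hi => (hS _ _).mpr hi)
    have hfin1 : Module.Finite K (JX ρ deg m) := by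
      rw [JX]; infer_instance
    have h2 := Submodule.finrank_mono h1
    have h3 := Submodule.finrank_add_le_finrank_add_finrank (JX ρ deg m)
      ((S (m + 1)).sup (fun i => (C (m + 1 - deg i)).map (LinearMap.mulRight K (ρ i))))
    have h4 : finrank K (JX ρ deg m) ≤ d * finrank K (Jn ρ deg m) := by
      rw [JX]
      refine (finrank_sup_le _ _).trans ?_
      calc _ ≤ ∑ _x : Fin d, finrank K (Jn ρ deg m) :=
            Finset.sum_le_sum (fun x _ => Submodule.finrank_map_le _ _)
        _ = d * finrank K (Jn ρ deg m) := by simp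
    have h5 : finrank K ((S (m + 1)).sup (fun i =>
        (C (m + 1 - deg i)).map (LinearMap.mulRight K (ρ i))) : Submodule K (FA K d)) ≤
        ∑ i ∈ S (m + 1), b (m + 1 - deg i) :=
      (finrank_sup_le _ _).trans
        (Finset.sum_le_sum (fun i _ => Submodule.finrank_map_le _ _))
    have h6 := hdim m
    have h7 := hdim (m + 1)
    have h8 : d * finrank K (Jn ρ deg m) + d * b m = d ^ (m + 1) := by
      rw [← mul_add, h6, pow_succ, mul_comm]
    omega
  have hbn := gs_num b deg hdeg ht hc hneg S hS hb0 hb n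
  have hCn : C n ≠ ⊥ := by
    intro h
    apply hbn
    change finrank K (C n) = 0
    rw [h, finrank_bot]
  obtain ⟨u, hu, hu0⟩ := (Submodule.ne_bot_iff _).mp hCn
  refine ⟨u, hCle n hu, ?_⟩
  intro hr
  have h1 := relSpan_inf hρ (hCle n hu) hr
  have h2 : u ∈ Jn ρ deg n ⊓ C n := ⟨h1, hu⟩
  rw [hCinf, Submodule.mem_bot] at h2
  exact hu0 h2

end GSsec

end GSR
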