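import Pool.Agent.GSR.Angle

/-!
# From the angle bound to a spectral gap (module A2)
-/

set_option autoImplicit false

namespace GSR

namespace A2

section basic

variable {G : Type*} [Group G] {H : Type*} [NormedAddCommGroup H] [InnerProductSpace ℝ H]
  (ρ : G →* (H →ₗ[ℝ] H))

lemma inner_rho (hρ : ∀ g v, ‖ρ g v‖ = ‖v‖) (g : G) (x y : H) :
    inner ℝ (ρ g x) (ρ g y) = inner ℝ x y := by
  let f : H →ₗᵢ[ℝ] H := ⟨ρ g, hρ g⟩
  exact f.inner_map_map x y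

lemma rho_mul_apply (g h : G) (x : H) : ρ (g * h) x = ρ g (ρ h x) := by
  rw [map_mul]; rfl

lemma rho_one_apply (x : H) : ρ 1 x = x := by
  rw [map_one]; rfl

lemma inner_rho_left (hρ : ∀ g v, ‖ρ g v‖ = ‖v‖) (g : G) (x y : H) :
    inner ℝ (ρ g x) y = inner ℝ x (ρ g⁻¹ y) := by
  rw [← inner_rho ρ hρ g x (ρ g⁻¹ y), ← rho_mul_apply, mul_inv_cancel, rho_one_apply]

lemma avg_apply (p : ℕ) (g : G) (x : H) :
    avg ρ p g x = (p : ℝ)⁻¹ • ∑ a ∈ Finset.range p, ρ (g ^ a) x := by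
  unfold avg
  rw [LinearMap.smul_apply, LinearMap.sum_apply]

lemma sum_shift {p : ℕ} {g : G} (hg : g ^ p = 1) (x : H) :
    ∑ a ∈ Finset.range p, ρ (g ^ (a + 1)) x = ∑ a ∈ Finset.range p, ρ (g ^ a) x := by
  have h1 := Finset.sum_range_succ (fun a => ρ (g ^ a) x) p
  have h2 := Finset.sum_range_succ' (fun a => ρ (g ^ a) x) p
  rw [hg] at h1
  rw [pow_zero] at h2
  exact add_right_cancel (h2.symm.trans h1)

lemma rho_avg {p : ℕ} {g : G} (hg : g ^ p = 1) (x : H) :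
    ρ g (avg ρ p g x) = avg ρ p g x := by
  rw [avg_apply, map_smul, map_sum]
  congr 1
  rw [← sum_shift ρ hg]
  apply Finset.sum_congr rfl
  intro a _
  rw [← rho_mul_apply, ← pow_succ']

lemma rho_pow_avg {p : ℕ} {g : G} (hg : g ^ p = 1) (x : H) (a : ℕ) :
    ρ (g ^ a) (avg ρ p g x) = avg ρ p g x := by
  induction a with
  | zero => rw [pow_zero, rho_one_apply]
  | succ a ih => rw [pow_succ, rho_mul_apply, rho_avg ρ hg, ih]

lemma avg_avg {p : ℕ} (hp : p ≠ 0) {g : G} (hg : g ^ p = 1) (x : H) :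
    avg ρ p g (avg ρ p g x) = avg ρ p g x := by
  rw [avg_apply ρ p g (avg ρ p g x), Finset.sum_congr rfl (fun a _ => rho_pow_avg ρ hg x a),
    Finset.sum_const, Finset.card_range, ← Nat.cast_smul_eq_nsmul ℝ, smul_smul,
    inv_mul_cancel₀ (Nat.cast_ne_zero.2 hp), one_smul]

lemma sum_inv {p : ℕ} {g : G} (hg : g ^ p = 1) (x : H) :
    ∑ a ∈ Finset.range p, ρ (g ^ a)⁻¹ x = ∑ a ∈ Finset.range p, ρ (g ^ a) x := by
  rw [← sum_shift ρ hg, ← Finset.sum_range_reflect]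
  apply Finset.sum_congr rfl
  intro a ha
  rw [Finset.mem_range] at ha
  congr 2
  rw [inv_eq_iff_mul_eq_one, ← pow_add, ← hg]
  congr 1
  omega

lemma avg_symm (hρ : ∀ g v, ‖ρ g v‖ = ‖v‖) {p : ℕ} {g : G} (hg : g ^ p = 1) (x y : H) :
    inner ℝ (avg ρ p g x) y = inner ℝ x (avg ρ p g y) := by
  rw [avg_apply, avg_apply, real_inner_smul_left, real_inner_smul_right, sum_inner, ← sum_inv ρ hg,
    inner_sum]
  congr 1
  apply Finset.sum_congr rfl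
  intro a _
  exact inner_rho_left ρ hρ _ x y

/-- the complementary projection -/
noncomputable def Q (p : ℕ) (g : G) : H →ₗ[ℝ] H := LinearMap.id - avg ρ p g

lemma Q_apply (p : ℕ) (g : G) (x : H) : Q ρ p g x = x - avg ρ p g x := rfl

lemma Q_symm (hρ : ∀ g v, ‖ρ g v‖ = ‖v‖) {p : ℕ} {g : G} (hg : g ^ p = 1) (x y : H) :
    inner ℝ (Q ρ p g x) y = inner ℝ x (Q ρ p g y) := by
  rw [Q_apply, Q_apply, inner_sub_left, inner_sub_right, avg_symm ρ hρ hg]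

lemma Q_Q {p : ℕ} (hp : p ≠ 0) {g : G} (hg : g ^ p = 1) (x : H) :
    Q ρ p g (Q ρ p g x) = Q ρ p g x := by
  rw [Q_apply ρ p g (Q ρ p g x), Q_apply, map_sub, avg_avg ρ hp hg, sub_self, sub_zero]

lemma Q_normsq (hρ : ∀ g v, ‖ρ g v‖ = ‖v‖) {p : ℕ} (hp : p ≠ 0) {g : G} (hg : g ^ p = 1) (x : H) :
    ‖Q ρ p g x‖ ^ 2 = inner ℝ (Q ρ p g x) x := by
  rw [← real_inner_self_eq_norm_sq, ← Q_symm ρ hρ hg, Q_Q ρ hp hg]

lemma Q_norm_le (hρ : ∀ g v, ‖ρ g v‖ = ‖v‖) {p : ℕ} (hp : p ≠ 0) {g : G} (hg : g ^ p = 1)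
    (x : H) : ‖Q ρ p g x‖ ≤ ‖x‖ := by
  have h1 := Q_normsq ρ hρ hp hg x
  have h2 := real_inner_le_norm (Q ρ p g x) x
  rcases eq_or_lt_of_le (norm_nonneg (Q ρ p g x)) with h | h
  · rw [← h]; exact norm_nonneg x
  · have h3 : ‖Q ρ p g x‖ * ‖Q ρ p g x‖ ≤ ‖Q ρ p g x‖ * ‖x‖ := by nlinarith
    exact le_of_mul_le_mul_left h3 h

end basic

section gap

variable {G : Type*} [Group G] {H : Type*} [NormedAddCommGroup H] [InnerProductSpace ℝ H]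
  (ρ : G →* (H →ₗ[ℝ] H))

/-- the Laplacian -/
noncomputable def D (p : ℕ) {d : ℕ} (g : Fin d → G) : H →ₗ[ℝ] H := ∑ i, Q ρ p (g i)

/-- the energy -/
noncomputable def En (p : ℕ) {d : ℕ} (g : Fin d → G) (v : H) : ℝ := ∑ i, ‖Q ρ p (g i) v‖ ^ 2

lemma D_apply (p : ℕ) {d : ℕ} (g : Fin d → G) (v : H) : D ρ p g v = ∑ i, Q ρ p (g i) v := by
  unfold D; rw [LinearMap.sum_apply]

lemma D_symm (hρ : ∀ g v, ‖ρ g v‖ = ‖v‖) {p d : ℕ} {g : Fin d → G} (hg : ∀ i, g i ^ p = 1)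
    (x y : H) : inner ℝ (D ρ p g x) y = inner ℝ x (D ρ p g y) := by
  rw [D_apply, D_apply, sum_inner, inner_sum]
  exact Finset.sum_congr rfl fun i _ => Q_symm ρ hρ (hg i) x y

lemma En_eq (hρ : ∀ g v, ‖ρ g v‖ = ‖v‖) {p d : ℕ} (hp : p ≠ 0) {g : Fin d → G}
    (hg : ∀ i, g i ^ p = 1) (v : H) : En ρ p g v = inner ℝ (D ρ p g v) v := by
  rw [D_apply, sum_inner]
  exact Finset.sum_congr rfl fun i _ => Q_normsq ρ hρ hp (hg i) v

lemma En_nonneg (p : ℕ) {d : ℕ} (g : Fin d → G) (v : H) : 0 ≤ En ρ p g v :=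
  Finset.sum_nonneg fun _ _ => by positivity

lemma D_le (p : ℕ) {d : ℕ} (g : Fin d → G) (v : H) : ‖D ρ p g v‖ ^ 2 ≤ d * En ρ p g v := by
  rw [D_apply]
  have h1 : ‖∑ i, Q ρ p (g i) v‖ ≤ ∑ i, ‖Q ρ p (g i) v‖ := norm_sum_le _ _
  have h2 := sq_sum_le_card_mul_sum_sq (s := (Finset.univ : Finset (Fin d)))
    (f := fun i => ‖Q ρ p (g i) v‖)
  rw [Finset.card_univ, Fintype.card_fin] at h2
  calc ‖∑ i, Q ρ p (g i) v‖ ^ 2 ≤ (∑ i, ‖Q ρ p (g i) v‖) ^ 2 :=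
        pow_le_pow_left₀ (norm_nonneg _) h1 2
    _ ≤ _ := h2

lemma En_le (hρ : ∀ g v, ‖ρ g v‖ = ‖v‖) {p d : ℕ} (hp : p ≠ 0) {g : Fin d → G}
    (hg : ∀ i, g i ^ p = 1) (v : H) : En ρ p g v ≤ d * ‖v‖ ^ 2 := by
  unfold En
  calc ∑ i, ‖Q ρ p (g i) v‖ ^ 2 ≤ ∑ _i : Fin d, ‖v‖ ^ 2 :=
        Finset.sum_le_sum fun i _ => pow_le_pow_left₀ (norm_nonneg _)
          (Q_norm_le ρ hρ hp (hg i) v) 2
    _ = _ := by rw [Finset.sum_const, Finset.card_univ, Fintype.card_fin, nsmul_eq_mul]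

lemma le_D (hρ : ∀ g v, ‖ρ g v‖ = ‖v‖) {p d : ℕ} (hp : p.Prime) {g : Fin d → G}
    (hg : ∀ i, g i ^ p = 1) (hz : ∀ i j, (g i * g j * (g i)⁻¹ * (g j)⁻¹) ^ p = 1)
    (hc : ∀ i j, Commute (g i * g j * (g i)⁻¹ * (g j)⁻¹) (g i)) (v : H) :
    (1 - ((d : ℝ) - 1) * (Real.sqrt p)⁻¹) * En ρ p g v ≤ ‖D ρ p g v‖ ^ 2 := by
  set ε := (Real.sqrt p)⁻¹ with hε
  have hF : ∀ i j, 0 ≤ 2 * inner ℝ (Q ρ p (g i) v) (Q ρ p (g j) v)
      + ε * (‖Q ρ p (g i) v‖ ^ 2 + ‖Q ρ p (g j) v‖ ^ 2) := by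
    intro i j
    refine angle ρ hρ hp (hg i) (hg j) (hz i j) (hc i j) ?_ v
    have h := (hc j i).inv_left
    have e : (g j * g i * (g j)⁻¹ * (g i)⁻¹)⁻¹ = g i * g j * (g i)⁻¹ * (g j)⁻¹ := by group
    rwa [e] at h
  have h1 : ∑ i, ∑ j, (2 * inner ℝ (Q ρ p (g i) v) (Q ρ p (g j) v)
      + ε * (‖Q ρ p (g i) v‖ ^ 2 + ‖Q ρ p (g j) v‖ ^ 2))
      = 2 * ‖D ρ p g v‖ ^ 2 + 2 * ε * d * En ρ p g v := by
    have e1 : ∑ i, ∑ j, inner ℝ (Q ρ p (g i) v) (Q ρ p (g j) v) = ‖D ρ p g v‖ ^ 2 := by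
      rw [← real_inner_self_eq_norm_sq, D_apply, sum_inner]
      exact Finset.sum_congr rfl fun i _ => (inner_sum _ _ _).symm
    have e2 : ∑ i : Fin d, ∑ j : Fin d, (‖Q ρ p (g i) v‖ ^ 2 + ‖Q ρ p (g j) v‖ ^ 2)
        = 2 * d * En ρ p g v := by
      simp only [Finset.sum_add_distrib, Finset.sum_const, Finset.card_univ, Fintype.card_fin,
        nsmul_eq_mul, ← Finset.mul_sum]
      unfold En
      ring
    calc _ = 2 * (∑ i, ∑ j, inner ℝ (Q ρ p (g i) v) (Q ρ p (g j) v))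
          + ε * ∑ i : Fin d, ∑ j : Fin d, (‖Q ρ p (g i) v‖ ^ 2 + ‖Q ρ p (g j) v‖ ^ 2) := by
          simp only [Finset.sum_add_distrib, Finset.mul_sum, mul_add]
      _ = _ := by rw [e1, e2]; ring
  have h2 : ∑ i, (2 * inner ℝ (Q ρ p (g i) v) (Q ρ p (g i) v)
      + ε * (‖Q ρ p (g i) v‖ ^ 2 + ‖Q ρ p (g i) v‖ ^ 2))
      ≤ ∑ i, ∑ j, (2 * inner ℝ (Q ρ p (g i) v) (Q ρ p (g j) v)
      + ε * (‖Q ρ p (g i) v‖ ^ 2 + ‖Q ρ p (g j) v‖ ^ 2)) := by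
    apply Finset.sum_le_sum
    intro i _
    exact Finset.single_le_sum (f := fun j => 2 * inner ℝ (Q ρ p (g i) v) (Q ρ p (g j) v)
      + ε * (‖Q ρ p (g i) v‖ ^ 2 + ‖Q ρ p (g j) v‖ ^ 2)) (fun j _ => hF i j) (Finset.mem_univ i)
  have h3 : ∑ i, (2 * inner ℝ (Q ρ p (g i) v) (Q ρ p (g i) v)
      + ε * (‖Q ρ p (g i) v‖ ^ 2 + ‖Q ρ p (g i) v‖ ^ 2)) = 2 * (1 + ε) * En ρ p g v := by
    unfold En
    rw [Finset.mul_sum]
    apply Finset.sum_congr rfl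
    intro i _
    rw [real_inner_self_eq_norm_sq]
    ring
  rw [h1, h3] at h2
  linarith

end gap

end A2

open A2 Filter Topology

theorem gap {p d : ℕ} (hp : p.Prime) (hd : (d : ℝ) - 1 < Real.sqrt p) :
    ∃ C : ℝ, 0 ≤ C ∧ ∀ {G : Type*} [Group G] {H : Type*} [NormedAddCommGroup H]
    [InnerProductSpace ℝ H] [CompleteSpace H] (ρ : G →* (H →ₗ[ℝ] H))
    (_ : ∀ g v, ‖ρ g v‖ = ‖v‖) (g : Fin d → G) (_ : ∀ i, g i ^ p = 1)
    (_ : ∀ i j, (g i * g j * (g i)⁻¹ * (g j)⁻¹) ^ p = 1)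
    (_ : ∀ i j, Commute (g i * g j * (g i)⁻¹ * (g j)⁻¹) (g i)) (v : H),
    ∃ w : H, (∀ i, ρ (g i) w = w) ∧ ‖v - w‖ ^ 2 ≤ C * ∑ i, ‖v - avg ρ p (g i) v‖ ^ 2 := by
  rcases Nat.eq_zero_or_pos d with rfl | hd0
  · refine ⟨0, le_rfl, ?_⟩
    intro G _ H _ _ _ ρ _ g _ _ _ v
    exact ⟨v, fun i => i.elim0, by simp⟩
  have hsp : 0 < Real.sqrt p := Real.sqrt_pos.2 (by exact_mod_cast hp.pos)
  have hd1 : (1 : ℝ) ≤ d := by exact_mod_cast hd0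
  set c : ℝ := 1 - ((d : ℝ) - 1) * (Real.sqrt p)⁻¹ with hc
  have hc0 : 0 < c := by
    rw [hc, sub_pos, ← div_eq_mul_inv, div_lt_one hsp]
    exact hd
  have hc1 : c ≤ 1 := by
    rw [hc]
    have : 0 ≤ ((d : ℝ) - 1) * (Real.sqrt p)⁻¹ := mul_nonneg (by linarith) (by positivity)
    linarith
  set q : ℝ := 1 - c / d with hq
  have hq0 : 0 ≤ q := by
    rw [hq, sub_nonneg, div_le_one (by linarith)]
    linarith
  have hq1 : q < 1 := by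
    rw [hq]
    have : 0 < c / d := div_pos hc0 (by linarith)
    linarith
  have hsq1 : Real.sqrt q < 1 := by
    rw [Real.sqrt_lt' one_pos]; simpa using hq1
  refine ⟨1 / (d * (1 - Real.sqrt q) ^ 2), by positivity, ?_⟩
  intro G _ H _ _ _ ρ hρ g hg hz hzc v
  have hp0 : p ≠ 0 := hp.ne_zero
  let T : H → H := fun x => x - (d : ℝ)⁻¹ • D ρ p g x
  have hET : ∀ x, En ρ p g (T x) ≤ q * En ρ p g x := by
    intro x
    have h1 := le_D ρ hρ hp hg hz hzc x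
    have h2 : inner ℝ (D ρ p g (D ρ p g x)) (D ρ p g x) ≤ d * ‖D ρ p g x‖ ^ 2 := by
      rw [← En_eq ρ hρ hp0 hg]
      exact En_le ρ hρ hp0 hg _
    have h3 : En ρ p g (T x) = En ρ p g x - 2 * (d : ℝ)⁻¹ * ‖D ρ p g x‖ ^ 2
        + (d : ℝ)⁻¹ ^ 2 * inner ℝ (D ρ p g (D ρ p g x)) (D ρ p g x) := by
      rw [En_eq ρ hρ hp0 hg, En_eq ρ hρ hp0 hg x]
      simp only [T, map_sub, map_smul, inner_sub_left, inner_sub_right, real_inner_smul_left,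
        real_inner_smul_right]
      rw [D_symm ρ hρ hg (D ρ p g x) x, real_inner_self_eq_norm_sq]
      ring
    have hdinv : (d : ℝ)⁻¹ ^ 2 * (d * ‖D ρ p g x‖ ^ 2) = (d : ℝ)⁻¹ * ‖D ρ p g x‖ ^ 2 := by
      field_simp
    have h4 : (d : ℝ)⁻¹ ^ 2 * inner ℝ (D ρ p g (D ρ p g x)) (D ρ p g x)
        ≤ (d : ℝ)⁻¹ * ‖D ρ p g x‖ ^ 2 := by
      rw [← hdinv]
      exact mul_le_mul_of_nonneg_left h2 (by positivity)
    have h5 : (d : ℝ)⁻¹ * (c * En ρ p g x) ≤ (d : ℝ)⁻¹ * ‖D ρ p g x‖ ^ 2 :=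
      mul_le_mul_of_nonneg_left h1 (by positivity)
    rw [h3, hq]
    have h6 : (1 - c / d) * En ρ p g x = En ρ p g x - (d : ℝ)⁻¹ * (c * En ρ p g x) := by ring
    rw [h6]
    linarith
  let u : ℕ → H := fun k => T^[k] v
  have hu : ∀ k, u (k + 1) = T (u k) := fun k => Function.iterate_succ_apply' T k v
  have hEu : ∀ k, En ρ p g (u k) ≤ q ^ k * En ρ p g v := by
    intro k
    induction k with
    | zero => simp [u]
    | succ k ih =>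
      rw [hu, pow_succ]
      calc En ρ p g (T (u k)) ≤ q * En ρ p g (u k) := hET _
        _ ≤ q * (q ^ k * En ρ p g v) := mul_le_mul_of_nonneg_left ih hq0
        _ = _ := by ring
  have hdist : ∀ k, dist (u k) (u (k + 1)) ≤ Real.sqrt (En ρ p g v / d) * Real.sqrt q ^ k := by
    intro k
    have e : u k - u (k + 1) = (d : ℝ)⁻¹ • D ρ p g (u k) := by
      rw [hu]; simp [T]
    rw [dist_eq_norm, e]
    have h1 : ‖(d : ℝ)⁻¹ • D ρ p g (u k)‖ ^ 2 ≤ (Real.sqrt (En ρ p g v / d) * Real.sqrt q ^ k) ^ 2 := by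
      rw [norm_smul, mul_pow, mul_pow, Real.sq_sqrt (div_nonneg (En_nonneg ρ p g v) (by linarith)),
        ← pow_mul, mul_comm k 2, pow_mul, Real.sq_sqrt hq0, Real.norm_eq_abs, sq_abs]
      calc (d : ℝ)⁻¹ ^ 2 * ‖D ρ p g (u k)‖ ^ 2 ≤ (d : ℝ)⁻¹ ^ 2 * (d * En ρ p g (u k)) :=
            mul_le_mul_of_nonneg_left (D_le ρ p g (u k)) (by positivity)
        _ ≤ (d : ℝ)⁻¹ ^ 2 * (d * (q ^ k * En ρ p g v)) := by
            have := hEu k
            gcongr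
        _ = _ := by field_simp
    exact abs_le_of_sq_le_sq' h1 (by positivity) |>.2
  obtain ⟨w, hw⟩ := cauchySeq_tendsto_of_complete (cauchySeq_of_le_geometric _ _ hsq1 hdist)
  have hd2 := dist_le_of_le_geometric_of_tendsto₀ _ _ hsq1 hdist hw
  refine ⟨w, ?_, ?_⟩
  · intro i
    have h0 : Q ρ p (g i) w = 0 := by
      rw [← norm_eq_zero]
      refine le_antisymm ?_ (norm_nonneg _)
      have hlim : Tendsto (fun k => ‖w - u k‖ + Real.sqrt (En ρ p g v) * Real.sqrt q ^ k) atTop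
          (𝓝 (0 + Real.sqrt (En ρ p g v) * 0)) := by
        apply Tendsto.add
        · have := hw.const_sub w
          rw [sub_self] at this
          simpa using this.norm
        · exact (tendsto_pow_atTop_nhds_zero_of_lt_one (Real.sqrt_nonneg _) hsq1).const_mul _
      rw [mul_zero, add_zero] at hlim
      refine ge_of_tendsto' hlim ?_
      intro k
      have e : Q ρ p (g i) w = Q ρ p (g i) (w - u k) + Q ρ p (g i) (u k) := by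
        rw [map_sub]; abel
      rw [e]
      refine (norm_add_le _ _).trans (add_le_add (Q_norm_le ρ hρ hp0 (hg i) _) ?_)
      have h1 : ‖Q ρ p (g i) (u k)‖ ^ 2 ≤ (Real.sqrt (En ρ p g v) * Real.sqrt q ^ k) ^ 2 := by
        rw [mul_pow, Real.sq_sqrt (En_nonneg ρ p g v), ← pow_mul, mul_comm k 2, pow_mul,
          Real.sq_sqrt hq0]
        have h2 : ‖Q ρ p (g i) (u k)‖ ^ 2 ≤ En ρ p g (u k) :=
          Finset.single_le_sum (f := fun i => ‖Q ρ p (g i) (u k)‖ ^ 2)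
            (fun _ _ => by positivity) (Finset.mem_univ i)
        calc _ ≤ _ := h2
          _ ≤ _ := hEu k
          _ = _ := by ring
      exact abs_le_of_sq_le_sq' h1 (by positivity) |>.2
    rw [Q_apply, sub_eq_zero] at h0
    rw [h0, rho_avg ρ (hg i)]
  · have e : ∑ i, ‖v - avg ρ p (g i) v‖ ^ 2 = En ρ p g v := rfl
    rw [e]
    have h1 : dist (u 0) w = ‖v - w‖ := by rw [dist_eq_norm]; rfl
    rw [h1] at hd2
    have h2 : ‖v - w‖ ^ 2 ≤ (Real.sqrt (En ρ p g v / d) / (1 - Real.sqrt q)) ^ 2 :=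
      pow_le_pow_left₀ (norm_nonneg _) hd2 2
    rw [div_pow, Real.sq_sqrt (div_nonneg (En_nonneg ρ p g v) (by linarith))] at h2
    have h3 : 1 - Real.sqrt q ≠ 0 := by linarith
    calc _ ≤ _ := h2
      _ = _ := by field_simp

end GSR
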