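import Pool.Agent.GSR.Alg

/-!
# Golod relations: light finite families generate nilpotent subalgebras
-/

set_option autoImplicit false

namespace GSR

open MonoidAlgebra
open scoped ENNReal NNReal

variable {K : Type*} [Field K] {d : ℕ}

theorem countable_FA [Finite K] : Countable (FA K d) := by
  have : Countable (FreeMonoid (Fin d)) := inferInstanceAs (Countable (List (Fin d)))
  exact Function.Injective.countable
    (coeff_injective : Function.Injective (coeff : FA K d → (FreeMonoid (Fin d) →₀ K)))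

/-- A light family: elements with a lower bound for their order, of total weight less than one. -/
def Light (t : ℝ) (l : List (FA K d × ℕ)) : Prop :=
  (∀ q ∈ l, q.1 ∈ Fil K d q.2) ∧ (l.map fun q => t ^ q.2).sum < 1

theorem prod_mem_Fil (q : List (FA K d × ℕ)) (h : ∀ x ∈ q, x.1 ∈ Fil K d x.2) :
    (q.map Prod.fst).prod ∈ Fil K d (q.map Prod.snd).sum := by
  induction q with
  | nil => simp [Fil_zero]
  | cons a q ih =>
    rw [List.map_cons, List.map_cons, List.prod_cons, List.sum_cons]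
    exact mul_mem_Fil (h a List.mem_cons_self)
      (ih fun x hx => h x (List.mem_cons_of_mem _ hx))

/-- The relations for one light family: the total weight can be made as small as we please. -/
theorem exists_exponent {t : ℝ} (ht1 : t < 1) {W : ℝ} (hW : W < 1)
    {ε : ℝ≥0} (hε : 0 < ε) :
    ∃ m : ℕ, 1 ≤ m ∧ ENNReal.ofReal W ^ m * (1 - ENNReal.ofReal t)⁻¹ ≤ ε := by
  have h0 : ENNReal.ofReal W < 1 := by
    rw [← ENNReal.ofReal_one]
    exact (ENNReal.ofReal_lt_ofReal_iff one_pos).2 hW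
  have ht0 : ENNReal.ofReal t < 1 := by
    rw [← ENNReal.ofReal_one]
    exact (ENNReal.ofReal_lt_ofReal_iff one_pos).2 ht1
  have h1 : Filter.Tendsto (fun m : ℕ => ENNReal.ofReal W ^ m * (1 - ENNReal.ofReal t)⁻¹)
      Filter.atTop (nhds (0 * (1 - ENNReal.ofReal t)⁻¹)) := by
    apply ENNReal.Tendsto.mul_const (ENNReal.tendsto_pow_atTop_nhds_zero_of_lt_one h0)
    right
    rw [Ne, ENNReal.inv_eq_top]
    exact (tsub_pos_of_lt ht0).ne'
  rw [zero_mul] at h1
  have hε' : (0 : ℝ≥0∞) < ε := by exact_mod_cast hε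
  have h2 := (h1.eventually (gt_mem_nhds hε')).and (Filter.eventually_ge_atTop 1)
  obtain ⟨m, hm1, hm2⟩ := h2.exists
  exact ⟨m, hm2, hm1.le⟩

theorem exists_golod {K : Type} [Field K] [Finite K] {d : ℕ} {t : ℝ} (ht : 0 < t) (ht1 : t < 1) {ε : ℝ} (hε : 0 < ε) :
    ∃ (ι : Type) (ρ : ι → FA K d) (deg : ι → ℕ), (∀ i, 1 ≤ deg i) ∧
      (∀ i, ρ i ∈ Hom K d (deg i)) ∧ (∀ s : Finset ι, ∑ i ∈ s, t ^ deg i ≤ ε) ∧
      ∀ l : List (FA K d × ℕ), Light t l → ∃ m : ℕ, ∀ q : List (FA K d × ℕ),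
        q.length = m → (∀ x ∈ q, x ∈ l) → (q.map Prod.fst).prod ∈ relSpan ρ := by
  classical
  have := countable_FA (K := K) (d := d)
  have : Countable {l : List (FA K d × ℕ) // Light t l} := inferInstance
  have hε0 : ENNReal.ofReal ε ≠ 0 := by
    rw [Ne, ENNReal.ofReal_eq_zero]; exact not_le.2 hε
  obtain ⟨ε', hε', hsum⟩ := ENNReal.exists_pos_sum_of_countable hε0
    {l : List (FA K d × ℕ) // Light t l}
  choose m hm1 hm using fun l : {l : List (FA K d × ℕ) // Light t l} =>
    exists_exponent ht1 l.2.2 (hε' l)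
  let ι := Σ l : {l : List (FA K d × ℕ) // Light t l}, (Fin (m l) → Fin l.1.length) × ℕ
  let base : ι → ℕ := fun i => ∑ a, (i.1.1.get (i.2.1 a)).2
  let deg : ι → ℕ := fun i => base i + i.2.2
  let pr : ι → FA K d := fun i =>
    (List.ofFn fun a => (i.1.1.get (i.2.1 a)).1).prod
  refine ⟨ι, fun i => comp (deg i) (pr i), deg, ?_, fun i => comp_mem_Hom _ _, ?_, ?_⟩
  · rintro ⟨l, j, c⟩
    have h1 : ∀ q ∈ l.1, 1 ≤ q.2 := by
      intro q hq
      by_contra h
      have h0 : q.2 = 0 := by omega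
      have h2 : t ^ q.2 ≤ (l.1.map fun q => t ^ q.2).sum := by
        apply List.single_le_sum
        · intro x hx
          rw [List.mem_map] at hx
          obtain ⟨q', _, rfl⟩ := hx
          positivity
        · exact List.mem_map.2 ⟨q, hq, rfl⟩
      rw [h0, pow_zero] at h2
      exact absurd (h2.trans_lt l.2.2) (lt_irrefl _)
    have h2 : (l.1.get (j ⟨0, hm1 l⟩)).2 ≤ ∑ a, (l.1.get (j a)).2 :=
      Finset.single_le_sum (f := fun a => (l.1.get (j a)).2) (fun a _ => Nat.zero_le _)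
        (Finset.mem_univ _)
    have h3 := h1 _ (List.get_mem l.1 (j ⟨0, hm1 l⟩))
    show 1 ≤ (∑ a, (l.1.get (j a)).2) + c
    omega
  · intro s
    have key : ∑' i : ι, ENNReal.ofReal t ^ deg i ≤ ENNReal.ofReal ε := by
      have h1 : ∑' i : ι, ENNReal.ofReal t ^ deg i
          = ∑' l : {l : List (FA K d × ℕ) // Light t l},
            ENNReal.ofReal (l.1.map fun q => t ^ q.2).sum ^ m l * (1 - ENNReal.ofReal t)⁻¹ := by
        rw [ENNReal.tsum_sigma']
        congr 1
        funext l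
        rw [ENNReal.tsum_prod', tsum_fintype]
        have h2 : ∀ j : Fin (m l) → Fin l.1.length,
            ∑' c : ℕ, ENNReal.ofReal t ^ deg ⟨l, (j, c)⟩
              = (∏ a, ENNReal.ofReal t ^ (l.1.get (j a)).2) * (1 - ENNReal.ofReal t)⁻¹ := by
          intro j
          rw [← ENNReal.tsum_geometric, ← ENNReal.tsum_mul_left]
          congr 1
          funext c
          show ENNReal.ofReal t ^ ((∑ a, (l.1.get (j a)).2) + c) = _
          rw [pow_add, Finset.prod_pow_eq_pow_sum]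
        rw [Finset.sum_congr rfl fun j _ => h2 j, ← Finset.sum_mul]
        congr 1
        have h3 := Fintype.sum_pow (fun k : Fin l.1.length =>
          ENNReal.ofReal t ^ (l.1.get k).2) (m l)
        rw [← h3]
        congr 1
        have h4 : (l.1.map fun q => t ^ q.2).sum = ∑ k : Fin l.1.length, t ^ (l.1.get k).2 := by
          rw [← List.sum_ofFn]
          congr 1
          apply List.ext_get
          · simp
          · intro n h h'
            simp
        rw [h4, ENNReal.ofReal_sum_of_nonneg (fun k _ => by positivity)]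
        refine Finset.sum_congr rfl fun k _ => ?_
        rw [ENNReal.ofReal_pow ht.le]
      rw [h1]
      refine (ENNReal.tsum_le_tsum fun l => hm l).trans hsum.le
    have h2 : ∑ i ∈ s, ENNReal.ofReal t ^ deg i ≤ ENNReal.ofReal ε :=
      (ENNReal.sum_le_tsum s).trans key
    have h3 : ENNReal.ofReal (∑ i ∈ s, t ^ deg i) ≤ ENNReal.ofReal ε := by
      rw [ENNReal.ofReal_sum_of_nonneg (fun i _ => by positivity)]
      refine le_trans (le_of_eq ?_) h2
      refine Finset.sum_congr rfl fun i _ => ?_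
      rw [ENNReal.ofReal_pow ht.le]
    exact (ENNReal.ofReal_le_ofReal_iff hε.le).1 h3
  · intro l hl
    refine ⟨m ⟨l, hl⟩, ?_⟩
    intro q hq hql
    have hj : ∀ a : Fin (m ⟨l, hl⟩), ∃ k : Fin l.length,
        l.get k = q.get ⟨a, by rw [hq]; exact a.2⟩ := by
      intro a
      have h1 := hql _ (List.get_mem q ⟨a, by rw [hq]; exact a.2⟩)
      obtain ⟨k, hk⟩ := List.get_of_mem h1
      exact ⟨k, hk⟩
    choose j hj using hj
    have hq1 : q = List.ofFn fun a => l.get (j a) := by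
      apply List.ext_get
      · rw [List.length_ofFn, hq]
      · intro n h h'
        rw [List.get_ofFn, hj]
        rfl
    have hprod : (q.map Prod.fst).prod = pr ⟨⟨l, hl⟩, (j, 0)⟩ := by
      show _ = (List.ofFn fun a => (l.get (j a)).1).prod
      rw [hq1, List.map_ofFn]
      rfl
    have hbase : (q.map Prod.snd).sum = base ⟨⟨l, hl⟩, (j, 0)⟩ := by
      show _ = ∑ a, (l.get (j a)).2
      rw [hq1, List.map_ofFn, List.sum_ofFn]
      rfl
    have hFil : pr ⟨⟨l, hl⟩, (j, 0)⟩ ∈ Fil K d (base ⟨⟨l, hl⟩, (j, 0)⟩) := by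
      rw [← hprod, ← hbase]
      exact prod_mem_Fil q fun x hx => hl.1 x (hql x hx)
    rw [hprod]
    obtain ⟨N, hN⟩ := exists_sum_comp (pr ⟨⟨l, hl⟩, (j, 0)⟩)
    rw [hN]
    refine Submodule.sum_mem _ ?_
    intro n _
    by_cases hn : n < base ⟨⟨l, hl⟩, (j, 0)⟩
    · rw [mem_Fil_iff_comp.1 hFil n hn]
      exact Submodule.zero_mem _
    · push Not at hn
      have h1 := gen_mem (fun i => comp (deg i) (pr i))
        (⟨⟨l, hl⟩, (j, n - base ⟨⟨l, hl⟩, (j, 0)⟩)⟩ : ι)
      have h2 : deg ⟨⟨l, hl⟩, (j, n - base ⟨⟨l, hl⟩, (j, 0)⟩)⟩ = n := by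
        show base ⟨⟨l, hl⟩, (j, 0)⟩ + (n - base ⟨⟨l, hl⟩, (j, 0)⟩) = n
        omega
      have h3 : pr ⟨⟨l, hl⟩, (j, n - base ⟨⟨l, hl⟩, (j, 0)⟩)⟩ = pr ⟨⟨l, hl⟩, (j, 0)⟩ := rfl
      simp only [h2, h3] at h1
      exact h1

end GSR
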