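import Pool.Agent.GSR.Golod

/-!
# The group of a homogeneous presentation
-/

set_option autoImplicit false

namespace GSR

open MonoidAlgebra
open scoped Pointwise

/-! ### Nilpotent families generate finite groups -/

section Nil

variable {K B : Type*} [Field K] [Finite K] [Ring B] [Algebra K B]

theorem finite_adjoin_of_nilpotent (Y : Set B) (hY : Y.Finite) (m : ℕ)
    (h : ∀ q : List B, q.length = m → (∀ y ∈ q, y ∈ Y) → q.prod = 0) :
    ((Algebra.adjoin K Y : Subalgebra K B) : Set B).Finite := by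
  have hc : (Submonoid.closure Y : Set B).Finite := by
    have hfin : (((fun q : List Y => (q.map Subtype.val).prod) '' {q | q.length < m}) ∪ {0}).Finite := by
      have : Finite Y := hY.to_subtype
      exact ((List.finite_length_lt Y m).image _).union (Set.finite_singleton 0)
    refine hfin.subset ?_
    intro x hx
    obtain ⟨q, hq, rfl⟩ := Submonoid.exists_list_of_mem_closure hx
    by_cases hlen : q.length < m
    · left
      refine ⟨q.attach.map (fun y => (⟨y.1, hq y.1 y.2⟩ : Y)), ?_, ?_⟩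
      · show (q.attach.map _).length < m
        rw [List.length_map, List.length_attach]
        exact hlen
      · show ((q.attach.map _).map _).prod = _
        rw [List.map_map]
        congr 1
        conv_rhs => rw [← List.attach_map_subtype_val q]
        rfl
    · right
      push Not at hlen
      rw [Set.mem_singleton_iff, ← List.take_append_drop m q, List.prod_append,
        h (q.take m) (by rw [List.length_take]; omega)
          (fun y hy => hq y (List.mem_of_mem_take hy)), zero_mul]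
  have h1 : ((Algebra.adjoin K Y : Subalgebra K B) : Set B)
      = (Submodule.span K (Submonoid.closure Y : Set B) : Set B) := by
    rw [← Algebra.adjoin_eq_span]
    rfl
  rw [h1]
  have : Module.Finite K (Submodule.span K (Submonoid.closure Y : Set B)) :=
    Module.Finite.span_of_finite K hc
  have : Finite (Submodule.span K (Submonoid.closure Y : Set B)) := Module.finite_of_finite K
  exact Set.toFinite _

theorem finite_closure_of_nilpotent (K : Type*) {B : Type*} [Field K] [Finite K] [Ring B]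
    [Algebra K B] (L : Set Bˣ) (hL : L.Finite) (m : ℕ)
    (h : ∀ q : List B, q.length = m → (∀ y ∈ q, ∃ x ∈ L, y = (x : B) - 1) → q.prod = 0) :
    (Subgroup.closure L : Set Bˣ).Finite := by
  set Y : Set B := (fun x : Bˣ => (x : B) - 1) '' L with hYdef
  have hY : Y.Finite := hL.image _
  have hS := finite_adjoin_of_nilpotent (K := K) Y hY m (by
    intro q hq hqY
    apply h q hq
    intro y hy
    obtain ⟨x, hx, rfl⟩ := hqY y hy
    exact ⟨x, hx, rfl⟩)
  set S : Subalgebra K B := Algebra.adjoin K Y with hSdef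
  have hgen : ∀ x ∈ L, (x : B) ∈ S ∧ ((x⁻¹ : Bˣ) : B) ∈ S := by
    intro x hx
    have hy : (x : B) - 1 ∈ S := Algebra.subset_adjoin ⟨x, hx, rfl⟩
    have hpow : ((x : B) - 1) ^ m = 0 := by
      rw [← List.prod_replicate]
      apply h _ List.length_replicate
      intro y hy
      rw [List.eq_of_mem_replicate hy]
      exact ⟨x, hx, rfl⟩
    constructor
    · have := S.add_mem hy S.one_mem
      rwa [sub_add_cancel] at this
    · have h1 : (∑ i ∈ Finset.range m, (-((x : B) - 1)) ^ i) * (1 - -((x : B) - 1)) = 1 := by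
        rw [geom_sum_mul_neg, neg_pow, hpow, mul_zero, sub_zero]
      have h2 : (1 - -((x : B) - 1)) = (x : B) := by abel
      rw [h2] at h1
      have h3 : ((x⁻¹ : Bˣ) : B) = ∑ i ∈ Finset.range m, (-((x : B) - 1)) ^ i := by
        have h4 := congrArg (fun z => z * ((x⁻¹ : Bˣ) : B)) h1
        simp only [mul_assoc, Units.mul_inv, mul_one, one_mul] at h4
        exact h4.symm
      rw [h3]
      exact S.sum_mem fun i _ => S.pow_mem (S.neg_mem hy) i
  have hfin : {u : Bˣ | (u : B) ∈ S ∧ ((u⁻¹ : Bˣ) : B) ∈ S}.Finite := by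
    refine Set.Finite.subset (hS.preimage (f := fun u : Bˣ => (u : B)) ?_) ?_
    · exact Units.val_injective.injOn
    · intro u hu
      exact hu.1
  refine hfin.subset ?_
  intro u hu
  induction hu using Subgroup.closure_induction with
  | mem x hx => exact hgen x hx
  | one => simp [S.one_mem]
  | mul x y _ _ hx hy =>
    refine ⟨?_, ?_⟩
    · rw [Units.val_mul]; exact S.mul_mem hx.1 hy.1
    · rw [mul_inv_rev, Units.val_mul]; exact S.mul_mem hy.2 hx.2
  | inv x _ hx => exact ⟨hx.2, by rw [inv_inv]; exact hx.1⟩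

end Nil

/-! ### The quotient algebra and its congruence subgroups -/

section Quot

variable {K : Type} [Field K] {d : ℕ} {ι : Type} (ρ : ι → FA K d)

/-- The quotient algebra. -/
abbrev QA := FA K d ⧸ relIdeal ρ

/-- The quotient map. -/
noncomputable abbrev mkQ : FA K d →ₐ[K] QA ρ := Ideal.Quotient.mkₐ K (relIdeal ρ)

theorem mkQ_eq_zero {a : FA K d} : mkQ ρ a = 0 ↔ a ∈ relSpan ρ := by
  show Ideal.Quotient.mk (relIdeal ρ) a = 0 ↔ _
  rw [Ideal.Quotient.eq_zero_iff_mem]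
  exact mem_relIdeal ρ

theorem mkQ_surjective : Function.Surjective (mkQ ρ) := Ideal.Quotient.mk_surjective

/-- The image of the `n`-th step of the filtration. -/
noncomputable def FQ (n : ℕ) : Submodule K (QA ρ) := (Fil K d n).map (mkQ ρ).toLinearMap

theorem mem_FQ {n : ℕ} {b : QA ρ} : b ∈ FQ ρ n ↔ ∃ a ∈ Fil K d n, mkQ ρ a = b := by
  rw [FQ, Submodule.mem_map]
  rfl

theorem FQ_mul_left {n : ℕ} {b c : QA ρ} (hc : c ∈ FQ ρ n) : b * c ∈ FQ ρ n := by
  obtain ⟨a, ha, rfl⟩ := (mem_FQ ρ).1 hc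
  obtain ⟨b', rfl⟩ := mkQ_surjective ρ b
  exact (mem_FQ ρ).2 ⟨b' * a, mul_left_mem_Fil ha, map_mul _ _ _⟩

theorem FQ_mul_right {n : ℕ} {b c : QA ρ} (hc : c ∈ FQ ρ n) : c * b ∈ FQ ρ n := by
  obtain ⟨a, ha, rfl⟩ := (mem_FQ ρ).1 hc
  obtain ⟨b', rfl⟩ := mkQ_surjective ρ b
  exact (mem_FQ ρ).2 ⟨a * b', mul_right_mem_Fil ha, map_mul _ _ _⟩

/-- The congruence subgroups of the unit group. -/
noncomputable def DQ (n : ℕ) : Subgroup (QA ρ)ˣ where
  carrier := {u | (u : QA ρ) - 1 ∈ FQ ρ n}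
  one_mem' := by
    show ((1 : (QA ρ)ˣ) : QA ρ) - 1 ∈ FQ ρ n
    rw [Units.val_one, sub_self]
    exact Submodule.zero_mem _
  mul_mem' := by
    intro u v hu hv
    show ((u * v : (QA ρ)ˣ) : QA ρ) - 1 ∈ FQ ρ n
    have h1 : ((u * v : (QA ρ)ˣ) : QA ρ) - 1 = ((u : QA ρ) - 1) * v + ((v : QA ρ) - 1) := by
      rw [Units.val_mul, sub_mul, one_mul]; abel
    rw [h1]
    exact Submodule.add_mem _ (FQ_mul_right ρ hu) hv
  inv_mem' := by
    intro u hu
    show ((u⁻¹ : (QA ρ)ˣ) : QA ρ) - 1 ∈ FQ ρ n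
    have h1 : ((u⁻¹ : (QA ρ)ˣ) : QA ρ) - 1
        = -(((u⁻¹ : (QA ρ)ˣ) : QA ρ) * ((u : QA ρ) - 1)) := by
      rw [mul_sub, Units.inv_mul, mul_one]; abel
    rw [h1]
    exact Submodule.neg_mem _ (FQ_mul_left ρ hu)

theorem mem_DQ {n : ℕ} {u : (QA ρ)ˣ} : u ∈ DQ ρ n ↔ (u : QA ρ) - 1 ∈ FQ ρ n := Iff.rfl

theorem DQ_anti : Antitone (DQ ρ) := by
  intro m n h u hu
  obtain ⟨a, ha, h1⟩ := (mem_FQ ρ).1 hu
  exact (mem_FQ ρ).2 ⟨a, Fil_anti h ha, h1⟩

instance DQ_normal (n : ℕ) : (DQ ρ n).Normal := by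
  refine ⟨fun u hu v => ?_⟩
  show ((v * u * v⁻¹ : (QA ρ)ˣ) : QA ρ) - 1 ∈ FQ ρ n
  have h1 : ((v * u * v⁻¹ : (QA ρ)ˣ) : QA ρ) - 1
      = v * ((u : QA ρ) - 1) * ((v⁻¹ : (QA ρ)ˣ) : QA ρ) := by
    rw [Units.val_mul, Units.val_mul, mul_sub, mul_one, sub_mul, Units.mul_inv]
  rw [h1]
  exact FQ_mul_right ρ (FQ_mul_left ρ hu)

theorem finite_words (n : ℕ) : Finite {w : FreeMonoid (Fin d) // FreeMonoid.length w < n} :=
  (List.finite_length_lt (Fin d) n).to_subtype

theorem geom_lt {d : ℕ} (hd : 2 ≤ d) (n : ℕ) : ∑ i ∈ Finset.range n, d ^ i < d ^ n := by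
  induction n with
  | zero => simp
  | succ n ih =>
    rw [Finset.sum_range_succ, pow_succ]
    have h1 : 0 < d ^ n := by positivity
    nlinarith

theorem card_words {d : ℕ} (hd : 2 ≤ d) (n : ℕ) :
    Nat.card {w : FreeMonoid (Fin d) // FreeMonoid.length w < n} ≤ d ^ n := by
  let f : (Σ i : Fin n, (Fin i → Fin d)) → {w : FreeMonoid (Fin d) // FreeMonoid.length w < n} :=
    fun x => ⟨FreeMonoid.ofList (List.ofFn x.2), by
      show (List.ofFn x.2).length < n
      rw [List.length_ofFn]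
      exact x.1.2⟩
  have hf : Function.Surjective f := by
    rintro ⟨w, hw⟩
    refine ⟨⟨⟨FreeMonoid.length w, hw⟩, fun i => (FreeMonoid.toList w).get i⟩, ?_⟩
    apply Subtype.ext
    show FreeMonoid.ofList (List.ofFn fun i => (FreeMonoid.toList w).get i) = w
    rw [List.ofFn_get]
    rfl
  have h1 := Nat.card_le_card_of_surjective f hf
  refine h1.trans ?_
  rw [Nat.card_eq_fintype_card, Fintype.card_sigma]
  simp only [Fintype.card_fun, Fintype.card_fin]
  rw [Fin.sum_univ_eq_sum_range (fun i => d ^ i) n]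
  exact (geom_lt hd n).le

theorem DQ_index_aux [Finite K] (n : ℕ) :
    Finite ((QA ρ)ˣ ⧸ DQ ρ n) ∧ Nat.card ((QA ρ)ˣ ⧸ DQ ρ n) ≤
      Nat.card K ^ Nat.card {w : FreeMonoid (Fin d) // FreeMonoid.length w < n} := by
  have := finite_words (d := d) n
  let T := {w : FreeMonoid (Fin d) // FreeMonoid.length w < n} → K
  have hT : Finite T := inferInstance
  let lift : QA ρ → FA K d := fun b => (mkQ_surjective ρ b).choose
  have hlift : ∀ b, mkQ ρ (lift b) = b := fun b => (mkQ_surjective ρ b).choose_spec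
  let f : (QA ρ)ˣ → T := fun u w => (lift (u : QA ρ)).coeff w.1
  have hf : ∀ u v, f u = f v → v⁻¹ * u ∈ DQ ρ n := by
    intro u v huv
    have h1 : lift (u : QA ρ) - lift (v : QA ρ) ∈ Fil K d n := by
      intro w hw
      by_contra hlt
      push Not at hlt
      have h2 := congrFun huv ⟨w, hlt⟩
      apply hw
      rw [coeff_sub, Finsupp.sub_apply]
      exact sub_eq_zero.2 h2
    have h2 : (u : QA ρ) - (v : QA ρ) ∈ FQ ρ n := by
      refine (mem_FQ ρ).2 ⟨_, h1, ?_⟩
      rw [map_sub, hlift, hlift]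
    show ((v⁻¹ * u : (QA ρ)ˣ) : QA ρ) - 1 ∈ FQ ρ n
    have h3 : ((v⁻¹ * u : (QA ρ)ˣ) : QA ρ) - 1
        = ((v⁻¹ : (QA ρ)ˣ) : QA ρ) * ((u : QA ρ) - (v : QA ρ)) := by
      rw [mul_sub, Units.inv_mul, Units.val_mul]
    rw [h3]
    exact FQ_mul_left ρ h2
  have hinj : Function.Injective (fun q : (QA ρ)ˣ ⧸ DQ ρ n => f q.out) := by
    intro q q' h
    have h1 := hf _ _ h
    rw [← QuotientGroup.out_eq' q, ← QuotientGroup.out_eq' q']
    exact (QuotientGroup.eq.2 h1).symm
  refine ⟨Finite.of_injective _ hinj, ?_⟩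
  refine (Nat.card_le_card_of_injective _ hinj).trans ?_
  have h2 : Nat.card T = Nat.card K
      ^ Nat.card {w : FreeMonoid (Fin d) // FreeMonoid.length w < n} := by
    rw [Nat.card_fun]
  rw [h2]

instance DQ_finiteIndex [Finite K] (n : ℕ) : (DQ ρ n).FiniteIndex := by
  have := (DQ_index_aux ρ n).1
  exact Subgroup.finiteIndex_of_finite_quotient

theorem DQ_index [Finite K] (hd : 2 ≤ d) (n : ℕ) : (DQ ρ n).index ≤ Nat.card K ^ d ^ n := by
  refine (DQ_index_aux ρ n).2.trans ?_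
  exact Nat.pow_le_pow_right Nat.card_pos (card_words hd n)

theorem eq_one_of_mem_DQ {deg : ι → ℕ} (hρ : ∀ i, ρ i ∈ Hom K d (deg i)) {u : (QA ρ)ˣ}
    (hu : ∀ n, u ∈ DQ ρ n) : u = 1 := by
  obtain ⟨a, ha⟩ := mkQ_surjective ρ ((u : QA ρ) - 1)
  have h1 : ∀ n, comp n a ∈ relSpan ρ := by
    intro n
    obtain ⟨b, hb, hb'⟩ := (mem_FQ ρ).1 (hu (n + 1))
    have h2 : a - b ∈ relSpan ρ := by
      rw [← mkQ_eq_zero, map_sub, ha, hb', sub_self]
    have h3 := comp_mem_relSpan ρ hρ n h2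
    rwa [map_sub, mem_Fil_iff_comp.1 hb n (Nat.lt_succ_self n), sub_zero] at h3
  have h2 : a ∈ relSpan ρ := by
    obtain ⟨N, hN⟩ := exists_sum_comp a
    rw [hN]
    exact Submodule.sum_mem _ fun n _ => h1 n
  rw [← mkQ_eq_zero, ha] at h2
  apply Units.ext
  rw [Units.val_one]
  exact sub_eq_zero.1 h2

/-- The finiteness property from the Golod relations. -/
theorem finite_closure_of_light [Finite K] {t : ℝ}
    (hG : ∀ l : List (FA K d × ℕ), Light t l → ∃ m : ℕ, ∀ q : List (FA K d × ℕ),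
        q.length = m → (∀ x ∈ q, x ∈ l) → (q.map Prod.fst).prod ∈ relSpan ρ)
    (L : Finset (QA ρ)ˣ) (s : (QA ρ)ˣ → ℕ) (hs : ∀ x ∈ L, x ∈ DQ ρ (s x))
    (hw : ∑ x ∈ L, t ^ s x < 1) : (Subgroup.closure (L : Set (QA ρ)ˣ) : Set (QA ρ)ˣ).Finite := by
  classical
  have h1 : ∀ x : (QA ρ)ˣ, ∃ a : FA K d, x ∈ L → a ∈ Fil K d (s x) ∧ mkQ ρ a = (x : QA ρ) - 1 := by
    intro x
    by_cases hx : x ∈ L
    · obtain ⟨a, ha, ha'⟩ := (mem_FQ ρ).1 (hs x hx)
      exact ⟨a, fun _ => ⟨ha, ha'⟩⟩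
    · exact ⟨0, fun h => absurd h hx⟩
  choose a ha using h1
  have hl : Light t (L.toList.map fun x => (a x, s x)) := by
    constructor
    · intro q hq
      rw [List.mem_map] at hq
      obtain ⟨x, hx, rfl⟩ := hq
      exact (ha x (Finset.mem_toList.1 hx)).1
    · rw [List.map_map]
      have : (L.toList.map ((fun q : FA K d × ℕ => t ^ q.2) ∘ fun x => (a x, s x))).sum
          = ∑ x ∈ L, t ^ s x := by
        rw [← Finset.sum_map_toList]
        rfl
      rw [this]
      exact hw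
  obtain ⟨m, hm⟩ := hG _ hl
  refine finite_closure_of_nilpotent K (L : Set (QA ρ)ˣ) L.finite_toSet m ?_
  intro q hq hqL
  have h2 : ∀ y ∈ q, ∃ x : (QA ρ)ˣ, x ∈ L ∧ y = mkQ ρ (a x) := by
    intro y hy
    obtain ⟨x, hx, rfl⟩ := hqL y hy
    exact ⟨x, hx, ((ha x hx).2).symm⟩
  have h3 : ∃ r : List (QA ρ)ˣ, (∀ x ∈ r, x ∈ L) ∧ q = r.map (fun x => mkQ ρ (a x)) := by
    clear hq hqL
    induction q with
    | nil => exact ⟨[], by simp, rfl⟩
    | cons y q ih =>
      obtain ⟨r, hr, hr'⟩ := ih (fun y hy => h2 y (List.mem_cons_of_mem _ hy))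
      obtain ⟨x, hx, hx'⟩ := h2 y List.mem_cons_self
      refine ⟨x :: r, ?_, ?_⟩
      · intro z hz
        rcases List.mem_cons.1 hz with rfl | hz
        · exact hx
        · exact hr z hz
      · rw [List.map_cons, ← hx', ← hr']
  obtain ⟨r, hr, rfl⟩ := h3
  have h4 := hm (r.map fun x => (a x, s x)) (by
    rw [List.length_map] at hq ⊢; exact hq) (by
    intro x hx
    rw [List.mem_map] at hx ⊢
    obtain ⟨y, hy, rfl⟩ := hx
    exact ⟨y, Finset.mem_toList.2 (hr y hy), rfl⟩)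
  rw [List.map_map] at h4
  have h5 : (r.map (fun x => mkQ ρ (a x))).prod
      = mkQ ρ (r.map (Prod.fst ∘ fun x => (a x, s x))).prod := by
    rw [map_list_prod, List.map_map]
    rfl
  rw [h5, mkQ_eq_zero]
  exact h4

/-- If every homogeneous component of the quotient is nonzero, the quotient is infinite. -/
theorem infinite_QA {deg : ι → ℕ} (hρ : ∀ i, ρ i ∈ Hom K d (deg i))
    (hinf : ∀ n : ℕ, ∃ u ∈ Hom K d n, u ∉ relSpan ρ) : Infinite (QA ρ) := by
  choose u hu hu' using hinf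
  apply Infinite.of_injective (fun n => mkQ ρ (u n))
  intro m n hmn
  by_contra hne
  have h1 : u m - u n ∈ relSpan ρ := by
    rw [← mkQ_eq_zero, map_sub]
    exact sub_eq_zero.2 hmn
  have h2 := comp_mem_relSpan ρ hρ n h1
  rw [map_sub, comp_of_mem (hu n), comp_of_mem_ne (hu m) hne, zero_sub] at h2
  exact hu' n (by simpa using (relSpan ρ).neg_mem h2)

end Quot

end GSR
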