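import Pool.Agent.GSR.Group
import Pool.Agent.GSR.GS

/-!
# The Golod-Shafarevich group generated by Heisenberg pairs
-/

set_option autoImplicit false

namespace GSR

open MonoidAlgebra
open scoped Pointwise

/-! ### Identities for square-zero elements -/

section Ids

variable {B : Type*} [Ring B]

theorem one_add_pow_of_sq {x : B} (hx : x * x = 0) (n : ℕ) : (1 + x) ^ n = 1 + n * x := by
  induction n with
  | zero => simp
  | succ n ih =>
    rw [pow_succ, ih]
    have h1 : (1 + (n : B) * x) * (1 + x) = 1 + x + (n : B) * x + (n : B) * (x * x) := by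
      noncomm_ring
    rw [h1, hx, mul_zero, add_zero, Nat.cast_succ, add_mul, one_mul]
    abel

/-- The unit `1 + x` for a square-zero element `x`. -/
def sqUnit (x : B) (hx : x * x = 0) : Bˣ where
  val := 1 + x
  inv := 1 - x
  val_inv := by
    have h1 : (1 + x) * (1 - x) = 1 - x * x := by noncomm_ring
    rw [h1, hx, sub_zero]
  inv_val := by
    have h1 : (1 - x) * (1 + x) = 1 - x * x := by noncomm_ring
    rw [h1, hx, sub_zero]

theorem comm_val {x y : B} (hx : x * x = 0) (hy : y * y = 0) (hxyx : x * y * x = 0)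
    (hyxy : y * x * y = 0) :
    ((sqUnit x hx * sqUnit y hy * (sqUnit x hx)⁻¹ * (sqUnit y hy)⁻¹ : Bˣ) : B)
      = 1 + (x * y - y * x) := by
  have h0 : ((sqUnit x hx * sqUnit y hy * (sqUnit x hx)⁻¹ * (sqUnit y hy)⁻¹ : Bˣ) : B)
      = (1 + x) * (1 + y) * (1 - x) * (1 - y) := rfl
  have h1 : (1 + x) * (1 + y) * (1 - x) * (1 - y)
      = 1 + (x * y - y * x) - x * x + (x * x) * y - y * y + y * x * y - x * y * x
        - x * (y * y) + (x * y * x) * y := by noncomm_ring
  rw [h0, h1, hx, hy, hxyx, hyxy]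
  simp

theorem comm_sq {x y : B} (hx : x * x = 0) (hy : y * y = 0) (hxyx : x * y * x = 0)
    (hyxy : y * x * y = 0) : (x * y - y * x) * (x * y - y * x) = 0 := by
  have h1 : (x * y - y * x) * (x * y - y * x)
      = (x * y * x) * y - x * (y * y) * x - y * (x * x) * y + (y * x * y) * x := by noncomm_ring
  rw [h1, hx, hy, hxyx, hyxy]
  simp

theorem comm_commute {x y : B} (hx : x * x = 0) (hy : y * y = 0) (hxyx : x * y * x = 0)
    (hyxy : y * x * y = 0) :
    Commute (sqUnit x hx * sqUnit y hy * (sqUnit x hx)⁻¹ * (sqUnit y hy)⁻¹) (sqUnit x hx) := by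
  apply Units.ext
  have h0 := comm_val hx hy hxyx hyxy
  generalize sqUnit x hx * sqUnit y hy * (sqUnit x hx)⁻¹ * (sqUnit y hy)⁻¹ = z at h0
  rw [Units.val_mul, Units.val_mul, h0]
  show (1 + (x * y - y * x)) * (1 + x) = (1 + x) * (1 + (x * y - y * x))
  have h1 : (1 + (x * y - y * x)) * (1 + x)
      = 1 + x + (x * y - y * x) + (x * y * x - y * (x * x)) := by noncomm_ring
  have h2 : (1 + x) * (1 + (x * y - y * x))
      = 1 + x + (x * y - y * x) + ((x * x) * y - x * y * x) := by noncomm_ring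
  rw [h1, h2, hx, hxyx]
  simp

theorem unit_pow_eq_one {p : ℕ} (hp : (p : B) = 0) {u : Bˣ} {c : B} (hu : (u : B) = 1 + c)
    (hc : c * c = 0) : u ^ p = 1 := by
  apply Units.ext
  rw [Units.val_pow_eq_pow_val, hu, one_add_pow_of_sq hc, hp, zero_mul, add_zero, Units.val_one]

end Ids

/-! ### The presentation -/

section Pres

variable {K : Type} [Field K] {d : ℕ}

/-- The generators of the free algebra. -/
noncomputable def X (K : Type) [Field K] {d : ℕ} (i : Fin d) : FA K d :=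
  single (FreeMonoid.of i) 1

theorem X_mem (i : Fin d) : X K i ∈ Hom K d 1 := by
  have h := single_mem_Hom (K := K) (FreeMonoid.of i) 1
  rwa [FreeMonoid.length_of] at h

/-- The short relations. -/
noncomputable def rho0 (K : Type) [Field K] {d : ℕ} : Fin d ⊕ (Fin d × Fin d) → FA K d
  | Sum.inl i => X K i * X K i
  | Sum.inr (i, j) => X K i * X K j * X K i

/-- The degrees of the short relations. -/
def deg0 {d : ℕ} : Fin d ⊕ (Fin d × Fin d) → ℕ
  | Sum.inl _ => 2
  | Sum.inr _ => 3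

theorem rho0_mem (i : Fin d ⊕ (Fin d × Fin d)) : rho0 K i ∈ Hom K d (deg0 i) := by
  rcases i with i | ⟨i, j⟩
  · exact mul_mem_Hom (X_mem i) (X_mem i)
  · exact mul_mem_Hom (mul_mem_Hom (X_mem i) (X_mem j)) (X_mem i)

theorem sum_deg0 {t : ℝ} (ht : 0 < t) (s : Finset (Fin d ⊕ (Fin d × Fin d))) :
    ∑ i ∈ s, t ^ deg0 i ≤ d * t ^ 2 + d ^ 2 * t ^ 3 := by
  classical
  have h1 : ∑ i ∈ s, t ^ deg0 i ≤ ∑ i : Fin d ⊕ (Fin d × Fin d), t ^ deg0 i := by
    apply Finset.sum_le_sum_of_subset_of_nonneg (Finset.subset_univ s)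
    intro i _ _
    positivity
  refine h1.trans (le_of_eq ?_)
  rw [Fintype.sum_sum_type]
  simp only [deg0]
  rw [Finset.sum_const, Finset.sum_const, Finset.card_univ, Finset.card_univ, Fintype.card_fin,
    Fintype.card_prod, Fintype.card_fin, nsmul_eq_mul, nsmul_eq_mul]
  push_cast
  ring

theorem exists_group_aux [Finite K] (hd : 2 ≤ d) {p : ℕ} (hpK : (p : K) = 0) {t ε : ℝ} (ht : 0 < t)
    (ht1 : t < 1) (hε : 0 < ε) (hneg : 1 - d * t + (d * t ^ 2 + d ^ 2 * t ^ 3 + ε) < 0) :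
    ∃ (G : Type) (_ : Group G) (g : Fin d → G) (D : ℕ → Subgroup G),
      Subgroup.closure (Set.range g) = ⊤ ∧ Infinite G ∧
      (∀ i, g i ^ p = 1) ∧
      (∀ i j, (g i * g j * (g i)⁻¹ * (g j)⁻¹) ^ p = 1) ∧
      (∀ i j, Commute (g i * g j * (g i)⁻¹ * (g j)⁻¹) (g i)) ∧
      D 1 = ⊤ ∧ Antitone D ∧ (∀ n, (D n).Normal) ∧ (∀ n, (D n).FiniteIndex) ∧
      (∀ n, (D n).index ≤ Nat.card K ^ d ^ n) ∧
      (∀ x, (∀ n, x ∈ D n) → x = 1) ∧
      ∀ (L : Finset G) (s : G → ℕ), (∀ x ∈ L, x ∈ D (s x)) → ∑ x ∈ L, t ^ s x < 1 →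
        (Subgroup.closure (L : Set G) : Set G).Finite := by
  classical
  obtain ⟨ι, ρG, degG, hdegG, hρG, hsumG, hG⟩ := exists_golod (K := K) (d := d) ht ht1 hε
  set ρ : (Fin d ⊕ (Fin d × Fin d)) ⊕ ι → FA K d := Sum.elim (rho0 K) ρG with hρdef
  set deg : (Fin d ⊕ (Fin d × Fin d)) ⊕ ι → ℕ := Sum.elim deg0 degG with hdegdef
  have hdeg : ∀ i, 1 ≤ deg i := by
    rintro ((i | ⟨i, j⟩) | i)
    · show 1 ≤ 2; norm_num
    · show 1 ≤ 3; norm_num
    · exact hdegG i
  have hρ : ∀ i, ρ i ∈ Hom K d (deg i) := by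
    rintro (i | i)
    · exact rho0_mem i
    · exact hρG i
  have hsum : ∀ s : Finset ((Fin d ⊕ (Fin d × Fin d)) ⊕ ι), ∑ i ∈ s, t ^ deg i
      ≤ d * t ^ 2 + d ^ 2 * t ^ 3 + ε := by
    intro s
    rw [← Finset.toLeft_disjSum_toRight (u := s), Finset.sum_disjSum]
    exact add_le_add (sum_deg0 ht _) (hsumG _)
  have hGS := golod_shafarevich ρ deg hdeg hρ ht hsum hneg
  have hle : relSpan ρG ≤ relSpan ρ := by
    apply Submodule.span_mono
    rintro x ⟨i, u, v, rfl⟩
    exact ⟨Sum.inr i, u, v, rfl⟩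
  have hInf := infinite_QA ρ hρ hGS
  -- the generators
  have hx : ∀ i, mkQ ρ (X K i) * mkQ ρ (X K i) = 0 := by
    intro i
    rw [← map_mul, mkQ_eq_zero]
    exact gen_mem ρ (Sum.inl (Sum.inl i))
  have hxyx : ∀ i j, mkQ ρ (X K i) * mkQ ρ (X K j) * mkQ ρ (X K i) = 0 := by
    intro i j
    rw [← map_mul, ← map_mul, mkQ_eq_zero]
    exact gen_mem ρ (Sum.inl (Sum.inr (i, j)))
  have hpB : (p : QA ρ) = 0 := by
    have := congrArg (algebraMap K (QA ρ)) hpK
    rwa [map_natCast, map_zero] at this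
  set g : Fin d → (QA ρ)ˣ := fun i => sqUnit (mkQ ρ (X K i)) (hx i) with hgdef
  have hg1 : ∀ i, g i ^ p = 1 := fun i => unit_pow_eq_one hpB (u := g i) rfl (hx i)
  have hg2 : ∀ i j, (g i * g j * (g i)⁻¹ * (g j)⁻¹) ^ p = 1 := fun i j =>
    unit_pow_eq_one hpB (comm_val (hx i) (hx j) (hxyx i j) (hxyx j i))
      (comm_sq (hx i) (hx j) (hxyx i j) (hxyx j i))
  have hg3 : ∀ i j, Commute (g i * g j * (g i)⁻¹ * (g j)⁻¹) (g i) := fun i j =>
    comm_commute (hx i) (hx j) (hxyx i j) (hxyx j i)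
  set G : Subgroup (QA ρ)ˣ := Subgroup.closure (Set.range g) with hGdef
  have hmem : ∀ i, g i ∈ G := fun i => Subgroup.subset_closure ⟨i, rfl⟩
  refine ⟨G, inferInstance, fun i => ⟨g i, hmem i⟩, fun n => (DQ ρ n).subgroupOf G, ?_, ?_,
    ?_, ?_, ?_, ?_, ?_, ?_, ?_, ?_, ?_, ?_⟩
  · -- generation
    rw [eq_top_iff]
    rintro ⟨u, hu⟩ htriv
    clear htriv
    induction hu using Subgroup.closure_induction with
    | mem x hx =>
      obtain ⟨i, rfl⟩ := hx
      exact Subgroup.subset_closure ⟨i, rfl⟩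
    | one => exact Subgroup.one_mem _
    | mul x y hx hy ihx ihy => exact Subgroup.mul_mem _ ihx ihy
    | inv x hx ih => exact Subgroup.inv_mem _ ih
  · -- infinite
    by_contra hfin
    rw [not_infinite_iff_finite] at hfin
    have hfin' := hfin
    set V : Submodule K (QA ρ) := Submodule.span K
      (Set.range fun u : G => (((u : (QA ρ)ˣ)) : QA ρ)) with hV
    have hVf : Module.Finite K V := Module.Finite.span_of_finite K (Set.finite_range _)
    have hVfin : Finite V := Module.finite_of_finite K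
    have hmul : ∀ i, ∀ v ∈ V, ((g i : (QA ρ)ˣ) : QA ρ) * v ∈ V := by
      intro i v hv
      induction hv using Submodule.span_induction with
      | mem x hx =>
        obtain ⟨u, rfl⟩ := hx
        apply Submodule.subset_span
        refine ⟨⟨g i, hmem i⟩ * u, ?_⟩
        show (((g i * (u : (QA ρ)ˣ)) : (QA ρ)ˣ) : QA ρ) = _
        rw [Units.val_mul]
      | zero => rw [mul_zero]; exact V.zero_mem
      | add x y _ _ hx hy => rw [mul_add]; exact V.add_mem hx hy
      | smul a x _ hx => rw [mul_smul_comm]; exact V.smul_mem _ hx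
    have hwords : ∀ w : FreeMonoid (Fin d), mkQ ρ (single w 1) ∈ V := by
      intro w
      induction w using FreeMonoid.recOn with
      | one =>
        have h1 : mkQ ρ (single (1 : FreeMonoid (Fin d)) 1) = 1 := by
          rw [← MonoidAlgebra.one_def, map_one]
        rw [h1]
        apply Submodule.subset_span
        exact ⟨1, by simp⟩
      | of_mul i w ih =>
        have h1 : mkQ ρ (single (FreeMonoid.of i * w) 1)
            = ((g i : (QA ρ)ˣ) : QA ρ) * mkQ ρ (single w 1) - mkQ ρ (single w 1) := by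
          have h2 : (single (FreeMonoid.of i * w) 1 : FA K d) = X K i * single w 1 := by
            rw [X, single_mul_single, mul_one]
          have h3 : ((g i : (QA ρ)ˣ) : QA ρ) = 1 + mkQ ρ (X K i) := rfl
          rw [h2, map_mul, h3, add_mul, one_mul, add_sub_cancel_left]
        rw [h1]
        exact V.sub_mem (hmul i _ ih) ih
    have hall : ∀ b : QA ρ, b ∈ V := by
      intro b
      obtain ⟨a, rfl⟩ := mkQ_surjective ρ b
      have h1 : a ∈ V.comap (mkQ ρ).toLinearMap := mem_of_words fun w _ => hwords w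
      exact h1
    have : Finite (QA ρ) := Finite.of_injective (fun b => (⟨b, hall b⟩ : V)) (by
      intro b c hbc
      exact congrArg Subtype.val hbc)
    exact not_finite (QA ρ)
  · intro i
    apply Subtype.ext
    exact hg1 i
  · intro i j
    apply Subtype.ext
    exact hg2 i j
  · intro i j
    apply Subtype.ext
    exact hg3 i j
  · -- D 1 = ⊤
    rw [Subgroup.subgroupOf_eq_top, hGdef, Subgroup.closure_le]
    rintro _ ⟨i, rfl⟩
    show ((g i : (QA ρ)ˣ) : QA ρ) - 1 ∈ FQ ρ 1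
    have h3 : ((g i : (QA ρ)ˣ) : QA ρ) - 1 = mkQ ρ (X K i) := by
      show 1 + mkQ ρ (X K i) - 1 = _
      rw [add_sub_cancel_left]
    rw [h3]
    exact (mem_FQ ρ).2 ⟨_, Hom_le_Fil 1 (X_mem i), rfl⟩
  · intro m n hmn u hu
    exact DQ_anti ρ hmn hu
  · intro n
    infer_instance
  · intro n
    infer_instance
  · intro n
    refine le_trans ?_ (DQ_index ρ hd n)
    exact Nat.le_of_dvd (Nat.pos_of_ne_zero (DQ_finiteIndex ρ n).index_ne_zero)
      (Subgroup.relIndex_dvd_index_of_normal (DQ ρ n) G)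
  · intro u hu
    apply Subtype.ext
    exact eq_one_of_mem_DQ ρ hρ fun n => hu n
  · intro L s hs hw
    set L' : Finset (QA ρ)ˣ := L.map ⟨Subtype.val, Subtype.val_injective⟩ with hL'
    let s' : (QA ρ)ˣ → ℕ := fun u => if h : u ∈ G then s ⟨u, h⟩ else 0
    have hs' : ∀ x : G, s' x = s x := by
      intro x
      show (if h : (x : (QA ρ)ˣ) ∈ G then s ⟨x, h⟩ else 0) = s x
      rw [dif_pos x.2]
    have h1 := finite_closure_of_light ρ (t := t) (fun l hl => by
      obtain ⟨m, hm⟩ := hG l hl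
      exact ⟨m, fun q hq hql => hle (hm q hq hql)⟩) L' s' (by
        intro x hx
        rw [hL', Finset.mem_map] at hx
        obtain ⟨y, hy, rfl⟩ := hx
        show (y : (QA ρ)ˣ) ∈ DQ ρ (s' y)
        rw [hs']
        exact hs y hy) (by
        rw [hL', Finset.sum_map]
        refine lt_of_eq_of_lt (Finset.sum_congr rfl fun x _ => ?_) hw
        show t ^ s' x = t ^ s x
        rw [hs'])
    have h2 : (Subgroup.closure (L : Set G) : Set G)
        ⊆ Subtype.val ⁻¹' (Subgroup.closure (L' : Set (QA ρ)ˣ) : Set (QA ρ)ˣ) := by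
      intro x hx
      have h3 : Subgroup.closure (L : Set G)
          ≤ (Subgroup.closure (L' : Set (QA ρ)ˣ)).comap G.subtype := by
        rw [Subgroup.closure_le]
        intro y hy
        apply Subgroup.subset_closure
        rw [hL', Finset.coe_map]
        exact ⟨y, hy, rfl⟩
      exact h3 hx
    exact (h1.preimage Subtype.val_injective.injOn).subset h2

end Pres

/-- The group. -/
theorem exists_group :
    ∃ (G : Type) (_ : Group G) (g : Fin 16 → G) (D : ℕ → Subgroup G),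
      Subgroup.closure (Set.range g) = ⊤ ∧ Infinite G ∧
      (∀ i, g i ^ 257 = 1) ∧
      (∀ i j, (g i * g j * (g i)⁻¹ * (g j)⁻¹) ^ 257 = 1) ∧
      (∀ i j, Commute (g i * g j * (g i)⁻¹ * (g j)⁻¹) (g i)) ∧
      D 1 = ⊤ ∧ Antitone D ∧ (∀ n, (D n).Normal) ∧ (∀ n, (D n).FiniteIndex) ∧
      (∀ n, (D n).index ≤ 257 ^ 16 ^ n) ∧
      (∀ x, (∀ n, x ∈ D n) → x = 1) ∧
      ∀ (L : Finset G) (s : G → ℕ), (∀ x ∈ L, x ∈ D (s x)) → ∑ x ∈ L, (1 / 8 : ℝ) ^ s x < 1 →
        (Subgroup.closure (L : Set G) : Set G).Finite := by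
  have hp : Fact (Nat.Prime 257) := ⟨by norm_num⟩
  have h := exists_group_aux (K := ZMod 257) (d := 16) (by norm_num) (p := 257) (t := 1 / 8)
    (ε := 1 / 16) (ZMod.natCast_self 257) (by norm_num) (by norm_num) (by norm_num) (by norm_num)
  rw [Nat.card_zmod] at h
  exact h

end GSR
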