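import Pool.Agent.GSR.Defs

/-!
# A group with uniform doubling is not amenable (module B)
-/

set_option autoImplicit false

namespace GSR

open Helper96.Recurrence

namespace NotAmen

theorem isBdd_ind {G : Type*} (p : G → Prop) [DecidablePred p] :
    IsBdd (fun h => if p h then (1 : ℝ) else 0) := by
  refine ⟨1, fun g => ?_⟩
  by_cases h : p g <;> simp [h]

theorem isBdd_one {G : Type*} : IsBdd (fun _ : G => (1 : ℝ)) := ⟨1, by simp⟩

theorem isBdd_zero {G : Type*} : IsBdd (fun _ : G => (0 : ℝ)) := ⟨0, by simp⟩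

theorem isBdd_add {G : Type*} {f g : G → ℝ} (hf : IsBdd f) (hg : IsBdd g) :
    IsBdd (fun h => f h + g h) := by
  obtain ⟨C, hC⟩ := hf
  obtain ⟨D, hD⟩ := hg
  exact ⟨C + D, fun h => (abs_add_le _ _).trans (add_le_add (hC h) (hD h))⟩

theorem isBdd_sub {G : Type*} {f g : G → ℝ} (hf : IsBdd f) (hg : IsBdd g) :
    IsBdd (fun h => f h - g h) := by
  obtain ⟨C, hC⟩ := hf
  obtain ⟨D, hD⟩ := hg
  exact ⟨C + D, fun h => (abs_sub _ _).trans (add_le_add (hC h) (hD h))⟩

variable {G : Type*} [Group G] {m : (G → ℝ) → ℝ}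

theorem m_zero (hm : IsLeftInvariantMean m) : m (fun _ => 0) = 0 := by
  have h := hm.smul 0 (fun _ => 1) isBdd_one
  simpa using h

theorem m_sum (hm : IsLeftInvariantMean m) {α : Type*} (s : Finset α) (F : α → G → ℝ)
    (hF : ∀ a, IsBdd (F a)) :
    IsBdd (fun h => ∑ a ∈ s, F a h) ∧ m (fun h => ∑ a ∈ s, F a h) = ∑ a ∈ s, m (F a) := by
  classical
  induction s using Finset.induction_on with
  | empty => simpa using ⟨isBdd_zero, m_zero hm⟩
  | insert a s ha ih =>
    have e : (fun h => ∑ b ∈ insert a s, F b h) = fun h => F a h + ∑ b ∈ s, F b h := by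
      funext h
      rw [Finset.sum_insert ha]
    refine ⟨?_, ?_⟩
    · rw [e]
      exact isBdd_add (hF a) ih.1
    · rw [e, Finset.sum_insert ha, ← ih.2]
      exact hm.add (F a) (fun h => ∑ b ∈ s, F b h) (hF a) ih.1

theorem m_mono (hm : IsLeftInvariantMean m) {f g : G → ℝ} (hf : IsBdd f) (hg : IsBdd g)
    (hfg : ∀ h, f h ≤ g h) : m f ≤ m g := by
  have h1 : IsBdd (fun h => g h - f h) := isBdd_sub hg hf
  have h2 := hm.nonneg _ h1 (fun h => sub_nonneg.2 (hfg h))
  have h3 := hm.add (fun h => g h - f h) f h1 hf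
  have h4 : (fun h => (g h - f h) + f h) = g := by
    funext h
    ring
  rw [h4] at h3
  linarith

end NotAmen

open NotAmen in
theorem not_isAmenable_of_doubling {G : Type*} [Group G] (E : Finset G)
    (h : ∀ A : Finset G, ∃ B : Finset G,
      (∀ x ∈ B, ∃ e ∈ E, ∃ a ∈ A, x = e * a) ∧ 2 * A.card ≤ B.card) : ¬ IsAmenable G := by
  classical
  rintro ⟨m, hm⟩
  -- Hall
  have hall : ∃ φ : G × Bool → G, Function.Injective φ ∧
      ∀ x, φ x ∈ (fun x : G × Bool => E.image (fun e => e * x.1)) x := by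
    rw [← Finset.all_card_le_biUnion_card_iff_exists_injective]
    intro s
    obtain ⟨B, hB, hcard⟩ := h (s.image Prod.fst)
    have h1 : s.card ≤ 2 * (s.image Prod.fst).card := by
      have h2 : s ⊆ (s.image Prod.fst) ×ˢ (Finset.univ : Finset Bool) := by
        rintro ⟨x, b⟩ hx
        simp only [Finset.mem_product, Finset.mem_image, Finset.mem_univ, and_true]
        exact ⟨(x, b), hx, rfl⟩
      have h3 := Finset.card_le_card h2
      rw [Finset.card_product, Finset.card_univ, Fintype.card_bool] at h3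
      omega
    have h4 : B ⊆ s.biUnion (fun x : G × Bool => E.image (fun e => e * x.1)) := by
      intro x hx
      obtain ⟨e, he, a, ha, rfl⟩ := hB x hx
      rw [Finset.mem_image] at ha
      obtain ⟨i, hi, rfl⟩ := ha
      rw [Finset.mem_biUnion]
      exact ⟨i, hi, Finset.mem_image.2 ⟨e, he, rfl⟩⟩
    exact (h1.trans hcard).trans (Finset.card_le_card h4)
  obtain ⟨φ, hinj, hφ⟩ := hall
  have hφ' : ∀ x : G × Bool, ∃ e ∈ E, e * x.1 = φ x := fun x => Finset.mem_image.1 (hφ x)
  choose c hcE hc using hφ'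
  -- the indicator functions
  have hsum1 : ∀ b : Bool, ∑ e ∈ E, m (fun x => if c (x, b) = e then (1 : ℝ) else 0) = 1 := by
    intro b
    rw [← (m_sum hm E (fun e x => if c (x, b) = e then (1 : ℝ) else 0)
      (fun e => isBdd_ind (fun x => c (x, b) = e))).2]
    have : (fun x : G => ∑ e ∈ E, if c (x, b) = e then (1 : ℝ) else 0) = fun _ => 1 := by
      funext x
      rw [Finset.sum_ite_eq, if_pos (hcE _)]
    rw [this, hm.one]
  have hinv : ∀ (b : Bool) (e : G), m (fun x => if c (e⁻¹ * x, b) = e then (1 : ℝ) else 0)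
      = m (fun x => if c (x, b) = e then (1 : ℝ) else 0) := by
    intro b e
    exact hm.invariant e (fun x => if c (x, b) = e then (1 : ℝ) else 0)
      (isBdd_ind (fun x => c (x, b) = e))
  -- the total
  have htot := m_sum hm (E ×ˢ (Finset.univ : Finset Bool))
    (fun i x => if c (i.1⁻¹ * x, i.2) = i.1 then (1 : ℝ) else 0)
    (fun i => isBdd_ind (fun x => c (i.1⁻¹ * x, i.2) = i.1))
  have hle : m (fun x => ∑ i ∈ E ×ˢ (Finset.univ : Finset Bool),
      if c (i.1⁻¹ * x, i.2) = i.1 then (1 : ℝ) else 0) ≤ m (fun _ => 1) := by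
    refine m_mono hm htot.1 isBdd_one (fun x => ?_)
    rw [Finset.sum_ite, Finset.sum_const_zero, add_zero, Finset.sum_const, nsmul_eq_mul, mul_one]
    have : (Finset.filter (fun i : G × Bool => c (i.1⁻¹ * x, i.2) = i.1)
        (E ×ˢ (Finset.univ : Finset Bool))).card ≤ 1 := by
      rw [Finset.card_le_one]
      rintro ⟨e, b⟩ hi ⟨e', b'⟩ hi'
      rw [Finset.mem_filter] at hi hi'
      have h1 := hc (e⁻¹ * x, b)
      have h2 := hc (e'⁻¹ * x, b')
      simp only at h1 h2 hi hi'
      rw [hi.2, mul_inv_cancel_left] at h1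
      rw [hi'.2, mul_inv_cancel_left] at h2
      have h3 := hinj (h1.symm.trans h2)
      rw [Prod.mk.injEq] at h3
      have h4 := inv_injective (mul_right_cancel h3.1)
      rw [h4, h3.2]
    exact_mod_cast this
  rw [htot.2, hm.one, Finset.sum_product_right] at hle
  have : ∑ b ∈ (Finset.univ : Finset Bool), ∑ e ∈ E,
      m (fun x => if c (e⁻¹ * x, b) = e then (1 : ℝ) else 0) = 2 := by
    simp only [hinv, hsum1]
    simp
  have hle' : ∑ b ∈ (Finset.univ : Finset Bool), ∑ e ∈ E,
      m (fun x => if c (e⁻¹ * x, b) = e then (1 : ℝ) else 0) ≤ 1 := hle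
  linarith

end GSR
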