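import Pool.Agent.GSR.Defs

/-!
# Light recurrent sets meet the return sets of syndetic sets
-/

set_option autoImplicit false

namespace GSR

open scoped Pointwise ENNReal
open MeasureTheory Helper96.Recurrence

universe u v w

/-! ### Uniform measures on finite sets -/

/-- The uniform probability measure on a finite set. -/
noncomputable def unif (X : Type*) [MeasurableSpace X] : Measure X :=
  (Nat.card X : ℝ≥0∞)⁻¹ • Measure.count

theorem unif_prob (X : Type*) [MeasurableSpace X] [Finite X] [Nonempty X] :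
    IsProbabilityMeasure (unif X) := by
  constructor
  have h1 : (Measure.count : Measure X) Set.univ = Nat.card X := by
    rw [Measure.count_univ, ENat.card_eq_coe_natCard]
    rfl
  rw [unif, Measure.smul_apply, h1, smul_eq_mul]
  refine ENNReal.inv_mul_cancel ?_ (ENNReal.natCast_ne_top _)
  exact_mod_cast Nat.card_pos.ne'

theorem unif_pres {G X : Type*} [Group G] [MulAction G X] [MeasurableSpace X]
    [DiscreteMeasurableSpace X] (g : G) :
    MeasurePreserving (fun x : X => g • x) (unif X) (unif X) := by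
  refine ⟨Measurable.of_discrete, ?_⟩
  ext s hs
  rw [Measure.map_apply Measurable.of_discrete hs]
  rw [unif, Measure.smul_apply, Measure.smul_apply]
  congr 1
  have h1 : (fun x : X => g • x) ⁻¹' s = (fun x : X => g⁻¹ • x) '' s := by
    ext x
    constructor
    · intro hx
      exact ⟨g • x, hx, by simp⟩
    · rintro ⟨y, hy, rfl⟩
      show g • g⁻¹ • y ∈ s
      simpa using hy
  rw [h1, Measure.count_injective_image (MulAction.injective g⁻¹)]

/-! ### The core -/

theorem core {G : Type} [Group G] (Q N : Subgroup G) [hN : N.Normal] [N.FiniteIndex]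
    (hQN : ∀ q ∈ Q, q ∈ N → q = 1) (S : Set G) (F : Finset G)
    (hF : ∀ g : G, ∃ f ∈ F, f⁻¹ * g ∈ S) (R' : Set G)
    (hconj : ∀ f ∈ F, ∀ r ∈ R', f * r * f⁻¹ ∈ Q) (hR : RecAt.{0, 0} G R' F.card) :
    ∃ x ∈ S, ∃ r ∈ R', r ≠ 1 ∧ r * x ∈ S := by
  classical
  let X := G ⧸ N
  have hXfin : Finite X := Subgroup.finite_quotient_of_finiteIndex
  let _ : MeasurableSpace X := ⊤
  have hdisc : DiscreteMeasurableSpace X := ⟨fun _ => trivial⟩
  have hprob := unif_prob X
  -- freeness of the action of `Q`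
  have hfree : ∀ (q q' : G), q ∈ Q → q' ∈ Q → ∀ x : X, q • x = q' • x → q = q' := by
    intro q q' hq hq' x hx
    induction x using QuotientGroup.induction_on with
    | H g =>
      have h1 : (q * g)⁻¹ * (q' * g) ∈ N := QuotientGroup.eq.1 hx
      have h2 := hN.conj_mem _ h1 g
      have h3 : g * ((q * g)⁻¹ * (q' * g)) * g⁻¹ = q⁻¹ * q' := by group
      rw [h3] at h2
      have h4 := hQN _ (Q.mul_mem (Q.inv_mem hq) hq') h2
      exact (inv_mul_eq_one.1 h4)
  -- an equivariant map from `X` to `Q`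
  let τ : X → X := fun x => (Quotient.out (Quotient.mk (MulAction.orbitRel Q X) x) : X)
  have hτ1 : ∀ x : X, ∃ q : Q, q • τ x = x := by
    intro x
    have h1 : MulAction.orbitRel Q X (τ x) x :=
      @Quotient.mk_out X (MulAction.orbitRel Q X) x
    have h2 : MulAction.orbitRel Q X x (τ x) := (MulAction.orbitRel Q X).symm' h1
    exact MulAction.orbitRel_apply.1 h2
  choose ρ hρ using hτ1
  have hτ2 : ∀ (q : Q) (x : X), τ (q • x) = τ x := by
    intro q x
    show Quotient.out _ = Quotient.out _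
    congr 1
    apply Quotient.sound
    exact MulAction.orbitRel_apply.2 ⟨q, rfl⟩
  have hρ2 : ∀ (q : Q) (x : X), ρ (q • x) = q * ρ x := by
    intro q x
    apply Subtype.ext
    apply hfree _ _ (ρ (q • x)).2 (q * ρ x).2 (τ x)
    have h1 := hρ (q • x)
    rw [hτ2] at h1
    have h2 : (q * ρ x) • τ x = q • x := by rw [mul_smul, hρ]
    exact h1.trans h2.symm
  -- the colour classes
  let A : G → Set X := fun f => {x | f⁻¹ * (ρ x : G) ∈ S}
  have hcover : (Set.univ : Set X) ⊆ ⋃ f ∈ F, A f := by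
    intro x _
    obtain ⟨f, hf, hfS⟩ := hF (ρ x)
    exact Set.mem_biUnion hf hfS
  have hFne : F.Nonempty := by
    obtain ⟨f, hf, _⟩ := hF 1
    exact ⟨f, hf⟩
  have hcard : (0 : ℝ) < F.card := by exact_mod_cast hFne.card_pos
  obtain ⟨f, hf, hfA⟩ : ∃ f ∈ F, (F.card : ℝ)⁻¹ ≤ (unif X).real (A f) := by
    by_contra hcon
    push Not at hcon
    have h1 : (1 : ℝ) ≤ ∑ f ∈ F, (unif X).real (A f) := by
      have h2 : (unif X).real (Set.univ : Set X) = 1 := by
        rw [measureReal_def, measure_univ, ENNReal.toReal_one]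
      rw [← h2]
      exact (measureReal_mono hcover (measure_ne_top _ _)).trans
        (measureReal_biUnion_finset_le F A)
    have h3 : ∑ f ∈ F, (unif X).real (A f) < ∑ _f ∈ F, (F.card : ℝ)⁻¹ :=
      Finset.sum_lt_sum_of_nonempty hFne hcon
    rw [Finset.sum_const, nsmul_eq_mul, mul_inv_cancel₀ hcard.ne'] at h3
    linarith
  have hfA' : ((F.card : ℕ) : ℝ≥0∞)⁻¹ ≤ unif X ((fun x : X => f • x) ⁻¹' A f) := by
    rw [(unif_pres (X := X) f).measure_preimage (MeasurableSet.of_discrete).nullMeasurableSet]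
    have h1 : ENNReal.ofReal ((F.card : ℝ)⁻¹) ≤ ENNReal.ofReal ((unif X).real (A f)) :=
      ENNReal.ofReal_le_ofReal hfA
    rw [ofReal_measureReal (measure_ne_top _ _), ENNReal.ofReal_inv_of_pos hcard,
      ENNReal.ofReal_natCast] at h1
    exact h1
  obtain ⟨r, hr, hr1, hpos⟩ := hR X (unif X) (fun g => unif_pres g)
    ((fun x : X => f • x) ⁻¹' A f) MeasurableSet.of_discrete hfA'
  have hne : (((fun x : X => f • x) ⁻¹' A f)
      ∩ (fun x => r • x) ⁻¹' ((fun x : X => f • x) ⁻¹' A f)).Nonempty := by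
    by_contra hemp
    rw [Set.not_nonempty_iff_eq_empty] at hemp
    rw [hemp, measure_empty] at hpos
    exact lt_irrefl _ hpos
  obtain ⟨x, hx1, hx2⟩ := hne
  have h1 : f⁻¹ * (ρ (f • x) : G) ∈ S := hx1
  have h2 : f⁻¹ * (ρ (f • r • x) : G) ∈ S := hx2
  have h3 : f • r • x = (⟨f * r * f⁻¹, hconj f hf r hr⟩ : Q) • (f • x) := by
    show f • r • x = (f * r * f⁻¹) • f • x
    simp only [smul_smul]
    congr 1
    group
  rw [h3, hρ2] at h2
  refine ⟨f⁻¹ * (ρ (f • x) : G), h1, r, hr, hr1, ?_⟩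
  have h4 : r * (f⁻¹ * (ρ (f • x) : G)) = f⁻¹ * (f * r * f⁻¹ * (ρ (f • x) : G)) := by group
  rw [h4]
  exact h2

/-- The abstract setting: a decreasing sequence of finite index normal subgroups with trivial
intersection such that finite families of weight less than one generate finite subgroups. -/
structure LightFinite (G : Type) [Group G] (D : ℕ → Subgroup G) (t : ℝ) : Prop where
  pos : 0 < t
  lt_one : t < 1
  anti : Antitone D
  normal : ∀ n, (D n).Normal
  finiteIndex : ∀ n, (D n).FiniteIndex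
  res : ∀ x, (∀ n, x ∈ D n) → x = 1
  fin : ∀ (L : Finset G) (s : G → ℕ), (∀ x ∈ L, x ∈ D (s x)) → ∑ x ∈ L, t ^ s x < 1 →
        (Subgroup.closure (L : Set G) : Set G).Finite

variable {G : Type} [Group G] {D : ℕ → Subgroup G} {t : ℝ}

theorem LightFinite.exists_level (h : LightFinite G D t) {Q : Set G} (hQ : Q.Finite) :
    ∃ N, ∀ q ∈ Q, q ∈ D N → q = 1 := by
  induction Q, hQ using Set.Finite.induction_on with
  | empty => exact ⟨0, fun q hq => absurd hq (Set.notMem_empty q)⟩
  | @insert a s _ _ ih =>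
    obtain ⟨N, hN⟩ := ih
    by_cases ha : a = 1
    · refine ⟨N, ?_⟩
      intro q hq hqN
      rcases hq with rfl | hq
      · exact ha
      · exact hN q hq hqN
    · have h1 : ∃ n, a ∉ D n := by
        by_contra hcon
        push Not at hcon
        exact ha (h.res a hcon)
      obtain ⟨n, hn⟩ := h1
      refine ⟨max N n, ?_⟩
      intro q hq hqN
      rcases hq with rfl | hq
      · exact absurd (h.anti (le_max_right N n) hqN) hn
      · exact hN q hq (h.anti (le_max_left N n) hqN)

theorem LightFinite.hit (h : LightFinite G D t) (S : Set G) (F : Finset G)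
    (hF : ∀ g : G, ∃ f ∈ F, f⁻¹ * g ∈ S) (R' : Finset G) (s : G → ℕ)
    (hs : ∀ x ∈ R', x ∈ D (s x)) (hw : F.card * ∑ x ∈ R', t ^ s x < 1)
    (hR : RecAt.{0, 0} G (R' : Set G) F.card) :
    ∃ x ∈ S, ∃ r ∈ R', r ≠ 1 ∧ r * x ∈ S := by
  classical
  let L : Finset G := (F ×ˢ R').image fun q => q.1 * q.2 * q.1⁻¹
  have hL : ∀ y ∈ L, ∃ q ∈ F ×ˢ R', q.1 * q.2 * q.1⁻¹ = y := by
    intro y hy
    exact Finset.mem_image.1 hy
  choose! c hc1 hc2 using hL
  have hsum : ∑ y ∈ L, t ^ s (c y).2 ≤ ∑ q ∈ F ×ˢ R', t ^ s q.2 := by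
    have hinj : Set.InjOn c (L : Set G) := by
      intro y hy z hz hyz
      rw [← hc2 y hy, ← hc2 z hz, hyz]
    calc ∑ y ∈ L, t ^ s (c y).2 = ∑ q ∈ L.image c, t ^ s q.2 := by
          rw [Finset.sum_image hinj]
      _ ≤ ∑ q ∈ F ×ˢ R', t ^ s q.2 := by
          apply Finset.sum_le_sum_of_subset_of_nonneg
          · intro q hq
            obtain ⟨y, hy, rfl⟩ := Finset.mem_image.1 hq
            exact hc1 y hy
          · intro q _ _
            exact pow_nonneg h.pos.le _
  have hw' : ∑ y ∈ L, t ^ s (c y).2 < 1 := by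
    refine hsum.trans_lt ?_
    rw [Finset.sum_product]
    simp only
    rw [Finset.sum_const, nsmul_eq_mul]
    exact hw
  have hfin := h.fin L (fun y => s (c y).2) (by
    intro y hy
    show y ∈ D (s (c y).2)
    have h1 := (h.normal (s (c y).2)).conj_mem _
      (hs _ (Finset.mem_product.1 (hc1 y hy)).2) (c y).1
    rwa [hc2 y hy] at h1) hw'
  obtain ⟨N, hN⟩ := h.exists_level hfin
  have := h.normal N
  have := h.finiteIndex N
  exact core (Subgroup.closure (L : Set G)) (D N) hN S F hF (R' : Set G) (by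
    intro f hf r hr
    apply Subgroup.subset_closure
    exact Finset.mem_coe.2 (Finset.mem_image.2 ⟨(f, r), Finset.mem_product.2 ⟨hf, hr⟩, rfl⟩)) hR

/-! ### Universe transport -/

theorem RecAt.down {R' : Set G} {n : ℕ} (h : RecAt.{0, v} G R' n) : RecAt.{0, 0} G R' n := by
  intro X _ μ _ _ hμ A hA hn
  have hup : Measurable (ULift.up : X → ULift.{v} X) := measurable_up
  have hprob : IsProbabilityMeasure (μ.map (ULift.up : X → ULift.{v} X)) :=
    Measure.isProbabilityMeasure_map hup.aemeasurable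
  have hpres : ∀ g : G, MeasurePreserving (fun x : ULift.{v} X => g • x)
      (μ.map (ULift.up : X → ULift.{v} X)) (μ.map (ULift.up : X → ULift.{v} X)) := by
    intro g
    have hm : Measurable (fun x : ULift.{v} X => g • x) := by
      have : (fun x : ULift.{v} X => g • x) = ULift.up ∘ (fun x : X => g • x) ∘ ULift.down := by
        funext x
        rfl
      rw [this]
      exact measurable_up.comp ((hμ g).measurable.comp measurable_down)
    refine ⟨hm, ?_⟩
    rw [Measure.map_map hm hup]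
    have h1 : (fun x : ULift.{v} X => g • x) ∘ (ULift.up : X → ULift.{v} X)
        = ULift.up ∘ (fun x : X => g • x) := by
      funext x
      rfl
    rw [h1, ← Measure.map_map hup (hμ g).measurable, (hμ g).map_eq]
  have hA' : MeasurableSet (ULift.down ⁻¹' A : Set (ULift.{v} X)) := measurable_down hA
  have hmap : ∀ B : Set (ULift.{v} X), MeasurableSet B →
      (μ.map (ULift.up : X → ULift.{v} X)) B = μ (ULift.up ⁻¹' B) := by
    intro B hB
    rw [Measure.map_apply hup hB]
  obtain ⟨g, hg, hg1, hpos⟩ := h (ULift.{v} X) (μ.map (ULift.up : X → ULift.{v} X)) hpres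
    (ULift.down ⁻¹' A) hA' (by rw [hmap _ hA']; exact hn)
  refine ⟨g, hg, hg1, ?_⟩
  rw [hmap _ (hA'.inter ((hpres g).measurable hA'))] at hpos
  exact hpos

/-! ### Topological recurrence -/

/-- Condition of the main theorem: for every `n ≥ 1` there is a finite part of `R` of weight less
than `1 / n` which is recurrent at level `1 / n`. -/
def LightlyRecurrent (D : ℕ → Subgroup G) (t : ℝ) (R : Set G) : Prop :=
  ∀ n : ℕ, 0 < n → ∃ (R' : Finset G) (s : G → ℕ), (R' : Set G) ⊆ R ∧ (∀ x ∈ R', x ∈ D (s x)) ∧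
    n * ∑ x ∈ R', t ^ s x < 1 ∧ RecAt.{0, v} G (R' : Set G) n

theorem LightFinite.exists_return (h : LightFinite G D t) {R : Set G}
    (hR : LightlyRecurrent.{v} D t R) {X : Type w} [TopologicalSpace X] [CompactSpace X]
    [MulAction G X] [ContinuousConstSMul G X] [MulAction.IsMinimal G X] {U : Set X}
    (hU : IsOpen U) (hne : U.Nonempty) :
    ∃ g ∈ R, g ≠ 1 ∧ (U ∩ (fun x => g • x) ⁻¹' U).Nonempty := by
  classical
  obtain ⟨F, hF⟩ := isCompact_univ.exists_finite_cover_smul G hU hne
  obtain ⟨x₀, hx₀⟩ := hne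
  let S : Set G := {g | g • x₀ ∈ U}
  have hF' : ∀ g : G, ∃ f ∈ F, f⁻¹ * g ∈ S := by
    intro g
    have h1 := hF (Set.mem_univ (g • x₀))
    rw [Set.mem_iUnion₂] at h1
    obtain ⟨f, hf, hfU⟩ := h1
    refine ⟨f, hf, ?_⟩
    show (f⁻¹ * g) • x₀ ∈ U
    rw [mul_smul]
    exact Set.mem_smul_set_iff_inv_smul_mem.1 hfU
  have hFne : F.Nonempty := by
    obtain ⟨f, hf, _⟩ := hF' 1
    exact ⟨f, hf⟩
  obtain ⟨R', s, hR'R, hs, hw, hrec⟩ := hR F.card hFne.card_pos
  obtain ⟨x, hx, r, hr, hr1, hrx⟩ := h.hit S F hF' R' s hs hw hrec.down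
  refine ⟨r, hR'R hr, hr1, x • x₀, hx, ?_⟩
  show r • x • x₀ ∈ U
  rw [smul_smul]
  exact hrx

theorem LightFinite.isTopologicallyRecurrent (h : LightFinite G D t) {R : Set G}
    (hR : LightlyRecurrent.{v} D t R) : IsTopologicallyRecurrent.{0, w} G R := by
  intro X _ _ _ _ _ U hU hne
  exact h.exists_return hR hU hne

theorem LightFinite.isTopologicallyRecurrentHausdorff (h : LightFinite G D t) {R : Set G}
    (hR : LightlyRecurrent.{v} D t R) : IsTopologicallyRecurrentHausdorff.{0, w} G R := by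
  intro X _ _ _ _ _ _ U hU hne
  exact h.exists_return hR hU hne

end GSR
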